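import Pool.Agent.Frz.Tab

/-!
# MP_66bb51_pr: the finite check, evaluated by the kernel (about 90 seconds)
-/

set_option maxRecDepth 100000

namespace Frz

theorem chk_true : chk 98 49 = true := by decide +kernel

end Frz
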