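import Pool.Agent.Frz.TW
import Pool.Agent.Frz.Check

/-!
# MP_66bb51_pr: the analytic side `T_W`
-/

namespace Frz

open Finset

variable {A : ℕ → PowerSeries ℝ}

/-- the star inequality for all `1 ≤ P ≤ Q` -/
theorem star_all (hA : Lev A) (P Q : ℕ) (hP : 1 ≤ P) (hPQ : P ≤ Q) (c N : ℕ) (hN : P + Q ≤ N) :
    0 ≤ ∑ t ∈ Ico c N, Ex (sq (A (t + 5))) (sq (A (t + 4))) P Q := by
  rcases Nat.lt_or_ge Q 50 with hQ | hQ
  · exact star_small hA 98 49 chk_true P Q hPQ (by omega) (by omega) c N hN
  · rcases Nat.lt_or_ge N c with hcN | hcN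
    · rw [Finset.Ico_eq_empty (by omega)]
      simp
    · refine star_large hA (al := 63 / 40) (be := 161 / 200) (ga := 27 / 100) (q := 51 / 50)
        (qw := 23 / 40) (by norm_num) (by norm_num) ?_ (fun h _ n => Lam_nonneg hA h n) P Q hP hPQ
        ?_ c N hcN (by omega)
      · exact Gam_le_J hA (by norm_num) (by norm_num) (by norm_num) (by norm_num)
          (fun h hh n => R0_nonneg hA h hh n) (fun h hh n => R1_nonneg hA h hh n)
          (fun h _ n => R2_nonneg hA h (Nat.zero_le h) n)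
      · have : (50 : ℝ) ≤ (Q : ℝ) := by exact_mod_cast hQ
        linarith

/-- the level series of a family of distribution functions -/
noncomputable def serA (F : ℕ → ℕ → ℝ) (k : ℕ) : PowerSeries ℝ :=
  if k < 4 then 0 else PowerSeries.mk (F (k - 3))

theorem sq_serA {F : ℕ → ℕ → ℝ} (hF : Comb.Rec F) (k n : ℕ) : sq (serA F (k + 3)) n = F k n := by
  unfold sq serA
  cases k with
  | zero =>
    rw [if_pos (by norm_num), map_zero, hF.1 n]
  | succ k =>
    rw [if_neg (by omega), PowerSeries.coeff_mk]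
    rfl

theorem serA_lev {F : ℕ → ℕ → ℝ} (hF : Comb.Rec F) : Lev (serA F) := by
  refine ⟨?_, ?_, ?_⟩
  · intro k hk
    unfold serA
    rw [if_pos hk]
  · intro k hk
    obtain ⟨j, rfl⟩ : ∃ j, k = j + 1 + 3 := ⟨k - 4, by omega⟩
    have := sq_serA hF (j + 1) 0
    unfold sq at this
    rw [this]
    exact hF.2.1 j
  · intro k
    rcases Nat.lt_or_ge k 3 with hk | hk
    · have e1 : serA F (k + 1) = 0 := by
        unfold serA
        rw [if_pos (by omega)]
      rw [e1, map_zero, zero_mul]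
    · obtain ⟨j, rfl⟩ : ∃ j, k = j + 3 := ⟨k - 3, by omega⟩
      ext n
      rw [PowerSeries.coeff_derivative, ← cv_sq]
      have e2 : j + 3 + 1 = (j + 1) + 3 := by ring
      have h1 := sq_serA hF (j + 1) (n + 1)
      unfold sq at h1
      rw [e2, h1]
      have h2 := hF.2.2 j n
      unfold cv
      simp only [sq_serA hF]
      rw [Nat.add_sub_cancel, ← h2]
      ring

theorem TT_serA {F : ℕ → ℕ → ℝ} (hF : Comb.Rec F) (m c M i : ℕ) :
    TT (serA F) m c M i
      = ∑ h ∈ Ico c M, (F (h + 1) i * F h (m - i) + F (h + 1) (m - i) * F h i) := by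
  unfold TT
  apply Finset.sum_congr rfl
  intro h _
  have e : h + 4 = (h + 1) + 3 := by ring
  rw [e, sq_serA hF, sq_serA hF, sq_serA hF, sq_serA hF]

/-- the analytic side -/
theorem t_W : Comb.T_W := by
  intro F hF m c M w hM hws hwc
  have h := analytic (serA_lev hF) (fun P Q hP hPQ c N hN => star_all (serA_lev hF) P Q hP hPQ c N hN)
    m c M w hM hws hwc
  simp only [TT_serA hF] at h
  exact h

end Frz
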