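import Pool.Agent.Frz.Lev

/-!
# MP_66bb51_pr: basic facts on level sequences
-/

namespace Frz

open PowerSeries Finset

/-- `cv u v n = Σ_{x < n} u x * v (n - 1 - x)`: the coefficient of index `n - 1` of the product. -/
def cv (u v : ℕ → ℝ) (n : ℕ) : ℝ := ∑ x ∈ range n, u x * v (n - 1 - x)

theorem cv_zero (u v : ℕ → ℝ) : cv u v 0 = 0 := by simp [cv]

theorem cv_comm (u v : ℕ → ℝ) (n : ℕ) : cv u v n = cv v u n := by
  unfold cv
  rw [← Finset.sum_range_reflect]
  apply Finset.sum_congr rfl
  intro x hx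
  rw [Finset.mem_range] at hx
  have h1 : n - 1 - (n - 1 - x) = x := by omega
  rw [h1, mul_comm]

theorem cv_add_left (u u' v : ℕ → ℝ) (n : ℕ) :
    cv (fun i => u i + u' i) v n = cv u v n + cv u' v n := by
  unfold cv
  rw [← Finset.sum_add_distrib]
  apply Finset.sum_congr rfl
  intro x _
  ring

theorem cv_sub_left (u u' v : ℕ → ℝ) (n : ℕ) :
    cv (fun i => u i - u' i) v n = cv u v n - cv u' v n := by
  unfold cv
  rw [← Finset.sum_sub_distrib]
  apply Finset.sum_congr rfl
  intro x _
  ring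

theorem cv_sub_right (u v v' : ℕ → ℝ) (n : ℕ) :
    cv u (fun i => v i - v' i) n = cv u v n - cv u v' n := by
  rw [cv_comm, cv_sub_left, cv_comm v, cv_comm v']

theorem cv_nonneg {u v : ℕ → ℝ} (hu : ∀ n, 0 ≤ u n) (hv : ∀ n, 0 ≤ v n) (n : ℕ) : 0 ≤ cv u v n :=
  Finset.sum_nonneg fun x _ => mul_nonneg (hu x) (hv _)

theorem cv_mono {u u' v v' : ℕ → ℝ} (hu : ∀ n, 0 ≤ u n) (hv : ∀ n, 0 ≤ v n)
    (huu : ∀ n, u n ≤ u' n) (hvv : ∀ n, v n ≤ v' n) (n : ℕ) : cv u v n ≤ cv u' v' n :=
  Finset.sum_le_sum fun x _ => mul_le_mul (huu x) (hvv _) (hv _) ((hu x).trans (huu x))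

/-- the coefficient sequence of a power series -/
noncomputable def sq (P : PowerSeries ℝ) : ℕ → ℝ := fun n => PowerSeries.coeff n P

theorem cv_sq (P Q : PowerSeries ℝ) (n : ℕ) :
    cv (sq P) (sq Q) (n + 1) = PowerSeries.coeff n (P * Q) := by
  unfold cv sq
  rw [PowerSeries.coeff_mul, Finset.Nat.sum_antidiagonal_eq_sum_range_succ_mk]
  rfl

theorem sq_sub (P Q : PowerSeries ℝ) : sq (P - Q) = fun n => sq P n - sq Q n := by
  funext n
  simp [sq]

variable {A : ℕ → PowerSeries ℝ}

/-- the recursion of the level sequences -/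
theorem Lev.rec_cv (hA : Lev A) (k n : ℕ) :
    (n : ℝ) * sq (A (k + 1)) n = cv (sq (A (k + 1))) (sq (A k)) n := by
  rcases n with _ | n
  · simp [cv]
  · rw [cv_sq, ← hA.der k, PowerSeries.coeff_derivative]
    simp only [sq]
    push_cast
    ring

theorem Lev.sq_zero (hA : Lev A) {k : ℕ} (hk : k < 4) (n : ℕ) : sq (A k) n = 0 := by
  simp [sq, hA.zero k hk]

theorem Lev.sq_one (hA : Lev A) {k : ℕ} (hk : 4 ≤ k) : sq (A k) 0 = 1 := by
  simp only [sq]
  exact hA.one k hk

theorem Lev.sqnn (hA : Lev A) (k n : ℕ) : 0 ≤ sq (A k) n := by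
  induction k generalizing n with
  | zero => rw [hA.sq_zero (by norm_num)]
  | succ k ih =>
    induction n using Nat.strong_induction_on with
    | _ n ihn =>
      rcases n with _ | n
      · by_cases hk : k + 1 < 4
        · rw [hA.sq_zero hk]
        · rw [hA.sq_one (by omega)]; norm_num
      · have h1 := hA.rec_cv k (n + 1)
        have h2 : 0 ≤ cv (sq (A (k + 1))) (sq (A k)) (n + 1) := by
          apply Finset.sum_nonneg
          intro x hx
          rw [Finset.mem_range] at hx
          exact mul_nonneg (ihn x hx) (ih _)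
        rw [← h1] at h2
        have h3 : (0 : ℝ) < ((n + 1 : ℕ) : ℝ) := by positivity
        exact nonneg_of_mul_nonneg_right h2 h3

theorem Lev.mono (hA : Lev A) (k n : ℕ) : sq (A k) n ≤ sq (A (k + 1)) n := by
  induction k generalizing n with
  | zero => rw [hA.sq_zero (by norm_num), hA.sq_zero (by norm_num)]
  | succ k ih =>
    induction n using Nat.strong_induction_on with
    | _ n ihn =>
      rcases n with _ | n
      · by_cases hk : k + 1 < 4
        · rw [hA.sq_zero hk]; exact hA.sqnn _ _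
        · rw [hA.sq_one (by omega), hA.sq_one (by omega)]
      · have h1 := hA.rec_cv k (n + 1)
        have h1' := hA.rec_cv (k + 1) (n + 1)
        have h2 : cv (sq (A (k + 1))) (sq (A k)) (n + 1)
            ≤ cv (sq (A (k + 1 + 1))) (sq (A (k + 1))) (n + 1) := by
          apply Finset.sum_le_sum
          intro x hx
          rw [Finset.mem_range] at hx
          exact mul_le_mul (ihn x hx) (ih _) (hA.sqnn _ _) (hA.sqnn _ _)
        rw [← h1, ← h1'] at h2
        have h3 : (0 : ℝ) < ((n + 1 : ℕ) : ℝ) := by positivity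
        exact le_of_mul_le_mul_left h2 h3

theorem Lev.eq_one (hA : Lev A) (k n : ℕ) (hk : n + 4 ≤ k) : sq (A k) n = 1 := by
  induction k generalizing n with
  | zero => omega
  | succ k ih =>
    induction n using Nat.strong_induction_on with
    | _ n ihn =>
      rcases n with _ | n
      · exact hA.sq_one (by omega)
      · have h1 := hA.rec_cv k (n + 1)
        have h2 : cv (sq (A (k + 1))) (sq (A k)) (n + 1) = ((n + 1 : ℕ) : ℝ) := by
          unfold cv
          rw [Finset.sum_congr rfl (g := fun _ => (1 : ℝ))]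
          · simp
          · intro x hx
            rw [Finset.mem_range] at hx
            rw [ihn x hx (by omega), ih (n + 1 - 1 - x) (by omega)]
            norm_num
        rw [h2] at h1
        have h3 : ((n + 1 : ℕ) : ℝ) ≠ 0 := by positivity
        have h4 : ((n + 1 : ℕ) : ℝ) * sq (A (k + 1)) (n + 1) = ((n + 1 : ℕ) : ℝ) * 1 := by
          rw [h1]; ring
        exact mul_left_cancel₀ h3 h4

theorem Lev.lev4 (hA : Lev A) (n : ℕ) (hn : n ≠ 0) : sq (A 4) n = 0 := by
  have h1 := hA.rec_cv 3 n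
  have h2 : cv (sq (A (3 + 1))) (sq (A 3)) n = 0 := by
    unfold cv
    apply Finset.sum_eq_zero
    intro x _
    rw [hA.sq_zero (by norm_num : 3 < 4)]
    ring
  rw [h2] at h1
  have h3 : (n : ℝ) ≠ 0 := by exact_mod_cast hn
  rcases mul_eq_zero.mp h1 with h | h
  · exact absurd h h3
  · exact h

theorem Lev.lev5 (hA : Lev A) (n : ℕ) : sq (A 5) n = 1 / (n.factorial : ℝ) := by
  induction n with
  | zero => rw [hA.sq_one (by norm_num)]; simp
  | succ n ih =>
    have h1 := hA.rec_cv 4 (n + 1)
    have h2 : cv (sq (A (4 + 1))) (sq (A 4)) (n + 1) = sq (A 5) n := by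
      rw [cv_comm]
      unfold cv
      rw [Finset.sum_eq_single 0]
      · rw [hA.sq_one (by norm_num)]
        simp
      · intro x _ hx
        rw [hA.lev4 x hx]; ring
      · intro h; exact absurd (Finset.mem_range.mpr (Nat.succ_pos n)) h
    rw [h2, ih] at h1
    have h3 : ((n + 1 : ℕ) : ℝ) ≠ 0 := by positivity
    have h4 : (n.factorial : ℝ) ≠ 0 := by positivity
    rw [Nat.factorial_succ]
    push_cast at h1 ⊢
    push_cast at h3
    field_simp at h1 ⊢
    linarith

end Frz
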