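import Pool.Agent.Frz.Jmain

/-!
# MP_66bb51_pr: the summed inequality `Σ_{h ≥ c} (2 W_{PQ} - P (Q + 1) f_P f_Q) ≥ 0` for large `Q`
-/

namespace Frz

open PowerSeries Finset

/-- `E = 2 W_{PQ} - P (Q + 1) f_P f_Q` for a pair of consecutive levels -/
def Ex (F G : ℕ → ℝ) (P Q : ℕ) : ℝ :=
  2 * W F G P Q - (P : ℝ) * ((Q : ℝ) + 1) * ((F P - G P) * (F Q - G Q))

theorem sum_sum_Gam (al be ga : ℝ) (F G L M K : ℕ → ℝ) (P Q : ℕ) :
    ∑ x ∈ range P, ∑ y ∈ range Q, F x * F y * Gam al be ga G L M K (P - 1 - x) (Q - 1 - y)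
      = al * ((cv F G P - cv F L P) * (cv F G Q - cv F L Q))
        + be * ((cv F G P - cv F L P) * (cv F L Q - cv F M Q)
          + (cv F L P - cv F M P) * (cv F G Q - cv F L Q))
        + ga * ((cv F G P - cv F L P) * (cv F M Q - cv F K Q)
          + (cv F M P - cv F K P) * (cv F G Q - cv F L Q)) := by
  rw [← cv_sub_right F G L P, ← cv_sub_right F G L Q, ← cv_sub_right F L M P,
    ← cv_sub_right F L M Q, ← cv_sub_right F M K P, ← cv_sub_right F M K Q]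
  unfold cv
  rw [Finset.sum_mul_sum, Finset.sum_mul_sum, Finset.sum_mul_sum, Finset.sum_mul_sum,
    Finset.sum_mul_sum]
  rw [← Finset.sum_add_distrib, ← Finset.sum_add_distrib, Finset.mul_sum, Finset.mul_sum,
    Finset.mul_sum, ← Finset.sum_add_distrib, ← Finset.sum_add_distrib]
  apply Finset.sum_congr rfl
  intro x _
  rw [← Finset.sum_add_distrib, ← Finset.sum_add_distrib, Finset.mul_sum, Finset.mul_sum,
    Finset.mul_sum, ← Finset.sum_add_distrib, ← Finset.sum_add_distrib]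
  apply Finset.sum_congr rfl
  intro y _
  unfold Gam
  ring

/-- the elementary inequality behind the telescoping -/
theorem elem_ineq {al be ga q qw : ℝ} (hq : 0 ≤ q) (hqw : 0 ≤ qw)
    {a a' b b' c c' d d' a1 a1' b1 b1' : ℝ}
    (ha : 0 ≤ a) (ha' : 0 ≤ a') (ha1 : 0 ≤ a1) (ha1' : 0 ≤ a1') (hb1 : 0 ≤ b1) (hb1' : 0 ≤ b1')
    (hab : b1 ≤ a) (hab' : b1' ≤ a')
    (hL : 0 ≤ (al - 2 * q) * a + 2 * (be - qw) * c + q * (a - b1) + 2 * qw * (c - a1)
      + 2 * ga * d - 2 * (q - qw) * b)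
    (hL' : 0 ≤ (al - 2 * q) * a' + 2 * (be - qw) * c' + q * (a' - b1') + 2 * qw * (c' - a1')
      + 2 * ga * d' - 2 * (q - qw) * b') :
    (q * (b1 * b1') + qw * (a1 * b1' + b1 * a1')) - (q * (b * b') + qw * (a * b' + b * a'))
      ≤ al * (a * a') + be * (a * c' + c * a') + ga * (a * d' + d * a')
        - q * ((a + b) * (a' + b')) := by
  have h1 := mul_nonneg ha hL'
  have h2 := mul_nonneg ha' hL
  have h3 := mul_nonneg hq (mul_nonneg hb1' (sub_nonneg.mpr hab))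
  have h4 := mul_nonneg hq (mul_nonneg hb1 (sub_nonneg.mpr hab'))
  have h5 := mul_nonneg hqw (mul_nonneg ha1' (sub_nonneg.mpr hab))
  have h6 := mul_nonneg hqw (mul_nonneg ha1 (sub_nonneg.mpr hab'))
  linear_combination (1 / 2) * h1 + (1 / 2) * h2 + (1 / 2) * h3 + (1 / 2) * h4 + h5 + h6

variable {A : ℕ → PowerSeries ℝ}

/-- `[F g]` at level `t` -/
noncomputable def cA (A : ℕ → PowerSeries ℝ) (t P : ℕ) : ℝ :=
  cv (sq (A (t + 4))) (sq (A (t + 3))) P - cv (sq (A (t + 4))) (sq (A (t + 2))) P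

/-- `[L f]` at level `t` -/
noncomputable def cB (A : ℕ → PowerSeries ℝ) (t P : ℕ) : ℝ :=
  cv (sq (A (t + 2))) (sq (A (t + 4))) P - cv (sq (A (t + 2))) (sq (A (t + 3))) P

/-- the potential -/
noncomputable def Phi (A : ℕ → PowerSeries ℝ) (q qw : ℝ) (P Q t : ℕ) : ℝ :=
  q * (cB A t P * cB A t Q) + qw * (cA A t P * cB A t Q + cB A t P * cA A t Q)

theorem cA_nonneg (hA : Lev A) (t P : ℕ) : 0 ≤ cA A t P := by
  unfold cA
  rw [← cv_sub_right]
  exact cv_nonneg (hA.sqnn _) (fun n => sub_nonneg.mpr (hA.mono (t + 2) n)) P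

theorem cB_nonneg (hA : Lev A) (t P : ℕ) : 0 ≤ cB A t P := by
  unfold cB
  rw [← cv_sub_right]
  exact cv_nonneg (hA.sqnn _) (fun n => sub_nonneg.mpr (hA.mono (t + 3) n)) P

/-- `P f_P = [F g] + [L f]` -/
theorem mul_f (hA : Lev A) (t P : ℕ) :
    (P : ℝ) * (sq (A (t + 4)) P - sq (A (t + 3)) P) = cA A t P + cB A t P := by
  have h1 := hA.rec_cv (t + 3) P
  have h2 := hA.rec_cv (t + 2) P
  unfold cA cB
  have e1 := cv_comm (sq (A (t + 2))) (sq (A (t + 4))) P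
  have e2 := cv_comm (sq (A (t + 2))) (sq (A (t + 3))) P
  rw [e1, e2]
  simp only [show t + 3 + 1 = t + 4 by ring, show t + 2 + 1 = t + 3 by ring] at h1 h2
  linear_combination h1 - h2

/-- the step inequality -/
theorem Ex_ge (hA : Lev A) {al be ga q qw : ℝ} (hq : 0 ≤ q) (hqw : 0 ≤ qw)
    (hJ : ∀ h a b, Gam al be ga (sq (A (h + 4))) (sq (A (h + 3))) (sq (A (h + 2)))
      (sq (A (h + 1))) a b ≤ 2 * J (sq (A (h + 4))) a b)
    (hLam : ∀ h, 1 ≤ h → ∀ n, 0 ≤ PowerSeries.coeff n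
      (Lam al be ga q qw (A (h + 4)) (A (h + 3)) (A (h + 2)) (A (h + 1)) (A h)))
    (P Q t : ℕ) (hP : 1 ≤ P) (hQ : 1 ≤ Q) (hqQ : (Q : ℝ) + 1 ≤ q * Q) :
    Phi A q qw P Q t - Phi A q qw P Q (t + 1) ≤ Ex (sq (A (t + 5))) (sq (A (t + 4))) P Q := by
  -- lower bound for `2 W`
  have hW : ∑ x ∈ range P, ∑ y ∈ range Q, sq (A (t + 5)) x * sq (A (t + 5)) y
      * Gam al be ga (sq (A (t + 4))) (sq (A (t + 3))) (sq (A (t + 2))) (sq (A (t + 1)))
        (P - 1 - x) (Q - 1 - y) ≤ 2 * W (sq (A (t + 5))) (sq (A (t + 4))) P Q := by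
    unfold W
    rw [Finset.mul_sum]
    apply Finset.sum_le_sum
    intro x _
    rw [Finset.mul_sum]
    apply Finset.sum_le_sum
    intro y _
    have h1 := mul_le_mul_of_nonneg_left (hJ t (P - 1 - x) (Q - 1 - y))
      (mul_nonneg (hA.sqnn (t + 5) x) (hA.sqnn (t + 5) y))
    linarith
  rw [sum_sum_Gam] at hW
  -- `P (Q + 1) f_P f_Q ≤ q (a + b) (a' + b')`
  have hf : (P : ℝ) * ((Q : ℝ) + 1) * ((sq (A (t + 5)) P - sq (A (t + 4)) P)
      * (sq (A (t + 5)) Q - sq (A (t + 4)) Q))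
      ≤ q * ((cA A (t + 1) P + cB A (t + 1) P) * (cA A (t + 1) Q + cB A (t + 1) Q)) := by
    have h1 := mul_f hA (t + 1) P
    have h2 := mul_f hA (t + 1) Q
    rw [← h1, ← h2]
    have e1 : t + 1 + 4 = t + 5 := by ring
    have e2 : t + 1 + 3 = t + 4 := by ring
    rw [e1, e2]
    have f1 : 0 ≤ sq (A (t + 5)) P - sq (A (t + 4)) P := sub_nonneg.mpr (hA.mono _ _)
    have f2 : 0 ≤ sq (A (t + 5)) Q - sq (A (t + 4)) Q := sub_nonneg.mpr (hA.mono _ _)
    have h3 : 0 ≤ (P : ℝ) * ((sq (A (t + 5)) P - sq (A (t + 4)) P)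
      * (sq (A (t + 5)) Q - sq (A (t + 4)) Q)) := by positivity
    have h4 := mul_le_mul_of_nonneg_left hqQ h3
    linarith
  obtain ⟨P', rfl⟩ : ∃ P', P = P' + 1 := ⟨P - 1, by omega⟩
  obtain ⟨Q', rfl⟩ : ∃ Q', Q = Q' + 1 := ⟨Q - 1, by omega⟩
  have hL := hLam (t + 1) (by omega) P'
  have hL' := hLam (t + 1) (by omega) Q'
  rw [coeff_Lam] at hL hL'
  have e1 : t + 1 + 4 = t + 5 := by ring
  have e2 : t + 1 + 3 = t + 4 := by ring
  have e3 : t + 1 + 2 = t + 3 := by ring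
  have e4 : t + 1 + 1 = t + 2 := by ring
  rw [e1, e2, e3, e4] at hL hL'
  have ha := cA_nonneg hA (t + 1) (P' + 1)
  have ha' := cA_nonneg hA (t + 1) (Q' + 1)
  have ha1 := cA_nonneg hA t (P' + 1)
  have ha1' := cA_nonneg hA t (Q' + 1)
  have hb1 := cB_nonneg hA t (P' + 1)
  have hb1' := cB_nonneg hA t (Q' + 1)
  have hcmp : ∀ n, cB A t n ≤ cA A (t + 1) n := by
    intro n
    unfold cB cA
    rw [← cv_sub_right, e1, e2, e3, ← cv_sub_right]
    apply cv_mono (hA.sqnn _) (fun i => sub_nonneg.mpr (hA.mono (t + 3) i))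
    · intro i
      exact ((hA.mono (t + 2) i).trans (hA.mono (t + 3) i)).trans (hA.mono (t + 4) i)
    · intro i; exact le_rfl
  have key := elem_ineq (al := al) (be := be) (ga := ga) hq hqw
    (b := cB A (t + 1) (P' + 1)) (b' := cB A (t + 1) (Q' + 1))
    (c := cv (sq (A (t + 5))) (sq (A (t + 3))) (P' + 1)
      - cv (sq (A (t + 5))) (sq (A (t + 2))) (P' + 1))
    (c' := cv (sq (A (t + 5))) (sq (A (t + 3))) (Q' + 1)
      - cv (sq (A (t + 5))) (sq (A (t + 2))) (Q' + 1))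
    (d := cv (sq (A (t + 5))) (sq (A (t + 2))) (P' + 1)
      - cv (sq (A (t + 5))) (sq (A (t + 1))) (P' + 1))
    (d' := cv (sq (A (t + 5))) (sq (A (t + 2))) (Q' + 1)
      - cv (sq (A (t + 5))) (sq (A (t + 1))) (Q' + 1))
    ha ha' ha1 ha1' hb1 hb1' (hcmp (P' + 1)) (hcmp (Q' + 1))
    (by
      simp only [cA, cB, e1, e2, e3]
      exact hL)
    (by
      simp only [cA, cB, e1, e2, e3]
      exact hL')
  unfold Phi Ex
  simp only [cA, cB, e1, e2, e3] at key hf ⊢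
  linarith

/-- the telescoped inequality for large `Q` -/
theorem star_large (hA : Lev A) {al be ga q qw : ℝ} (hq : 0 ≤ q) (hqw : 0 ≤ qw)
    (hJ : ∀ h a b, Gam al be ga (sq (A (h + 4))) (sq (A (h + 3))) (sq (A (h + 2)))
      (sq (A (h + 1))) a b ≤ 2 * J (sq (A (h + 4))) a b)
    (hLam : ∀ h, 1 ≤ h → ∀ n, 0 ≤ PowerSeries.coeff n
      (Lam al be ga q qw (A (h + 4)) (A (h + 3)) (A (h + 2)) (A (h + 1)) (A h)))
    (P Q : ℕ) (hP : 1 ≤ P) (hPQ : P ≤ Q) (hqQ : (Q : ℝ) + 1 ≤ q * Q) (c N : ℕ) (hcN : c ≤ N)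
    (hN : Q ≤ N) :
    0 ≤ ∑ t ∈ Ico c N, Ex (sq (A (t + 5))) (sq (A (t + 4))) P Q := by
  have h1 : ∑ t ∈ Ico c N, (Phi A q qw P Q t - Phi A q qw P Q (t + 1))
      ≤ ∑ t ∈ Ico c N, Ex (sq (A (t + 5))) (sq (A (t + 4))) P Q :=
    Finset.sum_le_sum fun t _ => Ex_ge hA hq hqw hJ hLam P Q t hP (hP.trans hPQ) hqQ
  have h2 : ∑ t ∈ Ico c N, (Phi A q qw P Q t - Phi A q qw P Q (t + 1))
      = Phi A q qw P Q c - Phi A q qw P Q N := by
    rw [Finset.sum_Ico_eq_sum_range]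
    have h3 := Finset.sum_range_sub' (fun i => Phi A q qw P Q (c + i)) (N - c)
    simp only [Nat.add_zero] at h3
    have e : c + (N - c) = N := by omega
    rw [e] at h3
    exact h3
  have hB : ∀ R, R ≤ N → cB A N R = 0 := by
    intro R hR
    unfold cB
    rw [← cv_sub_right]
    unfold cv
    apply Finset.sum_eq_zero
    intro x hx
    rw [Finset.mem_range] at hx
    simp only [hA.eq_one (N + 4) (R - 1 - x) (by omega), hA.eq_one (N + 3) (R - 1 - x) (by omega)]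
    ring
  have h4 : Phi A q qw P Q N = 0 := by
    unfold Phi
    rw [hB P (hPQ.trans hN), hB Q hN]
    ring
  have h5 : 0 ≤ Phi A q qw P Q c := by
    unfold Phi
    have a1 := cA_nonneg hA c P
    have a2 := cA_nonneg hA c Q
    have b1 := cB_nonneg hA c P
    have b2 := cB_nonneg hA c Q
    positivity
  linarith

end Frz
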