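import Pool.Agent.Frz.UpdSpec
import Pool.Agent.Frz.Star

/-!
# MP_66bb51_pr: the finite check implies the inequality `Σ Ex ≥ 0` for `P + Q ≤ H`
-/

namespace Frz

open Finset

/-- real counterpart of `incX` -/
noncomputable def Xr (F : ℕ → ℝ) (m P : ℕ) : ℝ :=
  (m.factorial : ℝ) * (2 * ((P : ℝ) * ((m : ℝ) - P + 1) * (F P * F (m - P))))

/-- real counterpart of `incY` -/
noncomputable def Yr (F G : ℕ → ℝ) (m P : ℕ) : ℝ :=
  (m.factorial : ℝ) * ((P : ℝ) * ((m : ℝ) - P + 1) * ((F P - G P) * (F (m - P) - G (m - P)))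
    + 2 * ∑ i ∈ range P, ((m : ℝ) - 2 * i) * (F i * F (m - i)))

theorem choose_fact (m i : ℕ) (hi : i ≤ m) (x y : ℝ) :
    (m.choose i : ℝ) * (((i.factorial : ℝ) * x) * (((m - i).factorial : ℝ) * y))
      = (m.factorial : ℝ) * (x * y) := by
  have h2 := Nat.choose_mul_factorial_mul_factorial hi
  have h3 : (m.choose i : ℝ) * (i.factorial : ℝ) * ((m - i).factorial : ℝ) = (m.factorial : ℝ) := by
    exact_mod_cast h2
  rw [← h3]
  ring

theorem incX_cast {F : ℕ → ℝ} {a : ℕ → ℕ} (H : ℕ)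
    (ha : ∀ i, i ≤ H → (a i : ℝ) = (i.factorial : ℝ) * F i) (m P : ℕ) (hm : m ≤ H) (hP : P ≤ m / 2) :
    (incX a m P : ℝ) = Xr F m P := by
  unfold incX Xr
  have hPm : P ≤ m := by omega
  push_cast [Nat.cast_sub hPm]
  rw [ha P (by omega), ha (m - P) (by omega)]
  have h := choose_fact m P hPm (F P) (F (m - P))
  linear_combination (2 * (P : ℝ) * ((m : ℝ) - P + 1)) * h

theorem incY_cast {F G : ℕ → ℝ} {a b : ℕ → ℕ} (H : ℕ)
    (ha : ∀ i, i ≤ H → (a i : ℝ) = (i.factorial : ℝ) * F i)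
    (hb : ∀ i, i ≤ H → (b i : ℝ) = (i.factorial : ℝ) * (F i - G i))
    (m P : ℕ) (hm : m ≤ H) (hP : P ≤ m / 2) :
    (incY a b m P : ℝ) = Yr F G m P := by
  unfold incY Yr
  have hPm : P ≤ m := by omega
  have h := choose_fact m P hPm (F P - G P) (F (m - P) - G (m - P))
  push_cast [Nat.cast_sub hPm]
  rw [hb P (by omega), hb (m - P) (by omega)]
  have e : ∑ i ∈ range P, (((m - 2 * i : ℕ) : ℝ)) * ((m.choose i : ℝ) * ((a i : ℝ) * (a (m - i) : ℝ)))
      = (m.factorial : ℝ) * ∑ i ∈ range P, ((m : ℝ) - 2 * i) * (F i * F (m - i)) := by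
    rw [Finset.mul_sum]
    apply Finset.sum_congr rfl
    intro i hi
    rw [Finset.mem_range] at hi
    rw [ha i (by omega), ha (m - i) (by omega), choose_fact m i (by omega)]
    rw [Nat.cast_sub (by omega)]
    push_cast
    ring
  rw [e]
  linear_combination ((P : ℝ) * ((m : ℝ) - P + 1)) * h

theorem run_cons (H : ℕ) (pas : List (List ℕ)) (F G : List ℕ) (rest : List (List ℕ))
    (accs : List (List (ℕ × ℕ))) :
    run H pas (F :: G :: rest) accs
      = (okL (updL F (List.zipWith Nat.sub F G) accs H pas F.reverse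
            (List.zipWith Nat.sub F G).reverse)).and
          (run H pas (G :: rest) (updL F (List.zipWith Nat.sub F G) accs H pas F.reverse
            (List.zipWith Nat.sub F G).reverse)) := rfl

theorem zipWith_getD (F G : List ℕ) (i : ℕ) (h1 : i < F.length) (h2 : i < G.length) :
    (List.zipWith Nat.sub F G).getD i 0 = F.getD i 0 - G.getD i 0 := by
  rw [List.getD_eq_getElem _ _ (by rw [List.length_zipWith]; omega), List.getElem_zipWith,
    List.getD_eq_getElem _ _ h1, List.getD_eq_getElem _ _ h2]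
  rfl

/-- the accumulators at level `c` -/
def AccOK (F : ℕ → ℕ → ℝ) (H T c : ℕ) (accs : List (List (ℕ × ℕ))) : Prop :=
  ∃ X Y : ℕ → ℕ → ℕ, AccR X Y H accs ∧ ∀ m, m ≤ H → ∀ P, P ≤ m / 2 →
    (X m P : ℝ) = ∑ h ∈ Ico c T, Xr (F h) m P ∧
    (Y m P : ℝ) = ∑ h ∈ Ico c T, Yr (F h) (F (h - 1)) m P

theorem run_spec {F : ℕ → ℕ → ℝ} (H T : ℕ) (pas : List (List ℕ)) (hpas : PasR H pas)
    (hmono : ∀ k n, F k n ≤ F (k + 1) n) :
    ∀ (k : ℕ) (l : List (List ℕ)) (accs : List (List (ℕ × ℕ))), k < T → RepL F H k l →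
      AccOK F H T (k + 1) accs → run H pas l accs = true →
      ∀ c, 1 ≤ c → c ≤ k → ∀ m, m ≤ H → ∀ P, P ≤ m / 2 →
        ∑ h ∈ Ico c T, Yr (F h) (F (h - 1)) m P ≤ ∑ h ∈ Ico c T, Xr (F h) m P := by
  intro k
  induction k with
  | zero =>
    intro l accs _ _ _ _ c hc1 hc2
    omega
  | succ k ih =>
    intro l accs hk hl hacc hrun c hc1 hc2
    obtain ⟨g, rest, e1, hg, hrest⟩ := hl
    obtain ⟨g', rest', e2, hg'⟩ := RepL_head hrest
    subst e1; subst e2
    rw [run_cons, Bool.and_eq_true] at hrun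
    obtain ⟨X, Y, hR, hXY⟩ := hacc
    -- the lists
    set f := List.zipWith Nat.sub g g' with hf
    have hfl : f.length = H + 1 := by
      rw [hf, List.length_zipWith, hg.1, hg'.1, Nat.min_self]
    have hfget : ∀ i, i ≤ H → f.getD i 0 = g.getD i 0 - g'.getD i 0 := by
      intro i hi
      exact zipWith_getD g g' i (by rw [hg.1]; omega) (by rw [hg'.1]; omega)
    have hacc' := updL_spec (fun i => g.getD i 0) (fun i => f.getD i 0) g f H accs pas g.reverse
      f.reverse hR hpas (by rw [hg.1]) (by rw [hfl]) (fun i _ => rfl) (fun i _ => rfl)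
      (by rw [List.length_reverse, hg.1]) (by rw [List.length_reverse, hfl])
      (by
        intro i hi
        rw [getD_reverse g i (by rw [hg.1]; omega), hg.1, Nat.add_sub_cancel])
      (by
        intro i hi
        rw [getD_reverse f i (by rw [hfl]; omega), hfl, Nat.add_sub_cancel])
    set accs' := updL g f accs H pas g.reverse f.reverse with haccs'
    have ha : ∀ i, i ≤ H → (((fun i => g.getD i 0) i : ℕ) : ℝ) = (i.factorial : ℝ) * F (k + 1) i :=
      fun i hi => hg.2 i hi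
    have hb : ∀ i, i ≤ H → (((fun i => f.getD i 0) i : ℕ) : ℝ)
        = (i.factorial : ℝ) * (F (k + 1) i - F k i) := by
      intro i hi
      show ((f.getD i 0 : ℕ) : ℝ) = _
      rw [hfget i hi]
      have h1 := hg.2 i hi
      have h2 := hg'.2 i hi
      have h3 : g'.getD i 0 ≤ g.getD i 0 := by
        have : (g'.getD i 0 : ℝ) ≤ (g.getD i 0 : ℝ) := by
          rw [h1, h2]
          exact mul_le_mul_of_nonneg_left (hmono k i) (by positivity)
        exact_mod_cast this
      rw [Nat.cast_sub h3, h1, h2]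
      ring
    have hXY' : ∀ m, m ≤ H → ∀ P, P ≤ m / 2 →
        ((X m P + incX (fun i => g.getD i 0) m P : ℕ) : ℝ) = ∑ h ∈ Ico (k + 1) T, Xr (F h) m P ∧
        ((Y m P + incY (fun i => g.getD i 0) (fun i => f.getD i 0) m P : ℕ) : ℝ)
          = ∑ h ∈ Ico (k + 1) T, Yr (F h) (F (h - 1)) m P := by
      intro m hm P hP
      obtain ⟨h1, h2⟩ := hXY m hm P hP
      rw [Finset.sum_eq_sum_Ico_succ_bot hk, Finset.sum_eq_sum_Ico_succ_bot hk, ← h1, ← h2]
      push_cast
      rw [incX_cast H ha m P hm hP, incY_cast H ha hb m P hm hP]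
      constructor <;> exact add_comm _ _
    rcases Nat.lt_or_ge c (k + 1) with hlt | hge
    · exact ih (g' :: rest') accs' (by omega) hrest ⟨_, _, hacc', hXY'⟩ hrun.2 c hc1 (by omega)
    · have hce : c = k + 1 := by omega
      subst hce
      intro m hm P hP
      obtain ⟨h1, h2⟩ := hXY' m hm P hP
      rw [← h1, ← h2]
      have := AccR_ok hacc' hrun.1 m hm P hP
      exact_mod_cast this

theorem accs0_spec (n : ℕ) : AccR (fun _ _ => 0) (fun _ _ => 0) n (accs0 n) := by
  induction n with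
  | zero =>
    refine ⟨[(0, 0)], rfl, rfl, ?_⟩
    intro P hP
    have : P = 0 := by omega
    subst this
    rfl
  | succ n ih =>
    have e : accs0 (n + 1) = List.replicate ((n + 1) / 2 + 1) (0, 0) :: accs0 n := rfl
    rw [e]
    refine ⟨_, _, rfl, by rw [List.length_replicate], ?_, ih⟩
    intro P hP
    rw [List.getD_eq_getElem _ _ (by rw [List.length_replicate]; omega), List.getElem_replicate]

variable {A : ℕ → PowerSeries ℝ}

theorem chk_spec (hA : Lev A) (H K : ℕ) (hchk : chk H K = true) (c : ℕ) (hc : 1 ≤ c)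
    (hcK : c ≤ K) (m : ℕ) (hm : m ≤ H) (P : ℕ) (hP : P ≤ m / 2) :
    ∑ h ∈ Ico c (K + 1), Yr (sq (A (h + 4))) (sq (A (h - 1 + 4))) m P
      ≤ ∑ h ∈ Ico c (K + 1), Xr (sq (A (h + 4))) m P := by
  have hrec : ∀ k n : ℕ, ((n : ℝ) + 1) * sq (A (k + 1 + 4)) (n + 1)
      = ∑ x ∈ range (n + 1), sq (A (k + 1 + 4)) x * sq (A (k + 4)) (n - x) := by
    intro k n
    have h := hA.rec_cv (k + 4) (n + 1)
    unfold cv at h
    push_cast at h
    have e : k + 1 + 4 = k + 4 + 1 := by ring
    rw [e, h]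
  have hrows := rows_spec (F := fun k => sq (A (k + 4))) H (hA.sq_one (by norm_num))
    (fun n hn => hA.lev4 n hn) (fun k => hA.sq_one (by omega)) hrec K
  have hacc : AccOK (fun k => sq (A (k + 4))) H (K + 1) (K + 1) (accs0 H) := by
    refine ⟨_, _, accs0_spec H, ?_⟩
    intro m _ P _
    rw [Finset.Ico_self]
    simp
  have hmono : ∀ k n, sq (A (k + 4)) n ≤ sq (A (k + 1 + 4)) n := by
    intro k n
    have := hA.mono (k + 4) n
    have e : k + 1 + 4 = k + 4 + 1 := by ring
    rw [e]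
    exact this
  exact run_spec (F := fun k => sq (A (k + 4))) H (K + 1) (pasL H) (pasL_spec H) hmono K _ _
    (by omega) hrows hacc hchk c hc hcK m hm P hP

/-- `m! Ex = Xr - Yr` -/
theorem Ex_eq_XY (hA : Lev A) (k P Q : ℕ) (hPQ : P ≤ Q) :
    ((P + Q).factorial : ℝ) * Ex (sq (A (k + 1))) (sq (A k)) P Q
      = Xr (sq (A (k + 1))) (P + Q) P - Yr (sq (A (k + 1))) (sq (A k)) (P + Q) P := by
  unfold Ex Xr Yr
  rw [W_eq (hA.rec_cv k) P Q hPQ]
  have e : P + Q - P = Q := by omega
  rw [e]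
  push_cast
  ring

/-- `J` is nonnegative at all levels -/
theorem J_nonneg (hA : Lev A) (k a b : ℕ) : 0 ≤ J (sq (A k)) a b := by
  induction k generalizing a b with
  | zero => rw [J_low hA 0 (by norm_num)]
  | succ k ih =>
    induction hs : a + b using Nat.strong_induction_on generalizing a b with
    | _ s ihs =>
      have h := Y3 (hA.rec_cv k) a b
      have h1 : 0 ≤ ∑ y ∈ range b, J (sq (A (k + 1))) a y * sq (A k) (b - 1 - y) := by
        apply Finset.sum_nonneg
        intro y hy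
        rw [Finset.mem_range] at hy
        exact mul_nonneg (ihs (a + y) (by omega) a y rfl) (hA.sqnn _ _)
      have h2 : 0 ≤ ∑ y ∈ range a, sq (A (k + 1)) y * J (sq (A k)) (a - 1 - y) b :=
        Finset.sum_nonneg fun y _ => mul_nonneg (hA.sqnn _ _) (ih _ _)
      have h3 : 0 ≤ ((a : ℝ) + 1) * sq (A (k + 1)) a * (sq (A (k + 1)) b - sq (A k) b) :=
        mul_nonneg (mul_nonneg (by positivity) (hA.sqnn _ _)) (sub_nonneg.mpr (hA.mono _ _))
      have h4 : 0 ≤ ((a : ℝ) + b + 1) * J (sq (A (k + 1))) a b := by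
        rw [h]
        exact add_nonneg (add_nonneg h1 h2) h3
      exact nonneg_of_mul_nonneg_right h4 (by positivity)

theorem W_nonneg (hA : Lev A) (k P Q : ℕ) : 0 ≤ W (sq (A (k + 1))) (sq (A k)) P Q :=
  Finset.sum_nonneg fun _ _ => Finset.sum_nonneg fun _ _ =>
    mul_nonneg (mul_nonneg (hA.sqnn _ _) (hA.sqnn _ _)) (J_nonneg hA _ _ _)

/-- the inequality for small `P + Q` -/
theorem star_small (hA : Lev A) (H K : ℕ) (hchk : chk H K = true) (P Q : ℕ)
    (hPQ : P ≤ Q) (hPK : P ≤ K) (hH : P + Q ≤ H) (c N : ℕ) (hN : P + Q ≤ N) :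
    0 ≤ ∑ t ∈ Ico c N, Ex (sq (A (t + 5))) (sq (A (t + 4))) P Q := by
  -- high levels
  have high : ∀ t, K ≤ t → 0 ≤ Ex (sq (A (t + 5))) (sq (A (t + 4))) P Q := by
    intro t ht
    unfold Ex
    rw [hA.eq_one (t + 5) P (by omega), hA.eq_one (t + 4) P (by omega)]
    have := W_nonneg hA (t + 4) P Q
    linarith
  -- all levels up to `K`
  have low : ∀ c, c ≤ K → 0 ≤ ∑ t ∈ Ico c K, Ex (sq (A (t + 5))) (sq (A (t + 4))) P Q := by
    intro c hc
    rcases Nat.lt_or_ge c K with hlt | hge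
    · have h1 := chk_spec hA H K hchk (c + 1) (by omega) (by omega) (P + Q) hH P (by omega)
      have h2 : ((P + Q).factorial : ℝ) * ∑ t ∈ Ico c K, Ex (sq (A (t + 5))) (sq (A (t + 4))) P Q
          = ∑ h ∈ Ico (c + 1) (K + 1), Xr (sq (A (h + 4))) (P + Q) P
            - ∑ h ∈ Ico (c + 1) (K + 1), Yr (sq (A (h + 4))) (sq (A (h - 1 + 4))) (P + Q) P := by
        rw [← Finset.sum_sub_distrib, Finset.mul_sum]
        rw [← Finset.sum_Ico_add' (fun h => Xr (sq (A (h + 4))) (P + Q) P
          - Yr (sq (A (h + 4))) (sq (A (h - 1 + 4))) (P + Q) P) c K 1]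
        apply Finset.sum_congr rfl
        intro t _
        have := Ex_eq_XY hA (t + 4) P Q hPQ
        have e1 : t + 4 + 1 = t + 5 := by ring
        have e2 : t + 1 + 4 = t + 5 := by ring
        have e3 : t + 1 - 1 + 4 = t + 4 := by omega
        rw [e1] at this
        rw [e2, e3]
        exact this
      have h3 : 0 ≤ ((P + Q).factorial : ℝ)
          * ∑ t ∈ Ico c K, Ex (sq (A (t + 5))) (sq (A (t + 4))) P Q := by
        rw [h2]
        linarith
      have h4 : (0 : ℝ) < ((P + Q).factorial : ℝ) := by positivity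
      exact nonneg_of_mul_nonneg_right h3 h4
    · rw [Finset.Ico_eq_empty (by omega)]
      simp
  -- zero at the very high levels
  have zero : ∀ t, P + Q ≤ t → Ex (sq (A (t + 5))) (sq (A (t + 4))) P Q = 0 := by
    intro t ht
    unfold Ex
    rw [hA.eq_one (t + 5) P (by omega), hA.eq_one (t + 4) P (by omega)]
    have h1 : W (sq (A (t + 5))) (sq (A (t + 4))) P Q = 0 := by
      unfold W
      apply Finset.sum_eq_zero
      intro x hx
      apply Finset.sum_eq_zero
      intro y hy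
      rw [Finset.mem_range] at hx hy
      unfold J
      rw [hA.eq_one (t + 4) (P - 1 - x) (by omega), hA.eq_one (t + 4) (Q - 1 - y) (by omega),
        hA.eq_one (t + 4) (P - 1 - x + (Q - 1 - y) + 1) (by omega)]
      ring
    rw [h1]
    ring
  rcases Nat.lt_or_ge N c with hcN | hcN
  · rw [Finset.Ico_eq_empty (by omega)]
    simp
  rcases Nat.le_total N K with hNK | hNK
  · have h1 := low c (by omega)
    rw [← Finset.sum_Ico_consecutive _ hcN hNK] at h1
    have h2 : ∑ t ∈ Ico N K, Ex (sq (A (t + 5))) (sq (A (t + 4))) P Q = 0 := by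
      apply Finset.sum_eq_zero
      intro t ht
      rw [Finset.mem_Ico] at ht
      exact zero t (by omega)
    rw [h2] at h1
    linarith
  · rcases Nat.le_total c K with hcK | hcK
    · rw [← Finset.sum_Ico_consecutive _ hcK hNK]
      apply add_nonneg (low c hcK)
      apply Finset.sum_nonneg
      intro t ht
      rw [Finset.mem_Ico] at ht
      exact high t ht.1
    · apply Finset.sum_nonneg
      intro t ht
      rw [Finset.mem_Ico] at ht
      exact high t (by omega)

end Frz
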