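import Pool.Agent.Frz.Lev

set_option autoImplicit false

/-!
# MP_66bb51_pr: closure under the derivative implies nonnegativity
-/

namespace Frz

open PowerSeries

/-- The coefficients of index at most `n` are nonnegative. -/
def TN (n : ℕ) (p : PowerSeries ℝ) : Prop := ∀ m ≤ n, 0 ≤ coeff m p

theorem TN.add {n : ℕ} {p q : PowerSeries ℝ} (hp : TN n p) (hq : TN n q) : TN n (p + q) := by
  intro m hm
  rw [map_add]
  exact add_nonneg (hp m hm) (hq m hm)

theorem TN.mul {n : ℕ} {p q : PowerSeries ℝ} (hp : TN n p) (hq : TN n q) : TN n (p * q) := by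
  intro m hm
  rw [coeff_mul]
  refine Finset.sum_nonneg fun x hx => ?_
  have h := Finset.HasAntidiagonal.mem_antidiagonal.mp hx
  exact mul_nonneg (hp _ (by omega)) (hq _ (by omega))

theorem TN.zero {n : ℕ} : TN n (0 : PowerSeries ℝ) := by
  intro m _
  simp

theorem TN.nsmul {n : ℕ} (k : ℕ) {p : PowerSeries ℝ} (hp : TN n p) : TN n (k • p) := by
  intro m hm
  rw [map_nsmul]
  exact nsmul_nonneg (hp m hm) k

theorem TN.mono {n n' : ℕ} {p : PowerSeries ℝ} (hp : TN n p) (h : n' ≤ n) : TN n' p :=
  fun m hm => hp m (le_trans hm h)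

/-- Simultaneous induction on the index of the coefficient. -/
theorem closure {ι : Type} (Q : ι → ℕ → PowerSeries ℝ) (h₀ : ι → ℕ)
    (base : ∀ i h, h₀ i ≤ h → 0 ≤ coeff 0 (Q i h))
    (step : ∀ i h, h₀ i ≤ h → ∀ n, (∀ j k, h₀ j ≤ k → TN n (Q j k)) →
      ∃ c : ℕ, 0 < c ∧ TN n (c • derivative ℝ (Q i h))) :
    ∀ i h, h₀ i ≤ h → ∀ n, 0 ≤ coeff n (Q i h) := by
  have key : ∀ n, ∀ i h, h₀ i ≤ h → TN n (Q i h) := by
    intro n
    induction n with
    | zero =>
      intro i h hi m hm
      obtain rfl : m = 0 := by omega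
      exact base i h hi
    | succ n ih =>
      intro i h hi m hm
      rcases Nat.lt_or_ge m (n + 1) with hlt | hge
      · exact ih i h hi m (by omega)
      · obtain rfl : m = n + 1 := by omega
        obtain ⟨c, hc, hT⟩ := step i h hi n (fun j k hj => ih j k hj)
        have h1 := hT n le_rfl
        rw [map_nsmul, coeff_derivative] at h1
        have hc' : (0 : ℝ) < c := by exact_mod_cast hc
        rw [nsmul_eq_mul] at h1
        have h2 : 0 ≤ coeff (n + 1) (Q i h) * ((n : ℝ) + 1) := nonneg_of_mul_nonneg_right h1 hc'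
        have hn : (0 : ℝ) < (n : ℝ) + 1 := by positivity
        exact nonneg_of_mul_nonneg_left h2 hn
  exact fun i h hi n => key n i h hi n le_rfl

variable {A : ℕ → PowerSeries ℝ}

/-- the derivative of a difference of consecutive levels -/
theorem Lev.der_sub (hA : Lev A) (k : ℕ) :
    derivative ℝ (A (k + 2) - A (k + 1)) =
      A (k + 1) * ((A (k + 2) - A (k + 1)) + (A (k + 1) - A k)) := by
  rw [map_sub, hA.der (k + 1), hA.der k]
  ring

theorem Lev.coeff_zero (hA : Lev A) (k : ℕ) : coeff 0 (A k) = if 4 ≤ k then 1 else 0 := by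
  split_ifs with h
  · exact hA.one k h
  · rw [hA.zero k (by omega)]
    simp

/-- the levels and their differences have nonnegative coefficients -/
theorem Lev.basic (hA : Lev A) : ∀ (i : Bool) (h : ℕ) (n : ℕ),
    0 ≤ coeff n (if i then A h else A (h + 1) - A h) := by
  intro i h n
  refine closure (fun (i : Bool) h => if i then A h else A (h + 1) - A h) (fun _ => 0)
    ?_ ?_ i h (Nat.zero_le _) n
  · intro i h _
    cases i
    · simp only [Bool.false_eq_true, if_false]
      rw [map_sub, hA.coeff_zero, hA.coeff_zero]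
      split_ifs <;> first | omega | norm_num
    · simp only [if_true]
      rw [hA.coeff_zero]
      split_ifs <;> norm_num
  · intro i h _ n ih
    refine ⟨1, one_pos, ?_⟩
    rw [one_nsmul]
    cases i
    · simp only [Bool.false_eq_true, if_false]
      rcases h with _ | h
      · rw [hA.zero 0 (by omega), hA.zero 1 (by omega)]
        simp only [sub_zero, map_zero]
        exact TN.zero
      · rw [hA.der_sub h]
        have h1 := ih true (h + 1) (Nat.zero_le _)
        have h2 := ih false (h + 1) (Nat.zero_le _)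
        have h3 := ih false h (Nat.zero_le _)
        simp only [if_true, Bool.false_eq_true, if_false] at h1 h2 h3
        exact h1.mul (h2.add h3)
    · simp only [if_true]
      rcases h with _ | h
      · rw [hA.zero 0 (by omega)]
        simp only [map_zero]
        exact TN.zero
      · rw [hA.der h]
        have h1 := ih true (h + 1) (Nat.zero_le _)
        have h2 := ih true h (Nat.zero_le _)
        simp only [if_true] at h1 h2
        exact h1.mul h2

/-- the levels have nonnegative coefficients -/
theorem Lev.nonneg (hA : Lev A) (h n : ℕ) : 0 ≤ coeff n (A h) := by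
  have := hA.basic true h n
  simpa using this

/-- the differences of consecutive levels have nonnegative coefficients -/
theorem Lev.diff_nonneg (hA : Lev A) (h n : ℕ) : 0 ≤ coeff n (A (h + 1) - A h) := by
  have := hA.basic false h n
  simpa using this

/-- the letters at level `h + 1` (that is: `A` index `h + 1`, ..., `h + 5`) and their
derivatives -/
structure Lts (f g l m k P : PowerSeries ℝ) : Prop where
  df : derivative ℝ f = (g + l + m + k + P) * (f + g)
  dg : derivative ℝ g = (l + m + k + P) * (g + l)
  dl : derivative ℝ l = (m + k + P) * (l + m)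
  dm : derivative ℝ m = (k + P) * (m + k)
  dB : derivative ℝ (k + P) = (k + P) * P
  nf : ∀ n, TN n f
  ng : ∀ n, TN n g
  nl : ∀ n, TN n l
  nm : ∀ n, TN n m
  nk : ∀ n, TN n k
  nP : ∀ n, TN n P

theorem Lev.lts (hA : Lev A) (h : ℕ) :
    Lts (A (h + 5) - A (h + 4)) (A (h + 4) - A (h + 3)) (A (h + 3) - A (h + 2))
      (A (h + 2) - A (h + 1)) (A (h + 1) - A h) (A h) where
  df := by rw [hA.der_sub (h + 3)]; ring
  dg := by rw [hA.der_sub (h + 2)]; ring
  dl := by rw [hA.der_sub (h + 1)]; ring
  dm := by rw [hA.der_sub h]; ring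
  dB := by
    have e : A (h + 1) - A h + A h = A (h + 1) := by ring
    rw [e, hA.der h]
  nf := fun _ m _ => hA.diff_nonneg (h + 4) m
  ng := fun _ m _ => hA.diff_nonneg (h + 3) m
  nl := fun _ m _ => hA.diff_nonneg (h + 2) m
  nm := fun _ m _ => hA.diff_nonneg (h + 1) m
  nk := fun _ m _ => hA.diff_nonneg h m
  nP := fun _ m _ => hA.nonneg h m

end Frz
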