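import Pool.Agent.Frz.Clo

set_option autoImplicit false

/-!
# MP_66bb51_pr: the quadratic forms of the closed family
-/

namespace Frz

open PowerSeries

/-- form `cR0` -/
noncomputable def cR0 (f g l m B : PowerSeries ℝ) : PowerSeries ℝ :=
  (85 • (f * g) + 85 • (f * l) + 85 • (f * m) + 85 • (f * B) + 63 • (g * l) + 9 • (g * m) + 9
  • (g * B) + 132 • (l * l) + 424 • (l * m) + 424 • (l * B) + 292 • (m * m) + 692 • (m * B) +
  400 • (B * B)) - (69 • (g * g))

/-- form `cR1` -/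
noncomputable def cR1 (f g l m B : PowerSeries ℝ) : PowerSeries ℝ :=
  (154 • (f * g) + 154 • (g * l) + 47 • (g * m) + 161 • (l * l) + 215 • (l * m) + 161 • (l *
  B) + 54 • (m * m) + 54 • (m * B)) - (107 • (f * m) + 161 • (f * B) + 7 • (g * g) + 7 • (g *
  B))

/-- form `cLam` -/
noncomputable def cLam (f g l m B : PowerSeries ℝ) : PowerSeries ℝ :=
  (111 • (f * g) + 29 • (f * l) + 111 • (g * g) + 203 • (g * l) + 15 • (g * m) + 92 • (l * l)
  + 200 • (l * m) + 92 • (l * B) + 108 • (m * m) + 108 • (m * B)) - (70 • (f * m) + 178 • (f *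
  B) + 93 • (g * B))

/-- form `cq3` -/
noncomputable def cq3 (f g l m B : PowerSeries ℝ) : PowerSeries ℝ :=
  (2 • (f * g) + 2 • (f * l) + 3 • (f * m) + 1 • (g * g) + 246 • (g * l) + 268 • (g * m) + 789
  • (l * l) + 1992 • (l * m) + 1758 • (m * m) + 879 • (m * B)) - (1 • (f * B) + 261 • (g * B)
  + 1200 • (l * B))

/-- form `cq4` -/
noncomputable def cq4 (f g l m B : PowerSeries ℝ) : PowerSeries ℝ :=
  (139 • (f * g) + 218 • (f * l) + 275 • (g * g) + 382 • (g * l) + 429 • (l * l) + 751 • (l *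
  m) + 239 • (l * B) + 439 • (m * m) + 342 • (m * B)) - (143 • (f * m) + 197 • (f * B) + 146 •
  (g * m) + 634 • (g * B))

/-- form `cq5` -/
noncomputable def cq5 (f g l m B : PowerSeries ℝ) : PowerSeries ℝ :=
  (216 • (f * g) + 164 • (f * l) + 215 • (g * g) + 454 • (g * l) + 40 • (g * m) + 9 • (l * l)
  + 334 • (l * m) + 240 • (l * B) + 59 • (m * m) + 8 • (m * B)) - (36 • (f * m) + 218 • (f *
  B) + 245 • (g * B))

/-- form `cq6` -/
noncomputable def cq6 (f g l m B : PowerSeries ℝ) : PowerSeries ℝ :=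
  (82 • (f * g) + 209 • (f * l) + 36 • (f * m) + 74 • (g * g) + 739 • (g * l) + 81 • (g * m) +
  1000 • (l * l) + 1312 • (l * m) + 521 • (l * B) + 566 • (m * m) + 315 • (m * B)) - (513 • (f
  * B) + 1026 • (g * B))

/-- form `cq7` -/
noncomputable def cq7 (f g l m B : PowerSeries ℝ) : PowerSeries ℝ :=
  (37 • (f * g) + 65 • (f * l) + 89 • (f * m) + 43 • (g * g) + 206 • (g * l) + 697 • (g * m) +
  210 • (l * l) + 1550 • (l * m) + 1455 • (m * m) + 1098 • (m * B)) - (159 • (f * B) + 873 •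
  (g * B) + 646 • (l * B))

/-- form `cq8` -/
noncomputable def cq8 (f g l m B : PowerSeries ℝ) : PowerSeries ℝ :=
  (291 • (f * g) + 257 • (g * g) + 303 • (g * l) + 169 • (g * m) + 117 • (g * B) + 142 • (l *
  l) + 88 • (l * m) + 62 • (l * B)) - (131 • (f * l) + 307 • (f * m) + 329 • (f * B))

/-- form `cq9` -/
noncomputable def cq9 (f g l m B : PowerSeries ℝ) : PowerSeries ℝ :=
  (80 • (f * g) + 182 • (f * l) + 44 • (g * g) + 875 • (g * l) + 1495 • (l * l) + 1313 • (l *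
  m) + 965 • (l * B)) - (18 • (f * m) + 287 • (f * B) + 302 • (g * m) + 1312 • (g * B))

/-- form `cR2` -/
noncomputable def cR2 (f g l m B : PowerSeries ℝ) : PowerSeries ℝ :=
  (107 • (f * g) + 53 • (g * g) + 53 • (g * l) + 53 • (g * m) + 53 • (g * B)) - (54 • (f * l)
  + 54 • (f * m) + 54 • (f * B))

/-- form `cT` -/
noncomputable def cT (f g l m B : PowerSeries ℝ) : PowerSeries ℝ :=
  (6 • (f * g) + 8 • (g * g) + 4 • (g * l) + 4 • (g * m) + 4 • (g * B)) - (5 • (f * l) + 5 •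
  (f * m) + 5 • (f * B))

end Frz
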