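import Pool.Agent.Frz.Y3

/-!
# MP_66bb51_pr: the quadratic lower bound `2 J ≥ Gam`
-/

namespace Frz

open PowerSeries Finset

/-- `Gam = al f_a f_b + be (f_a g_b + g_a f_b) + ga (f_a l_b + l_a f_b)` -/
def Gam (al be ga : ℝ) (F G L M : ℕ → ℝ) (a b : ℕ) : ℝ :=
  al * ((F a - G a) * (F b - G b))
    + be * ((F a - G a) * (G b - L b) + (G a - L a) * (F b - G b))
    + ga * ((F a - G a) * (L b - M b) + (L a - M a) * (F b - G b))

theorem Gam_comm (al be ga : ℝ) (F G L M : ℕ → ℝ) (a b : ℕ) :
    Gam al be ga F G L M a b = Gam al be ga F G L M b a := by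
  unfold Gam
  ring

theorem sum_Gam_right (al be ga : ℝ) (F G L M V : ℕ → ℝ) (a b : ℕ) :
    ∑ y ∈ range b, Gam al be ga F G L M a y * V (b - 1 - y)
      = al * (F a - G a) * cv F V b - al * (F a - G a) * cv G V b
        + be * (F a - G a) * cv G V b - be * (F a - G a) * cv L V b
        + be * (G a - L a) * cv F V b - be * (G a - L a) * cv G V b
        + ga * (F a - G a) * cv L V b - ga * (F a - G a) * cv M V b
        + ga * (L a - M a) * cv F V b - ga * (L a - M a) * cv G V b := by
  simp only [cv, Finset.mul_sum, ← Finset.sum_add_distrib, ← Finset.sum_sub_distrib]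
  apply Finset.sum_congr rfl
  intro y _
  unfold Gam
  ring

theorem sum_Gam_low (al be ga : ℝ) (F G L M U : ℕ → ℝ) (a b : ℕ) :
    ∑ x ∈ range b, U x * Gam al be ga F G L M a (b - 1 - x)
      = al * (F a - G a) * cv U F b - al * (F a - G a) * cv U G b
        + be * (F a - G a) * cv U G b - be * (F a - G a) * cv U L b
        + be * (G a - L a) * cv U F b - be * (G a - L a) * cv U G b
        + ga * (F a - G a) * cv U L b - ga * (F a - G a) * cv U M b
        + ga * (L a - M a) * cv U F b - ga * (L a - M a) * cv U G b := by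
  simp only [cv, Finset.mul_sum, ← Finset.sum_add_distrib, ← Finset.sum_sub_distrib]
  apply Finset.sum_congr rfl
  intro y _
  unfold Gam
  ring

set_option maxHeartbeats 4000000 in
/-- the averaged recursion step -/
theorem Gam_step {al be ga : ℝ} (hal : al ≤ 2) (hbe : be ≤ 1) (hga : ga ≤ 1) (hga0 : 0 ≤ ga)
    {F G L M K : ℕ → ℝ}
    (hF : ∀ n : ℕ, (n : ℝ) * F n = cv F G n) (hG : ∀ n : ℕ, (n : ℝ) * G n = cv G L n)
    (hL : ∀ n : ℕ, (n : ℝ) * L n = cv L M n) (hM : ∀ n : ℕ, (n : ℝ) * M n = cv M K n)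
    (hM0 : ∀ n, 0 ≤ M n) (hKM : ∀ n, K n ≤ M n) (hML : ∀ n, M n ≤ L n) (hLG : ∀ n, L n ≤ G n)
    (hGF : ∀ n, G n ≤ F n)
    (hR0 : ∀ n, 0 ≤ 2 * cv F G n
      - al * (cv F G n - cv G G n + 2 * (cv G G n - cv G L n))
      + be * (cv G G n - cv G L n - 2 * (cv G L n - cv L M n))
      + ga * (cv G L n - cv G M n - 2 * (cv L M n - cv M K n)))
    (hR1 : ∀ n, 0 ≤ al * (cv F G n - cv F L n) + be * (cv F L n - cv F M n)
      + ga * (cv F M n - cv F K n)
      - be * (cv F G n - cv G G n + 2 * (cv G G n - cv G L n)))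
    (hR2 : ∀ n, 0 ≤ be * (cv F G n - cv F L n)
      - ga * (cv F G n - cv G G n + 2 * (cv G G n - cv G L n)))
    (ihG : ∀ a b, Gam al be ga G L M K a b ≤ 2 * J G a b) (a b : ℕ) :
    Gam al be ga F G L M a b ≤ 2 * J F a b := by
  have hG0 : ∀ n, 0 ≤ G n := fun n => ((hM0 n).trans (hML n)).trans (hLG n)
  have hF0 : ∀ n, 0 ≤ F n := fun n => (hG0 n).trans (hGF n)
  induction hs : a + b using Nat.strong_induction_on generalizing a b with
  | _ s ih =>
    have y1 := Y3 hF a b
    have y2 := Y3' hF a b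
    -- the four sums
    have s1 : ∑ y ∈ range b, Gam al be ga F G L M a y * G (b - 1 - y)
        ≤ 2 * ∑ y ∈ range b, J F a y * G (b - 1 - y) := by
      rw [Finset.mul_sum]
      apply Finset.sum_le_sum
      intro y hy
      rw [Finset.mem_range] at hy
      have := ih (a + y) (by omega) a y rfl
      nlinarith [hG0 (b - 1 - y)]
    have s2 : ∑ x ∈ range a, Gam al be ga F G L M b x * G (a - 1 - x)
        ≤ 2 * ∑ x ∈ range a, J F x b * G (a - 1 - x) := by
      rw [Finset.mul_sum]
      apply Finset.sum_le_sum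
      intro x hx
      rw [Finset.mem_range] at hx
      have := ih (x + b) (by omega) x b rfl
      rw [Gam_comm]
      nlinarith [hG0 (a - 1 - x)]
    have s3 : ∑ y ∈ range a, F y * Gam al be ga G L M K b (a - 1 - y)
        ≤ 2 * ∑ y ∈ range a, F y * J G (a - 1 - y) b := by
      rw [Finset.mul_sum]
      apply Finset.sum_le_sum
      intro y _
      have := ihG b (a - 1 - y)
      rw [J_comm G] at this
      nlinarith [hF0 y]
    have s4 : ∑ x ∈ range b, F x * Gam al be ga G L M K a (b - 1 - x)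
        ≤ 2 * ∑ x ∈ range b, F x * J G a (b - 1 - x) := by
      rw [Finset.mul_sum]
      apply Finset.sum_le_sum
      intro x _
      have := ihG a (b - 1 - x)
      nlinarith [hF0 x]
    rw [sum_Gam_right] at s1 s2
    rw [sum_Gam_low] at s3 s4
    rw [cv_comm L G, cv_comm M G] at s1 s2
    -- nonnegativity of the differences
    have f0 : ∀ n, 0 ≤ F n - G n := fun n => sub_nonneg.mpr (hGF n)
    have g0 : ∀ n, 0 ≤ G n - L n := fun n => sub_nonneg.mpr (hLG n)
    have l0 : ∀ n, 0 ≤ L n - M n := fun n => sub_nonneg.mpr (hML n)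
    have m0 : ∀ n, 0 ≤ M n - K n := fun n => sub_nonneg.mpr (hKM n)
    have R3 : ∀ n, 0 ≤ ga * (cv F G n - cv F L n) := by
      intro n
      apply mul_nonneg hga0
      rw [← cv_sub_right]
      exact cv_nonneg hF0 g0 n
    -- products
    have p0a := mul_nonneg (f0 a) (hR0 b)
    have p0b := mul_nonneg (f0 b) (hR0 a)
    have p1a := mul_nonneg (g0 a) (hR1 b)
    have p1b := mul_nonneg (g0 b) (hR1 a)
    have p2a := mul_nonneg (l0 a) (hR2 b)
    have p2b := mul_nonneg (l0 b) (hR2 a)
    have p3a := mul_nonneg (m0 a) (R3 b)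
    have p3b := mul_nonneg (m0 b) (R3 a)
    -- the zero order term
    have z : Gam al be ga F G L M a b ≤ F a * (F b - G b) + F b * (F a - G a) := by
      unfold Gam
      have z1 : al * ((F a - G a) * (F b - G b)) ≤ 2 * ((F a - G a) * (F b - G b)) :=
        mul_le_mul_of_nonneg_right hal (mul_nonneg (f0 a) (f0 b))
      have z2 : be * ((F a - G a) * (G b - L b) + (G a - L a) * (F b - G b))
          ≤ 1 * ((F a - G a) * (G b - L b) + (G a - L a) * (F b - G b)) :=
        mul_le_mul_of_nonneg_right hbe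
          (add_nonneg (mul_nonneg (f0 a) (g0 b)) (mul_nonneg (g0 a) (f0 b)))
      have z3 : ga * ((F a - G a) * (L b - M b) + (L a - M a) * (F b - G b))
          ≤ 1 * ((F a - G a) * (L b - M b) + (L a - M a) * (F b - G b)) :=
        mul_le_mul_of_nonneg_right hga
          (add_nonneg (mul_nonneg (f0 a) (l0 b)) (mul_nonneg (l0 a) (f0 b)))
      have z4 := mul_nonneg (f0 a) (hM0 b)
      have z5 := mul_nonneg (f0 b) (hM0 a)
      linarith [z1, z2, z3, z4, z5]
    have hFa := hF a
    have hFb := hF b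
    have hGa := hG a
    have hGb := hG b
    have hLa := hL a
    have hLb := hL b
    have hMa := hM a
    have hMb := hM b
    have hpos : (0 : ℝ) < (a : ℝ) + b + 1 := by positivity
    have key : ((a : ℝ) + b + 1) * (2 * Gam al be ga F G L M a b)
        ≤ ((a : ℝ) + b + 1) * (2 * (2 * J F a b)) := by
      have y : ((a : ℝ) + b + 1) * (2 * (2 * J F a b))
          = 2 * (∑ y ∈ range b, J F a y * G (b - 1 - y))
            + 2 * (∑ y ∈ range a, F y * J G (a - 1 - y) b)
            + 2 * (∑ x ∈ range a, J F x b * G (a - 1 - x))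
            + 2 * (∑ x ∈ range b, F x * J G a (b - 1 - x))
            + (2 * (((a : ℝ) + 1) * F a * (F b - G b))
              + 2 * (((b : ℝ) + 1) * F b * (F a - G a))) := by
        linear_combination 2 * y1 + 2 * y2
      rw [y]
      refine le_trans ?_ (add_le_add (add_le_add (add_le_add (add_le_add s1 s3) s2) s4) le_rfl)
      have z' := z
      unfold Gam at z' ⊢
      linear_combination p0a + p0b + p1a + p1b + p2a + p2b + p3a + p3b + 2 * z'
        + (-(2 * (F b - G b) - 2 * al * (F b - G b) - 2 * be * (G b - L b) - 2 * ga * (L b - M b))) * hFa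
        + (-(2 * al * (F b - G b) + 2 * be * (G b - L b) + 2 * ga * (L b - M b) - 2 * be * (F b - G b))) * hGa
        + (-(2 * be * (F b - G b) - 2 * ga * (F b - G b))) * hLa
        + (-(2 * ga * (F b - G b))) * hMa
        + (-(2 * (F a - G a) - 2 * al * (F a - G a) - 2 * be * (G a - L a) - 2 * ga * (L a - M a))) * hFb
        + (-(2 * al * (F a - G a) + 2 * be * (G a - L a) + 2 * ga * (L a - M a) - 2 * be * (F a - G a))) * hGb
        + (-(2 * be * (F a - G a) - 2 * ga * (F a - G a))) * hLb
        + (-(2 * ga * (F a - G a))) * hMb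
    have := le_of_mul_le_mul_left key hpos
    linarith

end Frz
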