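import Pool.Agent.Frz.Gam

/-!
# MP_66bb51_pr: from the one-dimensional inequalities to `2 J ≥ Gam` for all levels
-/

namespace Frz

open PowerSeries Finset

theorem coeff_R0 (al be ga : ℝ) (F G L M K : PowerSeries ℝ) (n : ℕ) :
    PowerSeries.coeff n (R0 al be ga F G L M K)
      = 2 * cv (sq F) (sq G) (n + 1)
        - al * (cv (sq F) (sq G) (n + 1) - cv (sq G) (sq G) (n + 1)
            + 2 * (cv (sq G) (sq G) (n + 1) - cv (sq G) (sq L) (n + 1)))
        + be * (cv (sq G) (sq G) (n + 1) - cv (sq G) (sq L) (n + 1)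
            - 2 * (cv (sq G) (sq L) (n + 1) - cv (sq L) (sq M) (n + 1)))
        + ga * (cv (sq G) (sq L) (n + 1) - cv (sq G) (sq M) (n + 1)
            - 2 * (cv (sq L) (sq M) (n + 1) - cv (sq M) (sq K) (n + 1))) := by
  have h : R0 al be ga F G L M K
      = C 2 * (F * G) - C al * (F * G - G * G + C 2 * (G * G - G * L))
        + C be * (G * G - G * L - C 2 * (G * L - L * M))
        + C ga * (G * L - G * M - C 2 * (L * M - M * K)) := by
    unfold R0
    ring
  rw [h]
  simp only [map_sub, map_add, PowerSeries.coeff_C_mul, cv_sq]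

theorem coeff_R1 (al be ga : ℝ) (F G L M K : PowerSeries ℝ) (n : ℕ) :
    PowerSeries.coeff n (R1 al be ga F G L M K)
      = al * (cv (sq F) (sq G) (n + 1) - cv (sq F) (sq L) (n + 1))
        + be * (cv (sq F) (sq L) (n + 1) - cv (sq F) (sq M) (n + 1))
        + ga * (cv (sq F) (sq M) (n + 1) - cv (sq F) (sq K) (n + 1))
        - be * (cv (sq F) (sq G) (n + 1) - cv (sq G) (sq G) (n + 1)
            + 2 * (cv (sq G) (sq G) (n + 1) - cv (sq G) (sq L) (n + 1))) := by
  have h : R1 al be ga F G L M K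
      = C al * (F * G - F * L) + C be * (F * L - F * M) + C ga * (F * M - F * K)
        - C be * (F * G - G * G + C 2 * (G * G - G * L)) := by
    unfold R1
    ring
  rw [h]
  simp only [map_sub, map_add, PowerSeries.coeff_C_mul, cv_sq]

theorem coeff_R2 (be ga : ℝ) (F G L : PowerSeries ℝ) (n : ℕ) :
    PowerSeries.coeff n (R2 be ga F G L)
      = be * (cv (sq F) (sq G) (n + 1) - cv (sq F) (sq L) (n + 1))
        - ga * (cv (sq F) (sq G) (n + 1) - cv (sq G) (sq G) (n + 1)
            + 2 * (cv (sq G) (sq G) (n + 1) - cv (sq G) (sq L) (n + 1))) := by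
  have h : R2 be ga F G L
      = C be * (F * G - F * L) - C ga * (F * G - G * G + C 2 * (G * G - G * L)) := by
    unfold R2
    ring
  rw [h]
  simp only [map_sub, map_add, PowerSeries.coeff_C_mul, cv_sq]

theorem coeff_Lam (al be ga q qw : ℝ) (F G L M K : PowerSeries ℝ) (n : ℕ) :
    PowerSeries.coeff n (Lam al be ga q qw F G L M K)
      = (al - 2 * q) * (cv (sq F) (sq G) (n + 1) - cv (sq F) (sq L) (n + 1))
        + 2 * (be - qw) * (cv (sq F) (sq L) (n + 1) - cv (sq F) (sq M) (n + 1))
        + q * ((cv (sq F) (sq G) (n + 1) - cv (sq F) (sq L) (n + 1))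
            - (cv (sq M) (sq G) (n + 1) - cv (sq M) (sq L) (n + 1)))
        + 2 * qw * ((cv (sq F) (sq L) (n + 1) - cv (sq F) (sq M) (n + 1))
            - (cv (sq G) (sq L) (n + 1) - cv (sq G) (sq M) (n + 1)))
        + 2 * ga * (cv (sq F) (sq M) (n + 1) - cv (sq F) (sq K) (n + 1))
        - 2 * (q - qw) * (cv (sq L) (sq F) (n + 1) - cv (sq L) (sq G) (n + 1)) := by
  have h : Lam al be ga q qw F G L M K
      = C (al - 2 * q) * (F * G - F * L) + C (2 * (be - qw)) * (F * L - F * M)
        + C q * ((F * G - F * L) - (M * G - M * L))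
        + C (2 * qw) * ((F * L - F * M) - (G * L - G * M))
        + C (2 * ga) * (F * M - F * K) - C (2 * (q - qw)) * (L * F - L * G) := by
    unfold Lam
    ring
  have e1 : ∀ X Y : PowerSeries ℝ, PowerSeries.coeff n (X - Y)
      = PowerSeries.coeff n X - PowerSeries.coeff n Y := fun X Y => map_sub _ _ _
  have e2 : ∀ X Y : PowerSeries ℝ, PowerSeries.coeff n (X + Y)
      = PowerSeries.coeff n X + PowerSeries.coeff n Y := fun X Y => map_add _ _ _
  rw [h]
  simp only [e1, e2, PowerSeries.coeff_C_mul, cv_sq]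

theorem fact_bound (a b : ℕ) (ha : 1 ≤ a) (hb : 1 ≤ b) :
    6 * (a.factorial * b.factorial) ≤ (a + b + 1).factorial := by
  have h1 : (a + b).choose a * a.factorial * b.factorial = (a + b).factorial := by
    rw [Nat.choose_symm_add]
    exact Nat.add_choose_mul_factorial_mul_factorial a b
  have h2 : 2 ≤ (a + b).choose a := by
    obtain ⟨a', rfl⟩ : ∃ a', a = a' + 1 := ⟨a - 1, by omega⟩
    have e : a' + 1 + b = (a' + b) + 1 := by ring
    rw [e, Nat.choose_succ_succ]
    have h3 : 0 < (a' + b).choose a' := Nat.choose_pos (by omega)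
    have h4 : 0 < (a' + b).choose (a' + 1) := Nat.choose_pos (by omega)
    simp only [Nat.succ_eq_add_one]
    omega
  rw [Nat.factorial_succ, ← h1]
  have h5 : 3 ≤ a + b + 1 := by omega
  have h6 : 0 < a.factorial * b.factorial := Nat.mul_pos (Nat.factorial_pos _) (Nat.factorial_pos _)
  calc 6 * (a.factorial * b.factorial) = 3 * (2 * (a.factorial * b.factorial)) := by ring
    _ ≤ (a + b + 1) * ((a + b).choose a * (a.factorial * b.factorial)) :=
        Nat.mul_le_mul h5 (Nat.mul_le_mul h2 le_rfl)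
    _ = (a + b + 1) * ((a + b).choose a * a.factorial * b.factorial) := by ring

variable {A : ℕ → PowerSeries ℝ}

theorem J_low (hA : Lev A) (k : ℕ) (hk : k < 4) (a b : ℕ) : J (sq (A k)) a b = 0 := by
  unfold J
  simp only [hA.sq_zero hk]
  norm_num

/-- level `0` -/
theorem Gam_base0 (hA : Lev A) {al be ga : ℝ} (hal : al ≤ 2) (a b : ℕ) :
    Gam al be ga (sq (A 4)) (sq (A 3)) (sq (A 2)) (sq (A 1)) a b ≤ 2 * J (sq (A 4)) a b := by
  unfold Gam J
  have z3 : ∀ n, sq (A 3) n = 0 := fun n => hA.sq_zero (by norm_num) n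
  have z2 : ∀ n, sq (A 2) n = 0 := fun n => hA.sq_zero (by norm_num) n
  have z1 : ∀ n, sq (A 1) n = 0 := fun n => hA.sq_zero (by norm_num) n
  rw [hA.lev4 (a + b + 1) (by omega)]
  simp only [z3, z2, z1]
  rcases Nat.eq_zero_or_pos a with ha | ha
  · rcases Nat.eq_zero_or_pos b with hb | hb
    · subst ha; subst hb
      rw [hA.sq_one (by norm_num)]
      linarith
    · rw [hA.lev4 b (by omega)]
      linarith
  · rw [hA.lev4 a (by omega)]
    linarith

/-- level `1` -/
theorem Gam_base1 (hA : Lev A) {al be ga : ℝ} (hal : al ≤ 5 / 3) (hbe : be ≤ 1) (a b : ℕ) :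
    Gam al be ga (sq (A 5)) (sq (A 4)) (sq (A 3)) (sq (A 2)) a b ≤ 2 * J (sq (A 5)) a b := by
  have z3 : ∀ n, sq (A 3) n = 0 := fun n => hA.sq_zero (by norm_num) n
  have z2 : ∀ n, sq (A 2) n = 0 := fun n => hA.sq_zero (by norm_num) n
  have edge : ∀ b : ℕ, 1 ≤ b → Gam al be ga (sq (A 5)) (sq (A 4)) (sq (A 3)) (sq (A 2)) 0 b
      ≤ 2 * J (sq (A 5)) 0 b := by
    intro b hb
    unfold Gam J
    simp only [z3, z2]
    rw [hA.lev4 b (by omega), hA.sq_one (by norm_num), hA.sq_one (by norm_num), hA.lev5 b,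
      hA.lev5 (0 + b + 1)]
    have e : (0 + b + 1).factorial = (b + 1) * b.factorial := by
      rw [Nat.zero_add, Nat.factorial_succ]
    rw [e]
    have hb' : (1 : ℝ) ≤ (b : ℝ) := by exact_mod_cast hb
    have hfp : (0 : ℝ) < (b.factorial : ℝ) := by positivity
    have h1 : 1 / (((b + 1) * b.factorial : ℕ) : ℝ) = (1 / ((b : ℝ) + 1)) * (1 / (b.factorial : ℝ)) := by
      push_cast
      field_simp
    rw [h1]
    have h2 : 1 / ((b : ℝ) + 1) ≤ 1 / 2 := by
      apply one_div_le_one_div_of_le <;> linarith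
    have h3 : 0 < 1 / (b.factorial : ℝ) := by positivity
    have h4 : be * (1 / (b.factorial : ℝ)) ≤ 1 * (1 / (b.factorial : ℝ)) :=
      mul_le_mul_of_nonneg_right hbe h3.le
    have h5 : (1 / ((b : ℝ) + 1)) * (1 / (b.factorial : ℝ)) ≤ (1 / 2) * (1 / (b.factorial : ℝ)) :=
      mul_le_mul_of_nonneg_right h2 h3.le
    linarith
  rcases Nat.eq_zero_or_pos a with ha | ha
  · subst ha
    rcases Nat.eq_zero_or_pos b with hb | hb
    · subst hb
      unfold Gam J
      simp only [z3, z2]
      rw [hA.sq_one (by norm_num), hA.sq_one (by norm_num), hA.lev5 (0 + 0 + 1)]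
      norm_num
    · exact edge b hb
  · rcases Nat.eq_zero_or_pos b with hb | hb
    · subst hb
      rw [Gam_comm, J_comm]
      exact edge a ha
    · unfold Gam J
      simp only [z3, z2]
      rw [hA.lev4 a (by omega), hA.lev4 b (by omega), hA.lev5, hA.lev5, hA.lev5]
      have h1 := fact_bound a b ha hb
      have h2 : (6 : ℝ) * ((a.factorial : ℝ) * (b.factorial : ℝ)) ≤ ((a + b + 1).factorial : ℝ) := by
        exact_mod_cast h1
      have hp : (0 : ℝ) < (a.factorial : ℝ) * (b.factorial : ℝ) := by positivity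
      have h3 : 1 / ((a + b + 1).factorial : ℝ) ≤ 1 / (6 * ((a.factorial : ℝ) * (b.factorial : ℝ))) :=
        one_div_le_one_div_of_le (by positivity) h2
      have h4 : 1 / (6 * ((a.factorial : ℝ) * (b.factorial : ℝ)))
          = (1 / 6) * (1 / (a.factorial : ℝ) * (1 / (b.factorial : ℝ))) := by
        field_simp
      rw [h4] at h3
      have h5 : 0 < 1 / (a.factorial : ℝ) * (1 / (b.factorial : ℝ)) := by positivity
      have h6 : al * (1 / (a.factorial : ℝ) * (1 / (b.factorial : ℝ)))
          ≤ 5 / 3 * (1 / (a.factorial : ℝ) * (1 / (b.factorial : ℝ))) :=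
        mul_le_mul_of_nonneg_right hal h5.le
      linarith

/-- the two-index inequality `2 J ≥ Gam` at all levels, from the one-dimensional inequalities -/
theorem Gam_le_J (hA : Lev A) {al be ga : ℝ} (hal : al ≤ 5 / 3) (hbe : be ≤ 1) (hga : ga ≤ 1)
    (hga0 : 0 ≤ ga)
    (hR0 : ∀ h, 2 ≤ h → ∀ n, 0 ≤ PowerSeries.coeff n
      (R0 al be ga (A (h + 4)) (A (h + 3)) (A (h + 2)) (A (h + 1)) (A h)))
    (hR1 : ∀ h, 2 ≤ h → ∀ n, 0 ≤ PowerSeries.coeff n
      (R1 al be ga (A (h + 4)) (A (h + 3)) (A (h + 2)) (A (h + 1)) (A h)))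
    (hR2 : ∀ h, 2 ≤ h → ∀ n, 0 ≤ PowerSeries.coeff n
      (R2 be ga (A (h + 4)) (A (h + 3)) (A (h + 2))))
    (h a b : ℕ) :
    Gam al be ga (sq (A (h + 4))) (sq (A (h + 3))) (sq (A (h + 2))) (sq (A (h + 1))) a b
      ≤ 2 * J (sq (A (h + 4))) a b := by
  induction h generalizing a b with
  | zero => exact Gam_base0 hA (by linarith) a b
  | succ h ih =>
    rcases h with _ | h
    · exact Gam_base1 hA hal hbe a b
    · refine Gam_step (K := sq (A (h + 2))) (by linarith) hbe hga hga0
        (fun n => hA.rec_cv (h + 5) n) (fun n => hA.rec_cv (h + 4) n)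
        (fun n => hA.rec_cv (h + 3) n) (fun n => hA.rec_cv (h + 2) n)
        (fun n => hA.sqnn _ n) (fun n => hA.mono _ n) (fun n => hA.mono _ n)
        (fun n => hA.mono _ n) (fun n => hA.mono _ n) ?_ ?_ ?_ ih a b
      · intro n
        rcases n with _ | n
        · simp [cv_zero]
        · have := hR0 (h + 2) (by omega) n
          rw [coeff_R0] at this
          exact this
      · intro n
        rcases n with _ | n
        · simp [cv_zero]
        · have := hR1 (h + 2) (by omega) n
          rw [coeff_R1] at this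
          exact this
      · intro n
        rcases n with _ | n
        · simp [cv_zero]
        · have := hR2 (h + 2) (by omega) n
          rw [coeff_R2] at this
          exact this

end Frz
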