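import Mathlib

/-!
# MP_66bb51_pr: interface between the closure theorem and the analytic chain

`A (h + 4)` is the generating series of `F_n(h) = P(H(R_n) ≤ h)` for `h ≥ 0`; the levels `A 0, …, A 3`
(that is `h = -4, …, -1`) vanish, `A 4 = 1`, `A 5 = exp`.
At level `h` we write `F = A (h + 4)`, `G = A (h + 3)`, `L = A (h + 2)`, `M = A (h + 1)`, `K = A h`.
-/

namespace Frz

open PowerSeries

/-- A family of level series: `A' (k + 1) = A (k + 1) * A k`. -/
structure Lev (A : ℕ → PowerSeries ℝ) : Prop where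
  zero : ∀ k, k < 4 → A k = 0
  one : ∀ k, 4 ≤ k → PowerSeries.coeff 0 (A k) = 1
  der : ∀ k, PowerSeries.derivative ℝ (A (k + 1)) = A (k + 1) * A k

/-- `R0 = 2 F G - al G (f + 2 g) + be (G g - 2 L (g + l)) + ga (G l - 2 M (l + m))`. -/
noncomputable def R0 (al be ga : ℝ) (F G L M K : PowerSeries ℝ) : PowerSeries ℝ :=
  C 2 * (F * G) - C al * (G * ((F - G) + C 2 * (G - L)))
    + C be * (G * (G - L) - C 2 * (L * ((G - L) + (L - M))))
    + C ga * (G * (L - M) - C 2 * (M * ((L - M) + (M - K))))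

/-- `R1 = al F g + be F l + ga F m - be G (f + 2 g)`. -/
noncomputable def R1 (al be ga : ℝ) (F G L M K : PowerSeries ℝ) : PowerSeries ℝ :=
  C al * (F * (G - L)) + C be * (F * (L - M)) + C ga * (F * (M - K))
    - C be * (G * ((F - G) + C 2 * (G - L)))

/-- `R2 = be F g - ga G (f + 2 g)`. -/
noncomputable def R2 (be ga : ℝ) (F G L : PowerSeries ℝ) : PowerSeries ℝ :=
  C be * (F * (G - L)) - C ga * (G * ((F - G) + C 2 * (G - L)))

/-- `Lam = (al - 2 q) F g + 2 (be - q w) F l + q (F - M) g + 2 q w f l + 2 ga F m - 2 q (1 - w) L f`;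
the parameter `qw` stands for `q w`. -/
noncomputable def Lam (al be ga q qw : ℝ) (F G L M K : PowerSeries ℝ) : PowerSeries ℝ :=
  C (al - 2 * q) * (F * (G - L)) + C (2 * (be - qw)) * (F * (L - M))
    + C q * ((F - M) * (G - L)) + C (2 * qw) * ((F - G) * (L - M))
    + C (2 * ga) * (F * (M - K)) - C (2 * (q - qw)) * (L * (F - G))

end Frz
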