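import Pool.Agent.Frz.Forms

set_option autoImplicit false

namespace Frz

open PowerSeries

set_option maxRecDepth 100000 in
theorem step_cLam {f g l m k P B : PowerSeries ℝ} (H : Lts f g l m k P) (hB : B = k + P)
    (n : ℕ)
    (u2 : TN n (cLam f g l m B)) (u3 : TN n (cq3 f g l m B)) (u4 : TN n (cq4 f g l m B)) (u5 :
    TN n (cq5 f g l m B)) (u6 : TN n (cq6 f g l m B)) (u7 : TN n (cq7 f g l m B)) (u8 : TN n
    (cq8 f g l m B)) (u9 : TN n (cq9 f g l m B)) (s3 : TN n (cq3 g l m k P)) (s4 : TN n (cq4 g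
    l m k P)) (s5 : TN n (cq5 g l m k P)) (s7 : TN n (cq7 g l m k P)) (s8 : TN n (cq8 g l m k
    P)) :
    TN n (5000 • derivative ℝ (cLam f g l m B)) := by
  have dB : derivative ℝ B = B * P := by
    rw [hB]
    exact H.dB
  have e : 5000 • derivative ℝ (cLam f g l m B) =
      f * (230 • cq5 g l m k P + 409 • cq8 g l m k P) + g * (62 • cq3 f g l m B + 1769 • cq8 f
      g l m B + 473 • cq9 f g l m B + 242 • cq5 g l m k P) + l * (134 • cq3 f g l m B + 335 •
      cq5 f g l m B + 948 • cq8 f g l m B + 389 • cq9 f g l m B + 870 • cq5 g l m k P) + m *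
      (7 • cq4 f g l m B + 2802 • cq5 f g l m B + 539 • cq8 f g l m B + 1934 • cq4 g l m k P)
      + k * (131 • cLam f g l m B + 1613 • cq4 f g l m B + 1375 • cq5 f g l m B + 53 • cq6 f g
      l m B + 89 • cq7 f g l m B + 1744 • cq8 f g l m B + 118 • cq4 g l m k P + 219 • cq7 g l
      m k P) + P * (7992 • cLam f g l m B + 1034 • cq4 f g l m B + 3 • cq6 f g l m B + 460 •
      cq7 f g l m B + 242 • cq8 f g l m B + 1 • cq3 g l m k P + 283 • cq7 g l m k P) + 2257 •
      (f * g * g) + 852214 • (f * g * l) + 564216 • (f * g * m) + 20766 • (f * g * k) + 3989 •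
      (f * g * P) + 543619 • (f * l * l) + 185904 • (f * l * m) + 4047 • (f * l * k) + 4191 •
      (f * l * P) + 2198 • (f * m * m) + 46642 • (f * m * k) + 4536 • (f * m * P) + 2375 • (f
      * k * k) + 14676 • (f * k * P) + 571 • (f * P * P) + 79493 • (g * g * g) + 459683 • (g *
      g * l) + 359703 • (g * g * m) + 3799 • (g * g * k) + 3883 • (g * g * P) + 210126 • (g *
      l * l) + 58256 • (g * l * m) + 98971 • (g * l * k) + 5588 • (g * l * P) + 5065 • (g * m
      * m) + 6613 • (g * m * k) + 7211 • (g * m * P) + 2832 • (g * k * k) + 5824 • (g * k * P)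
      + 154 • (g * P * P) + 3038 • (l * l * l) + 5412 • (l * l * m) + 3830 • (l * l * k) +
      4405 • (l * l * P) + 4488 • (l * m * m) + 5786 • (l * m * k) + 7609 • (l * m * P) + 2449
      • (l * k * k) + 3917 • (l * k * P) + 523 • (l * P * P) + 1923 • (m * m * m) + 3271 • (m
      * m * k) + 4685 • (m * m * P) + 111695 • (m * k * k) + 217202 • (m * k * P) + 1229 • (m
      * P * P) + 169553 • (k * k * k) + 385659 • (k * k * P) + 228387 • (k * P * P) := by
    simp only [cLam, cq3, cq4, cq5, cq6, cq7, cq8, cq9, map_add, map_sub, map_nsmul, Derivation.leibniz, smul_eq_mul, H.df, H.dg,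
      H.dl, H.dm, dB]
    subst hB
    ring
  rw [e]
  exact
    ((((((((((((((((((((((((((((((((((((((((((((((((((((((((H.nf n).mul ((s5.nsmul 230).add
    (s8.nsmul 409))).add ((H.ng n).mul ((((u3.nsmul 62).add (u8.nsmul 1769)).add (u9.nsmul
    473)).add (s5.nsmul 242)))).add ((H.nl n).mul (((((u3.nsmul 134).add (u5.nsmul 335)).add
    (u8.nsmul 948)).add (u9.nsmul 389)).add (s5.nsmul 870)))).add ((H.nm n).mul ((((u4.nsmul
    7).add (u5.nsmul 2802)).add (u8.nsmul 539)).add (s4.nsmul 1934)))).add ((H.nk n).mul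
    ((((((((u2.nsmul 131).add (u4.nsmul 1613)).add (u5.nsmul 1375)).add (u6.nsmul 53)).add
    (u7.nsmul 89)).add (u8.nsmul 1744)).add (s4.nsmul 118)).add (s7.nsmul 219)))).add ((H.nP
    n).mul (((((((u2.nsmul 7992).add (u4.nsmul 1034)).add (u6.nsmul 3)).add (u7.nsmul
    460)).add (u8.nsmul 242)).add (s3.nsmul 1)).add (s7.nsmul 283)))).add ((((H.nf n).mul
    (H.ng n)).mul (H.ng n)).nsmul 2257)).add ((((H.nf n).mul (H.ng n)).mul (H.nl n)).nsmul
    852214)).add ((((H.nf n).mul (H.ng n)).mul (H.nm n)).nsmul 564216)).add ((((H.nf n).mul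
    (H.ng n)).mul (H.nk n)).nsmul 20766)).add ((((H.nf n).mul (H.ng n)).mul (H.nP n)).nsmul
    3989)).add ((((H.nf n).mul (H.nl n)).mul (H.nl n)).nsmul 543619)).add ((((H.nf n).mul
    (H.nl n)).mul (H.nm n)).nsmul 185904)).add ((((H.nf n).mul (H.nl n)).mul (H.nk n)).nsmul
    4047)).add ((((H.nf n).mul (H.nl n)).mul (H.nP n)).nsmul 4191)).add ((((H.nf n).mul (H.nm
    n)).mul (H.nm n)).nsmul 2198)).add ((((H.nf n).mul (H.nm n)).mul (H.nk n)).nsmul
    46642)).add ((((H.nf n).mul (H.nm n)).mul (H.nP n)).nsmul 4536)).add ((((H.nf n).mul (H.nk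
    n)).mul (H.nk n)).nsmul 2375)).add ((((H.nf n).mul (H.nk n)).mul (H.nP n)).nsmul
    14676)).add ((((H.nf n).mul (H.nP n)).mul (H.nP n)).nsmul 571)).add ((((H.ng n).mul (H.ng
    n)).mul (H.ng n)).nsmul 79493)).add ((((H.ng n).mul (H.ng n)).mul (H.nl n)).nsmul
    459683)).add ((((H.ng n).mul (H.ng n)).mul (H.nm n)).nsmul 359703)).add ((((H.ng n).mul
    (H.ng n)).mul (H.nk n)).nsmul 3799)).add ((((H.ng n).mul (H.ng n)).mul (H.nP n)).nsmul
    3883)).add ((((H.ng n).mul (H.nl n)).mul (H.nl n)).nsmul 210126)).add ((((H.ng n).mul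
    (H.nl n)).mul (H.nm n)).nsmul 58256)).add ((((H.ng n).mul (H.nl n)).mul (H.nk n)).nsmul
    98971)).add ((((H.ng n).mul (H.nl n)).mul (H.nP n)).nsmul 5588)).add ((((H.ng n).mul (H.nm
    n)).mul (H.nm n)).nsmul 5065)).add ((((H.ng n).mul (H.nm n)).mul (H.nk n)).nsmul
    6613)).add ((((H.ng n).mul (H.nm n)).mul (H.nP n)).nsmul 7211)).add ((((H.ng n).mul (H.nk
    n)).mul (H.nk n)).nsmul 2832)).add ((((H.ng n).mul (H.nk n)).mul (H.nP n)).nsmul
    5824)).add ((((H.ng n).mul (H.nP n)).mul (H.nP n)).nsmul 154)).add ((((H.nl n).mul (H.nl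
    n)).mul (H.nl n)).nsmul 3038)).add ((((H.nl n).mul (H.nl n)).mul (H.nm n)).nsmul
    5412)).add ((((H.nl n).mul (H.nl n)).mul (H.nk n)).nsmul 3830)).add ((((H.nl n).mul (H.nl
    n)).mul (H.nP n)).nsmul 4405)).add ((((H.nl n).mul (H.nm n)).mul (H.nm n)).nsmul
    4488)).add ((((H.nl n).mul (H.nm n)).mul (H.nk n)).nsmul 5786)).add ((((H.nl n).mul (H.nm
    n)).mul (H.nP n)).nsmul 7609)).add ((((H.nl n).mul (H.nk n)).mul (H.nk n)).nsmul
    2449)).add ((((H.nl n).mul (H.nk n)).mul (H.nP n)).nsmul 3917)).add ((((H.nl n).mul (H.nP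
    n)).mul (H.nP n)).nsmul 523)).add ((((H.nm n).mul (H.nm n)).mul (H.nm n)).nsmul 1923)).add
    ((((H.nm n).mul (H.nm n)).mul (H.nk n)).nsmul 3271)).add ((((H.nm n).mul (H.nm n)).mul
    (H.nP n)).nsmul 4685)).add ((((H.nm n).mul (H.nk n)).mul (H.nk n)).nsmul 111695)).add
    ((((H.nm n).mul (H.nk n)).mul (H.nP n)).nsmul 217202)).add ((((H.nm n).mul (H.nP n)).mul
    (H.nP n)).nsmul 1229)).add ((((H.nk n).mul (H.nk n)).mul (H.nk n)).nsmul 169553)).add
    ((((H.nk n).mul (H.nk n)).mul (H.nP n)).nsmul 385659)).add ((((H.nk n).mul (H.nP n)).mul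
    (H.nP n)).nsmul 228387))

end Frz
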