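import Pool.Agent.Frz.Forms

set_option autoImplicit false

namespace Frz

open PowerSeries

set_option maxRecDepth 100000 in
theorem step_cq3 {f g l m k P B : PowerSeries ℝ} (H : Lts f g l m k P) (hB : B = k + P)
    (n : ℕ)
    (u3 : TN n (cq3 f g l m B)) (u6 : TN n (cq6 f g l m B)) (u7 : TN n (cq7 f g l m B)) (u8 :
    TN n (cq8 f g l m B)) (u9 : TN n (cq9 f g l m B)) (s3 : TN n (cq3 g l m k P)) (s6 : TN n
    (cq6 g l m k P)) (s7 : TN n (cq7 g l m k P)) (s8 : TN n (cq8 g l m k P)) (s9 : TN n (cq9 g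
    l m k P)) :
    TN n (10000 • derivative ℝ (cq3 f g l m B)) := by
  have dB : derivative ℝ B = B * P := by
    rw [hB]
    exact H.dB
  have e : 10000 • derivative ℝ (cq3 f g l m B) =
      f * (43 • cq6 g l m k P) + g * (29 • cq7 g l m k P + 237 • cq9 g l m k P) + l * (686 •
      cq3 f g l m B + 136 • cq7 f g l m B + 56 • cq8 f g l m B + 153 • cq9 f g l m B + 40 •
      cq6 g l m k P + 5375 • cq8 g l m k P) + m * (10 • cq7 f g l m B + 281 • cq9 f g l m B) +
      k * (13 • cq3 f g l m B + 20 • cq6 f g l m B) + P * (20000 • cq3 f g l m B + 10000 • cq3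
      g l m k P) + 20000 • (f * g * g) + 21534 • (f * g * l) + 38163 • (f * g * m) + 26786 •
      (f * g * k) + 12059 • (f * g * P) + 6096 • (f * l * l) + 12215 • (f * l * m) + 126956 •
      (f * l * k) + 138763 • (f * l * P) + 11168 • (f * m * m) + 95062 • (f * m * k) + 69834 •
      (f * m * P) + 5935 • (f * k * k) + 16728 • (f * k * P) + 20000 • (g * g * g) + 12309 •
      (g * g * l) + 12187 • (g * g * m) + 30192 • (g * g * k) + 82630 • (g * g * P) + 573305 •
      (g * l * l) + 7662583 • (g * l * m) + 4514026 • (g * l * k) + 17114 • (g * l * P) +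
      4887487 • (g * m * m) + 5246167 • (g * m * k) + 17431 • (g * m * P) + 41718 • (g * k *
      k) + 12071 • (g * k * P) + 269164 • (l * l * l) + 17056491 • (l * l * m) + 15448067 • (l
      * l * k) + 12104 • (l * l * P) + 35788429 • (l * m * m) + 42095357 • (l * m * k) + 18883
      • (l * m * P) + 5292540 • (l * k * k) + 12580 • (l * k * P) + 19905450 • (m * m * m) +
      43034846 • (m * m * k) + 19020 • (m * m * P) + 31932273 • (m * k * k) + 12273 • (m * k *
      P) + 8790000 • (k * k * k) := by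
    simp only [cq3, cq6, cq7, cq8, cq9, map_add, map_sub, map_nsmul, Derivation.leibniz, smul_eq_mul, H.df, H.dg,
      H.dl, H.dm, dB]
    subst hB
    ring
  rw [e]
  exact
    ((((((((((((((((((((((((((((((((((((((((((((((((((H.nf n).mul (s6.nsmul 43)).add ((H.ng
    n).mul ((s7.nsmul 29).add (s9.nsmul 237)))).add ((H.nl n).mul ((((((u3.nsmul 686).add
    (u7.nsmul 136)).add (u8.nsmul 56)).add (u9.nsmul 153)).add (s6.nsmul 40)).add (s8.nsmul
    5375)))).add ((H.nm n).mul ((u7.nsmul 10).add (u9.nsmul 281)))).add ((H.nk n).mul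
    ((u3.nsmul 13).add (u6.nsmul 20)))).add ((H.nP n).mul ((u3.nsmul 20000).add (s3.nsmul
    10000)))).add ((((H.nf n).mul (H.ng n)).mul (H.ng n)).nsmul 20000)).add ((((H.nf n).mul
    (H.ng n)).mul (H.nl n)).nsmul 21534)).add ((((H.nf n).mul (H.ng n)).mul (H.nm n)).nsmul
    38163)).add ((((H.nf n).mul (H.ng n)).mul (H.nk n)).nsmul 26786)).add ((((H.nf n).mul
    (H.ng n)).mul (H.nP n)).nsmul 12059)).add ((((H.nf n).mul (H.nl n)).mul (H.nl n)).nsmul
    6096)).add ((((H.nf n).mul (H.nl n)).mul (H.nm n)).nsmul 12215)).add ((((H.nf n).mul (H.nl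
    n)).mul (H.nk n)).nsmul 126956)).add ((((H.nf n).mul (H.nl n)).mul (H.nP n)).nsmul
    138763)).add ((((H.nf n).mul (H.nm n)).mul (H.nm n)).nsmul 11168)).add ((((H.nf n).mul
    (H.nm n)).mul (H.nk n)).nsmul 95062)).add ((((H.nf n).mul (H.nm n)).mul (H.nP n)).nsmul
    69834)).add ((((H.nf n).mul (H.nk n)).mul (H.nk n)).nsmul 5935)).add ((((H.nf n).mul (H.nk
    n)).mul (H.nP n)).nsmul 16728)).add ((((H.ng n).mul (H.ng n)).mul (H.ng n)).nsmul
    20000)).add ((((H.ng n).mul (H.ng n)).mul (H.nl n)).nsmul 12309)).add ((((H.ng n).mul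
    (H.ng n)).mul (H.nm n)).nsmul 12187)).add ((((H.ng n).mul (H.ng n)).mul (H.nk n)).nsmul
    30192)).add ((((H.ng n).mul (H.ng n)).mul (H.nP n)).nsmul 82630)).add ((((H.ng n).mul
    (H.nl n)).mul (H.nl n)).nsmul 573305)).add ((((H.ng n).mul (H.nl n)).mul (H.nm n)).nsmul
    7662583)).add ((((H.ng n).mul (H.nl n)).mul (H.nk n)).nsmul 4514026)).add ((((H.ng n).mul
    (H.nl n)).mul (H.nP n)).nsmul 17114)).add ((((H.ng n).mul (H.nm n)).mul (H.nm n)).nsmul
    4887487)).add ((((H.ng n).mul (H.nm n)).mul (H.nk n)).nsmul 5246167)).add ((((H.ng n).mul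
    (H.nm n)).mul (H.nP n)).nsmul 17431)).add ((((H.ng n).mul (H.nk n)).mul (H.nk n)).nsmul
    41718)).add ((((H.ng n).mul (H.nk n)).mul (H.nP n)).nsmul 12071)).add ((((H.nl n).mul
    (H.nl n)).mul (H.nl n)).nsmul 269164)).add ((((H.nl n).mul (H.nl n)).mul (H.nm n)).nsmul
    17056491)).add ((((H.nl n).mul (H.nl n)).mul (H.nk n)).nsmul 15448067)).add ((((H.nl
    n).mul (H.nl n)).mul (H.nP n)).nsmul 12104)).add ((((H.nl n).mul (H.nm n)).mul (H.nm
    n)).nsmul 35788429)).add ((((H.nl n).mul (H.nm n)).mul (H.nk n)).nsmul 42095357)).add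
    ((((H.nl n).mul (H.nm n)).mul (H.nP n)).nsmul 18883)).add ((((H.nl n).mul (H.nk n)).mul
    (H.nk n)).nsmul 5292540)).add ((((H.nl n).mul (H.nk n)).mul (H.nP n)).nsmul 12580)).add
    ((((H.nm n).mul (H.nm n)).mul (H.nm n)).nsmul 19905450)).add ((((H.nm n).mul (H.nm n)).mul
    (H.nk n)).nsmul 43034846)).add ((((H.nm n).mul (H.nm n)).mul (H.nP n)).nsmul 19020)).add
    ((((H.nm n).mul (H.nk n)).mul (H.nk n)).nsmul 31932273)).add ((((H.nm n).mul (H.nk n)).mul
    (H.nP n)).nsmul 12273)).add ((((H.nk n).mul (H.nk n)).mul (H.nk n)).nsmul 8790000))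

end Frz
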