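import Pool.Agent.Frz.Forms

set_option autoImplicit false

namespace Frz

open PowerSeries

set_option maxRecDepth 100000 in
theorem step_cq4 {f g l m k P B : PowerSeries ℝ} (H : Lts f g l m k P) (hB : B = k + P)
    (n : ℕ)
    (u2 : TN n (cLam f g l m B)) (u3 : TN n (cq3 f g l m B)) (u4 : TN n (cq4 f g l m B)) (u5 :
    TN n (cq5 f g l m B)) (u6 : TN n (cq6 f g l m B)) (u7 : TN n (cq7 f g l m B)) (u8 : TN n
    (cq8 f g l m B)) (u9 : TN n (cq9 f g l m B)) (s3 : TN n (cq3 g l m k P)) (s4 : TN n (cq4 g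
    l m k P)) (s5 : TN n (cq5 g l m k P)) (s6 : TN n (cq6 g l m k P)) (s7 : TN n (cq7 g l m k
    P)) (s8 : TN n (cq8 g l m k P)) (s9 : TN n (cq9 g l m k P)) :
    TN n (20000 • derivative ℝ (cq4 f g l m B)) := by
  have dB : derivative ℝ B = B * P := by
    rw [hB]
    exact H.dB
  have e : 20000 • derivative ℝ (cq4 f g l m B) =
      f * (5644 • cq8 g l m k P + 526 • cq9 g l m k P) + g * (4664 • cq8 f g l m B + 186 • cq3
      g l m k P) + l * (2592 • cq3 f g l m B + 236 • cq7 g l m k P + 300 • cq9 g l m k P) + m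
      * (7056 • cq5 f g l m B + 1708 • cq7 f g l m B + 1966 • cq9 f g l m B + 18014 • cq4 g l
      m k P + 928 • cq5 g l m k P + 132 • cq7 g l m k P + 30568 • cq8 g l m k P) + k * (26048
      • cq4 f g l m B + 3680 • cq5 f g l m B + 680 • cq6 f g l m B + 826 • cq7 f g l m B +
      1252 • cq8 f g l m B + 9302 • cq4 g l m k P + 856 • cq5 g l m k P + 1132 • cq6 g l m k P
      + 1416 • cq7 g l m k P) + P * (903 • cLam f g l m B + 31634 • cq4 f g l m B + 390 • cq5
      f g l m B + 8848 • cq7 f g l m B + 1250 • cq6 g l m k P + 4426 • cq7 g l m k P) +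
      1422776 • (f * g * g) + 8841316 • (f * g * l) + 3030908 • (f * g * m) + 30426 • (f * g *
      k) + 253319 • (f * g * P) + 5661164 • (f * l * l) + 4835826 • (f * l * m) + 453826 • (f
      * l * k) + 30877 • (f * l * P) + 49574 • (f * m * m) + 30426 • (f * m * k) + 29944 • (f
      * m * P) + 25778 • (f * k * k) + 30262 • (f * k * P) + 4484 • (f * P * P) + 1581352 • (g
      * g * g) + 16723844 • (g * g * l) + 8454424 • (g * g * m) + 931752 • (g * g * k) + 30601
      • (g * g * P) + 21667162 • (g * l * l) + 6759128 • (g * l * m) + 45714 • (g * l * k) +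
      46007 • (g * l * P) + 750846 • (g * m * m) + 47292 • (g * m * k) + 44741 • (g * m * P) +
      15564 • (g * k * k) + 30669 • (g * k * P) + 4773 • (g * P * P) + 5571564 • (l * l * l) +
      29244 • (l * l * m) + 30806 • (l * l * k) + 31558 • (l * l * P) + 27786 • (l * m * m) +
      45562 • (l * m * k) + 46442 • (l * m * P) + 14848 • (l * k * k) + 31114 • (l * k * P) +
      5004 • (l * P * P) + 13822 • (m * m * m) + 28594 • (m * m * k) + 28998 • (m * m * P) +
      14348 • (m * k * k) + 29318 • (m * k * P) + 33370 • (m * P * P) + 4926 • (k * k * k) +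
      1433190 • (k * k * P) + 1586502 • (k * P * P) := by
    simp only [cLam, cq3, cq4, cq5, cq6, cq7, cq8, cq9, map_add, map_sub, map_nsmul, Derivation.leibniz, smul_eq_mul, H.df, H.dg,
      H.dl, H.dm, dB]
    subst hB
    ring
  rw [e]
  exact
    ((((((((((((((((((((((((((((((((((((((((((((((((((((((((H.nf n).mul ((s8.nsmul 5644).add
    (s9.nsmul 526))).add ((H.ng n).mul ((u8.nsmul 4664).add (s3.nsmul 186)))).add ((H.nl
    n).mul (((u3.nsmul 2592).add (s7.nsmul 236)).add (s9.nsmul 300)))).add ((H.nm n).mul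
    (((((((u5.nsmul 7056).add (u7.nsmul 1708)).add (u9.nsmul 1966)).add (s4.nsmul 18014)).add
    (s5.nsmul 928)).add (s7.nsmul 132)).add (s8.nsmul 30568)))).add ((H.nk n).mul
    (((((((((u4.nsmul 26048).add (u5.nsmul 3680)).add (u6.nsmul 680)).add (u7.nsmul 826)).add
    (u8.nsmul 1252)).add (s4.nsmul 9302)).add (s5.nsmul 856)).add (s6.nsmul 1132)).add
    (s7.nsmul 1416)))).add ((H.nP n).mul ((((((u2.nsmul 903).add (u4.nsmul 31634)).add
    (u5.nsmul 390)).add (u7.nsmul 8848)).add (s6.nsmul 1250)).add (s7.nsmul 4426)))).add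
    ((((H.nf n).mul (H.ng n)).mul (H.ng n)).nsmul 1422776)).add ((((H.nf n).mul (H.ng n)).mul
    (H.nl n)).nsmul 8841316)).add ((((H.nf n).mul (H.ng n)).mul (H.nm n)).nsmul 3030908)).add
    ((((H.nf n).mul (H.ng n)).mul (H.nk n)).nsmul 30426)).add ((((H.nf n).mul (H.ng n)).mul
    (H.nP n)).nsmul 253319)).add ((((H.nf n).mul (H.nl n)).mul (H.nl n)).nsmul 5661164)).add
    ((((H.nf n).mul (H.nl n)).mul (H.nm n)).nsmul 4835826)).add ((((H.nf n).mul (H.nl n)).mul
    (H.nk n)).nsmul 453826)).add ((((H.nf n).mul (H.nl n)).mul (H.nP n)).nsmul 30877)).add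
    ((((H.nf n).mul (H.nm n)).mul (H.nm n)).nsmul 49574)).add ((((H.nf n).mul (H.nm n)).mul
    (H.nk n)).nsmul 30426)).add ((((H.nf n).mul (H.nm n)).mul (H.nP n)).nsmul 29944)).add
    ((((H.nf n).mul (H.nk n)).mul (H.nk n)).nsmul 25778)).add ((((H.nf n).mul (H.nk n)).mul
    (H.nP n)).nsmul 30262)).add ((((H.nf n).mul (H.nP n)).mul (H.nP n)).nsmul 4484)).add
    ((((H.ng n).mul (H.ng n)).mul (H.ng n)).nsmul 1581352)).add ((((H.ng n).mul (H.ng n)).mul
    (H.nl n)).nsmul 16723844)).add ((((H.ng n).mul (H.ng n)).mul (H.nm n)).nsmul 8454424)).add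
    ((((H.ng n).mul (H.ng n)).mul (H.nk n)).nsmul 931752)).add ((((H.ng n).mul (H.ng n)).mul
    (H.nP n)).nsmul 30601)).add ((((H.ng n).mul (H.nl n)).mul (H.nl n)).nsmul 21667162)).add
    ((((H.ng n).mul (H.nl n)).mul (H.nm n)).nsmul 6759128)).add ((((H.ng n).mul (H.nl n)).mul
    (H.nk n)).nsmul 45714)).add ((((H.ng n).mul (H.nl n)).mul (H.nP n)).nsmul 46007)).add
    ((((H.ng n).mul (H.nm n)).mul (H.nm n)).nsmul 750846)).add ((((H.ng n).mul (H.nm n)).mul
    (H.nk n)).nsmul 47292)).add ((((H.ng n).mul (H.nm n)).mul (H.nP n)).nsmul 44741)).add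
    ((((H.ng n).mul (H.nk n)).mul (H.nk n)).nsmul 15564)).add ((((H.ng n).mul (H.nk n)).mul
    (H.nP n)).nsmul 30669)).add ((((H.ng n).mul (H.nP n)).mul (H.nP n)).nsmul 4773)).add
    ((((H.nl n).mul (H.nl n)).mul (H.nl n)).nsmul 5571564)).add ((((H.nl n).mul (H.nl n)).mul
    (H.nm n)).nsmul 29244)).add ((((H.nl n).mul (H.nl n)).mul (H.nk n)).nsmul 30806)).add
    ((((H.nl n).mul (H.nl n)).mul (H.nP n)).nsmul 31558)).add ((((H.nl n).mul (H.nm n)).mul
    (H.nm n)).nsmul 27786)).add ((((H.nl n).mul (H.nm n)).mul (H.nk n)).nsmul 45562)).add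
    ((((H.nl n).mul (H.nm n)).mul (H.nP n)).nsmul 46442)).add ((((H.nl n).mul (H.nk n)).mul
    (H.nk n)).nsmul 14848)).add ((((H.nl n).mul (H.nk n)).mul (H.nP n)).nsmul 31114)).add
    ((((H.nl n).mul (H.nP n)).mul (H.nP n)).nsmul 5004)).add ((((H.nm n).mul (H.nm n)).mul
    (H.nm n)).nsmul 13822)).add ((((H.nm n).mul (H.nm n)).mul (H.nk n)).nsmul 28594)).add
    ((((H.nm n).mul (H.nm n)).mul (H.nP n)).nsmul 28998)).add ((((H.nm n).mul (H.nk n)).mul
    (H.nk n)).nsmul 14348)).add ((((H.nm n).mul (H.nk n)).mul (H.nP n)).nsmul 29318)).add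
    ((((H.nm n).mul (H.nP n)).mul (H.nP n)).nsmul 33370)).add ((((H.nk n).mul (H.nk n)).mul
    (H.nk n)).nsmul 4926)).add ((((H.nk n).mul (H.nk n)).mul (H.nP n)).nsmul 1433190)).add
    ((((H.nk n).mul (H.nP n)).mul (H.nP n)).nsmul 1586502))

end Frz
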