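import Pool.Agent.Frz.Forms

set_option autoImplicit false

namespace Frz

open PowerSeries

set_option maxRecDepth 100000 in
theorem step_cq5 {f g l m k P B : PowerSeries ℝ} (H : Lts f g l m k P) (hB : B = k + P)
    (n : ℕ)
    (u3 : TN n (cq3 f g l m B)) (u4 : TN n (cq4 f g l m B)) (u5 : TN n (cq5 f g l m B)) (u7 :
    TN n (cq7 f g l m B)) (u8 : TN n (cq8 f g l m B)) (u9 : TN n (cq9 f g l m B)) (s3 : TN n
    (cq3 g l m k P)) (s4 : TN n (cq4 g l m k P)) (s5 : TN n (cq5 g l m k P)) (s6 : TN n (cq6 g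
    l m k P)) (s8 : TN n (cq8 g l m k P)) (s9 : TN n (cq9 g l m k P)) :
    TN n (10000 • derivative ℝ (cq5 f g l m B)) := by
  have dB : derivative ℝ B = B * P := by
    rw [hB]
    exact H.dB
  have e : 10000 • derivative ℝ (cq5 f g l m B) =
      g * (5491 • cq8 f g l m B + 370 • cq9 f g l m B) + l * (28 • cq3 f g l m B + 288 • cq3 g
      l m k P) + m * (829 • cq3 f g l m B + 1809 • cq8 f g l m B + 475 • cq5 g l m k P + 1251
      • cq9 g l m k P) + k * (84 • cq3 f g l m B + 515 • cq4 f g l m B + 9564 • cq5 f g l m B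
      + 832 • cq8 f g l m B + 322 • cq9 f g l m B + 846 • cq5 g l m k P + 32 • cq6 g l m k P +
      3774 • cq8 g l m k P + 1914 • cq9 g l m k P) + P * (18179 • cq5 f g l m B + 7 • cq7 f g
      l m B + 1387 • cq9 f g l m B + 13 • cq4 g l m k P + 239 • cq6 g l m k P + 2359 • cq9 g l
      m k P) + 532519 • (f * g * g) + 6611925 • (f * g * l) + 5124320 • (f * g * m) + 1647280
      • (f * g * k) + 14846 • (f * g * P) + 3799944 • (f * l * l) + 5315237 • (f * l * m) +
      1629482 • (f * l * k) + 25783 • (f * l * P) + 1832876 • (f * m * m) + 14907 • (f * m *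
      k) + 14777 • (f * m * P) + 12633 • (f * k * k) + 14837 • (f * k * P) + 2204 • (f * P *
      P) + 732533 • (g * g * g) + 6112449 • (g * g * l) + 4818019 • (g * g * m) + 1697032 • (g
      * g * k) + 153179 • (g * g * P) + 9139664 • (g * l * l) + 13128161 • (g * l * m) +
      3168942 • (g * l * k) + 21646 • (g * l * P) + 3746525 • (g * m * m) + 21702 • (g * m *
      k) + 22015 • (g * m * P) + 9108 • (g * k * k) + 13969 • (g * k * P) + 1911 • (g * P * P)
      + 4517620 • (l * l * l) + 3925248 • (l * l * m) + 15203 • (l * l * k) + 15065 • (l * l *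
      P) + 522709 • (l * m * m) + 382661 • (l * m * k) + 21838 • (l * m * P) + 7527 • (l * k *
      k) + 14665 • (l * k * P) + 1571 • (l * P * P) + 8098 • (m * m * m) + 15111 • (m * m * k)
      + 16066 • (m * m * P) + 135755 • (m * k * k) + 15196 • (m * k * P) + 2821 • (m * P * P)
      + 11974 • (k * k * k) + 2171 • (k * k * P) + 269 • (k * P * P) := by
    simp only [cq3, cq4, cq5, cq6, cq7, cq8, cq9, map_add, map_sub, map_nsmul, Derivation.leibniz, smul_eq_mul, H.df, H.dg,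
      H.dl, H.dm, dB]
    subst hB
    ring
  rw [e]
  exact
    (((((((((((((((((((((((((((((((((((((((((((((((((((((((H.ng n).mul ((u8.nsmul 5491).add
    (u9.nsmul 370))).add ((H.nl n).mul ((u3.nsmul 28).add (s3.nsmul 288)))).add ((H.nm n).mul
    ((((u3.nsmul 829).add (u8.nsmul 1809)).add (s5.nsmul 475)).add (s9.nsmul 1251)))).add
    ((H.nk n).mul (((((((((u3.nsmul 84).add (u4.nsmul 515)).add (u5.nsmul 9564)).add (u8.nsmul
    832)).add (u9.nsmul 322)).add (s5.nsmul 846)).add (s6.nsmul 32)).add (s8.nsmul 3774)).add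
    (s9.nsmul 1914)))).add ((H.nP n).mul ((((((u5.nsmul 18179).add (u7.nsmul 7)).add (u9.nsmul
    1387)).add (s4.nsmul 13)).add (s6.nsmul 239)).add (s9.nsmul 2359)))).add ((((H.nf n).mul
    (H.ng n)).mul (H.ng n)).nsmul 532519)).add ((((H.nf n).mul (H.ng n)).mul (H.nl n)).nsmul
    6611925)).add ((((H.nf n).mul (H.ng n)).mul (H.nm n)).nsmul 5124320)).add ((((H.nf n).mul
    (H.ng n)).mul (H.nk n)).nsmul 1647280)).add ((((H.nf n).mul (H.ng n)).mul (H.nP n)).nsmul
    14846)).add ((((H.nf n).mul (H.nl n)).mul (H.nl n)).nsmul 3799944)).add ((((H.nf n).mul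
    (H.nl n)).mul (H.nm n)).nsmul 5315237)).add ((((H.nf n).mul (H.nl n)).mul (H.nk n)).nsmul
    1629482)).add ((((H.nf n).mul (H.nl n)).mul (H.nP n)).nsmul 25783)).add ((((H.nf n).mul
    (H.nm n)).mul (H.nm n)).nsmul 1832876)).add ((((H.nf n).mul (H.nm n)).mul (H.nk n)).nsmul
    14907)).add ((((H.nf n).mul (H.nm n)).mul (H.nP n)).nsmul 14777)).add ((((H.nf n).mul
    (H.nk n)).mul (H.nk n)).nsmul 12633)).add ((((H.nf n).mul (H.nk n)).mul (H.nP n)).nsmul
    14837)).add ((((H.nf n).mul (H.nP n)).mul (H.nP n)).nsmul 2204)).add ((((H.ng n).mul (H.ng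
    n)).mul (H.ng n)).nsmul 732533)).add ((((H.ng n).mul (H.ng n)).mul (H.nl n)).nsmul
    6112449)).add ((((H.ng n).mul (H.ng n)).mul (H.nm n)).nsmul 4818019)).add ((((H.ng n).mul
    (H.ng n)).mul (H.nk n)).nsmul 1697032)).add ((((H.ng n).mul (H.ng n)).mul (H.nP n)).nsmul
    153179)).add ((((H.ng n).mul (H.nl n)).mul (H.nl n)).nsmul 9139664)).add ((((H.ng n).mul
    (H.nl n)).mul (H.nm n)).nsmul 13128161)).add ((((H.ng n).mul (H.nl n)).mul (H.nk n)).nsmul
    3168942)).add ((((H.ng n).mul (H.nl n)).mul (H.nP n)).nsmul 21646)).add ((((H.ng n).mul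
    (H.nm n)).mul (H.nm n)).nsmul 3746525)).add ((((H.ng n).mul (H.nm n)).mul (H.nk n)).nsmul
    21702)).add ((((H.ng n).mul (H.nm n)).mul (H.nP n)).nsmul 22015)).add ((((H.ng n).mul
    (H.nk n)).mul (H.nk n)).nsmul 9108)).add ((((H.ng n).mul (H.nk n)).mul (H.nP n)).nsmul
    13969)).add ((((H.ng n).mul (H.nP n)).mul (H.nP n)).nsmul 1911)).add ((((H.nl n).mul (H.nl
    n)).mul (H.nl n)).nsmul 4517620)).add ((((H.nl n).mul (H.nl n)).mul (H.nm n)).nsmul
    3925248)).add ((((H.nl n).mul (H.nl n)).mul (H.nk n)).nsmul 15203)).add ((((H.nl n).mul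
    (H.nl n)).mul (H.nP n)).nsmul 15065)).add ((((H.nl n).mul (H.nm n)).mul (H.nm n)).nsmul
    522709)).add ((((H.nl n).mul (H.nm n)).mul (H.nk n)).nsmul 382661)).add ((((H.nl n).mul
    (H.nm n)).mul (H.nP n)).nsmul 21838)).add ((((H.nl n).mul (H.nk n)).mul (H.nk n)).nsmul
    7527)).add ((((H.nl n).mul (H.nk n)).mul (H.nP n)).nsmul 14665)).add ((((H.nl n).mul (H.nP
    n)).mul (H.nP n)).nsmul 1571)).add ((((H.nm n).mul (H.nm n)).mul (H.nm n)).nsmul
    8098)).add ((((H.nm n).mul (H.nm n)).mul (H.nk n)).nsmul 15111)).add ((((H.nm n).mul (H.nm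
    n)).mul (H.nP n)).nsmul 16066)).add ((((H.nm n).mul (H.nk n)).mul (H.nk n)).nsmul
    135755)).add ((((H.nm n).mul (H.nk n)).mul (H.nP n)).nsmul 15196)).add ((((H.nm n).mul
    (H.nP n)).mul (H.nP n)).nsmul 2821)).add ((((H.nk n).mul (H.nk n)).mul (H.nk n)).nsmul
    11974)).add ((((H.nk n).mul (H.nk n)).mul (H.nP n)).nsmul 2171)).add ((((H.nk n).mul (H.nP
    n)).mul (H.nP n)).nsmul 269))

end Frz
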