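import Pool.Agent.Frz.Forms

set_option autoImplicit false

namespace Frz

open PowerSeries

set_option maxRecDepth 100000 in
theorem step_cq6 {f g l m k P B : PowerSeries ℝ} (H : Lts f g l m k P) (hB : B = k + P)
    (n : ℕ)
    (u3 : TN n (cq3 f g l m B)) (u4 : TN n (cq4 f g l m B)) (u5 : TN n (cq5 f g l m B)) (u6 :
    TN n (cq6 f g l m B)) (u7 : TN n (cq7 f g l m B)) (u8 : TN n (cq8 f g l m B)) (u9 : TN n
    (cq9 f g l m B)) (s3 : TN n (cq3 g l m k P)) (s5 : TN n (cq5 g l m k P)) (s6 : TN n (cq6 g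
    l m k P)) (s7 : TN n (cq7 g l m k P)) (s8 : TN n (cq8 g l m k P)) (s9 : TN n (cq9 g l m k
    P)) :
    TN n (10000 • derivative ℝ (cq6 f g l m B)) := by
  have dB : derivative ℝ B = B * P := by
    rw [hB]
    exact H.dB
  have e : 10000 • derivative ℝ (cq6 f g l m B) =
      f * (211 • cq5 g l m k P + 130 • cq6 g l m k P + 6953 • cq8 g l m k P + 1132 • cq9 g l m
      k P) + g * (3631 • cq6 f g l m B + 1771 • cq8 f g l m B + 2830 • cq9 g l m k P) + l *
      (96 • cq3 f g l m B + 4435 • cq6 f g l m B + 4498 • cq7 f g l m B + 1588 • cq8 f g l m B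
      + 6007 • cq8 g l m k P + 3250 • cq9 g l m k P) + m * (582 • cq4 f g l m B + 1745 • cq5 f
      g l m B + 5045 • cq6 f g l m B + 1795 • cq7 f g l m B + 1676 • cq8 f g l m B + 2754 •
      cq9 f g l m B + 3229 • cq6 g l m k P + 2687 • cq9 g l m k P) + k * (4839 • cq6 f g l m B
      + 125 • cq7 f g l m B + 8226 • cq9 f g l m B + 372 • cq3 g l m k P + 2090 • cq6 g l m k
      P + 8558 • cq9 g l m k P) + P * (19550 • cq6 f g l m B + 226 • cq7 f g l m B + 686 • cq9
      f g l m B + 7663 • cq6 g l m k P + 670 • cq7 g l m k P + 1598 • cq9 g l m k P) + 6897 •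
      (f * g * g) + 40607 • (f * g * l) + 1410067 • (f * g * m) + 53722 • (f * g * k) + 14129
      • (f * g * P) + 6837 • (f * l * l) + 132315 • (f * l * m) + 14114 • (f * l * k) + 14151
      • (f * l * P) + 7210 • (f * m * m) + 13881 • (f * m * k) + 36954 • (f * m * P) + 7115 •
      (f * k * k) + 52472 • (f * k * P) + 1966 • (f * P * P) + 96159 • (g * g * g) + 13862 •
      (g * g * l) + 13882 • (g * g * m) + 13734 • (g * g * k) + 13807 • (g * g * P) + 236128 •
      (g * l * l) + 21111 • (g * l * m) + 375795 • (g * l * k) + 21532 • (g * l * P) + 13985 •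
      (g * m * m) + 19499 • (g * m * k) + 19952 • (g * m * P) + 1364139 • (g * k * k) + 14035
      • (g * k * P) + 1905 • (g * P * P) + 22381 • (l * l * l) + 14804 • (l * l * m) + 13430 •
      (l * l * k) + 13784 • (l * l * P) + 72640 • (l * m * m) + 78023 • (l * m * k) + 21261 •
      (l * m * P) + 7071 • (l * k * k) + 14428 • (l * k * P) + 2180 • (l * P * P) + 48287 • (m
      * m * m) + 13965 • (m * m * k) + 14807 • (m * m * P) + 1471093 • (m * k * k) + 13442 •
      (m * k * P) + 1929 • (m * P * P) + 1313084 • (k * k * k) + 2554 • (k * k * P) + 495 • (k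
      * P * P) := by
    simp only [cq3, cq4, cq5, cq6, cq7, cq8, cq9, map_add, map_sub, map_nsmul, Derivation.leibniz, smul_eq_mul, H.df, H.dg,
      H.dl, H.dm, dB]
    subst hB
    ring
  rw [e]
  exact
    ((((((((((((((((((((((((((((((((((((((((((((((((((((((((H.nf n).mul ((((s5.nsmul 211).add
    (s6.nsmul 130)).add (s8.nsmul 6953)).add (s9.nsmul 1132))).add ((H.ng n).mul (((u6.nsmul
    3631).add (u8.nsmul 1771)).add (s9.nsmul 2830)))).add ((H.nl n).mul ((((((u3.nsmul 96).add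
    (u6.nsmul 4435)).add (u7.nsmul 4498)).add (u8.nsmul 1588)).add (s8.nsmul 6007)).add
    (s9.nsmul 3250)))).add ((H.nm n).mul ((((((((u4.nsmul 582).add (u5.nsmul 1745)).add
    (u6.nsmul 5045)).add (u7.nsmul 1795)).add (u8.nsmul 1676)).add (u9.nsmul 2754)).add
    (s6.nsmul 3229)).add (s9.nsmul 2687)))).add ((H.nk n).mul ((((((u6.nsmul 4839).add
    (u7.nsmul 125)).add (u9.nsmul 8226)).add (s3.nsmul 372)).add (s6.nsmul 2090)).add
    (s9.nsmul 8558)))).add ((H.nP n).mul ((((((u6.nsmul 19550).add (u7.nsmul 226)).add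
    (u9.nsmul 686)).add (s6.nsmul 7663)).add (s7.nsmul 670)).add (s9.nsmul 1598)))).add
    ((((H.nf n).mul (H.ng n)).mul (H.ng n)).nsmul 6897)).add ((((H.nf n).mul (H.ng n)).mul
    (H.nl n)).nsmul 40607)).add ((((H.nf n).mul (H.ng n)).mul (H.nm n)).nsmul 1410067)).add
    ((((H.nf n).mul (H.ng n)).mul (H.nk n)).nsmul 53722)).add ((((H.nf n).mul (H.ng n)).mul
    (H.nP n)).nsmul 14129)).add ((((H.nf n).mul (H.nl n)).mul (H.nl n)).nsmul 6837)).add
    ((((H.nf n).mul (H.nl n)).mul (H.nm n)).nsmul 132315)).add ((((H.nf n).mul (H.nl n)).mul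
    (H.nk n)).nsmul 14114)).add ((((H.nf n).mul (H.nl n)).mul (H.nP n)).nsmul 14151)).add
    ((((H.nf n).mul (H.nm n)).mul (H.nm n)).nsmul 7210)).add ((((H.nf n).mul (H.nm n)).mul
    (H.nk n)).nsmul 13881)).add ((((H.nf n).mul (H.nm n)).mul (H.nP n)).nsmul 36954)).add
    ((((H.nf n).mul (H.nk n)).mul (H.nk n)).nsmul 7115)).add ((((H.nf n).mul (H.nk n)).mul
    (H.nP n)).nsmul 52472)).add ((((H.nf n).mul (H.nP n)).mul (H.nP n)).nsmul 1966)).add
    ((((H.ng n).mul (H.ng n)).mul (H.ng n)).nsmul 96159)).add ((((H.ng n).mul (H.ng n)).mul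
    (H.nl n)).nsmul 13862)).add ((((H.ng n).mul (H.ng n)).mul (H.nm n)).nsmul 13882)).add
    ((((H.ng n).mul (H.ng n)).mul (H.nk n)).nsmul 13734)).add ((((H.ng n).mul (H.ng n)).mul
    (H.nP n)).nsmul 13807)).add ((((H.ng n).mul (H.nl n)).mul (H.nl n)).nsmul 236128)).add
    ((((H.ng n).mul (H.nl n)).mul (H.nm n)).nsmul 21111)).add ((((H.ng n).mul (H.nl n)).mul
    (H.nk n)).nsmul 375795)).add ((((H.ng n).mul (H.nl n)).mul (H.nP n)).nsmul 21532)).add
    ((((H.ng n).mul (H.nm n)).mul (H.nm n)).nsmul 13985)).add ((((H.ng n).mul (H.nm n)).mul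
    (H.nk n)).nsmul 19499)).add ((((H.ng n).mul (H.nm n)).mul (H.nP n)).nsmul 19952)).add
    ((((H.ng n).mul (H.nk n)).mul (H.nk n)).nsmul 1364139)).add ((((H.ng n).mul (H.nk n)).mul
    (H.nP n)).nsmul 14035)).add ((((H.ng n).mul (H.nP n)).mul (H.nP n)).nsmul 1905)).add
    ((((H.nl n).mul (H.nl n)).mul (H.nl n)).nsmul 22381)).add ((((H.nl n).mul (H.nl n)).mul
    (H.nm n)).nsmul 14804)).add ((((H.nl n).mul (H.nl n)).mul (H.nk n)).nsmul 13430)).add
    ((((H.nl n).mul (H.nl n)).mul (H.nP n)).nsmul 13784)).add ((((H.nl n).mul (H.nm n)).mul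
    (H.nm n)).nsmul 72640)).add ((((H.nl n).mul (H.nm n)).mul (H.nk n)).nsmul 78023)).add
    ((((H.nl n).mul (H.nm n)).mul (H.nP n)).nsmul 21261)).add ((((H.nl n).mul (H.nk n)).mul
    (H.nk n)).nsmul 7071)).add ((((H.nl n).mul (H.nk n)).mul (H.nP n)).nsmul 14428)).add
    ((((H.nl n).mul (H.nP n)).mul (H.nP n)).nsmul 2180)).add ((((H.nm n).mul (H.nm n)).mul
    (H.nm n)).nsmul 48287)).add ((((H.nm n).mul (H.nm n)).mul (H.nk n)).nsmul 13965)).add
    ((((H.nm n).mul (H.nm n)).mul (H.nP n)).nsmul 14807)).add ((((H.nm n).mul (H.nk n)).mul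
    (H.nk n)).nsmul 1471093)).add ((((H.nm n).mul (H.nk n)).mul (H.nP n)).nsmul 13442)).add
    ((((H.nm n).mul (H.nP n)).mul (H.nP n)).nsmul 1929)).add ((((H.nk n).mul (H.nk n)).mul
    (H.nk n)).nsmul 1313084)).add ((((H.nk n).mul (H.nk n)).mul (H.nP n)).nsmul 2554)).add
    ((((H.nk n).mul (H.nP n)).mul (H.nP n)).nsmul 495))

end Frz
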