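import Pool.Agent.Frz.Forms

set_option autoImplicit false

namespace Frz

open PowerSeries

set_option maxRecDepth 100000 in
theorem step_cq7 {f g l m k P B : PowerSeries ℝ} (H : Lts f g l m k P) (hB : B = k + P)
    (n : ℕ)
    (u3 : TN n (cq3 f g l m B)) (u5 : TN n (cq5 f g l m B)) (u6 : TN n (cq6 f g l m B)) (u7 :
    TN n (cq7 f g l m B)) (u8 : TN n (cq8 f g l m B)) (u9 : TN n (cq9 f g l m B)) (s3 : TN n
    (cq3 g l m k P)) (s6 : TN n (cq6 g l m k P)) (s7 : TN n (cq7 g l m k P)) (s8 : TN n (cq8 g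
    l m k P)) (s9 : TN n (cq9 g l m k P)) :
    TN n (10000 • derivative ℝ (cq7 f g l m B)) := by
  have dB : derivative ℝ B = B * P := by
    rw [hB]
    exact H.dB
  have e : 10000 • derivative ℝ (cq7 f g l m B) =
      f * (20 • cq7 g l m k P + 2686 • cq8 g l m k P + 579 • cq9 g l m k P) + g * (1706 • cq3
      f g l m B + 249 • cq6 f g l m B + 1164 • cq8 f g l m B + 2096 • cq9 g l m k P) + l *
      (189 • cq3 f g l m B + 18 • cq6 f g l m B + 4487 • cq7 f g l m B + 151 • cq8 f g l m B +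
      3500 • cq9 g l m k P) + m * (3398 • cq5 f g l m B + 554 • cq6 f g l m B + 1235 • cq7 f g
      l m B + 623 • cq9 f g l m B + 24 • cq3 g l m k P + 12894 • cq6 g l m k P + 1279 • cq7 g
      l m k P) + k * (67 • cq6 f g l m B + 4416 • cq7 f g l m B + 51 • cq3 g l m k P + 2954 •
      cq6 g l m k P + 6108 • cq7 g l m k P + 4601 • cq9 g l m k P) + P * (1067 • cq6 f g l m B
      + 16573 • cq7 f g l m B + 4278 • cq6 g l m k P + 8148 • cq7 g l m k P) + 7446 • (f * g *
      g) + 446531 • (f * g * l) + 1343523 • (f * g * m) + 326757 • (f * g * k) + 14751 • (f *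
      g * P) + 27348 • (f * l * l) + 14477 • (f * l * m) + 258476 • (f * l * k) + 15133 • (f *
      l * P) + 292466 • (f * m * m) + 817101 • (f * m * k) + 14376 • (f * m * P) + 7415 • (f *
      k * k) + 17033 • (f * k * P) + 2478 • (f * P * P) + 50720 • (g * g * g) + 522672 • (g *
      g * l) + 212352 • (g * g * m) + 47434 • (g * g * k) + 14507 • (g * g * P) + 407583 • (g
      * l * l) + 130148 • (g * l * m) + 22961 • (g * l * k) + 22213 • (g * l * P) + 14926 • (g
      * m * m) + 23032 • (g * m * k) + 22273 • (g * m * P) + 6619 • (g * k * k) + 14813 • (g *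
      k * P) + 3117 • (g * P * P) + 775167 • (l * l * l) + 14764 • (l * l * m) + 15567 • (l *
      l * k) + 14396 • (l * l * P) + 174392 • (l * m * m) + 23746 • (l * m * k) + 20525 • (l *
      m * P) + 7113 • (l * k * k) + 15317 • (l * k * P) + 2683 • (l * P * P) + 7503 • (m * m *
      m) + 16474 • (m * m * k) + 12819 • (m * m * P) + 63233 • (m * k * k) + 15653 • (m * k *
      P) + 1511 • (m * P * P) + 331238 • (k * k * k) + 1389 • (k * k * P) + 685926 • (k * P *
      P) := by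
    simp only [cq3, cq5, cq6, cq7, cq8, cq9, map_add, map_sub, map_nsmul, Derivation.leibniz, smul_eq_mul, H.df, H.dg,
      H.dl, H.dm, dB]
    subst hB
    ring
  rw [e]
  exact
    ((((((((((((((((((((((((((((((((((((((((((((((((((((((((H.nf n).mul (((s7.nsmul 20).add
    (s8.nsmul 2686)).add (s9.nsmul 579))).add ((H.ng n).mul ((((u3.nsmul 1706).add (u6.nsmul
    249)).add (u8.nsmul 1164)).add (s9.nsmul 2096)))).add ((H.nl n).mul (((((u3.nsmul 189).add
    (u6.nsmul 18)).add (u7.nsmul 4487)).add (u8.nsmul 151)).add (s9.nsmul 3500)))).add ((H.nm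
    n).mul (((((((u5.nsmul 3398).add (u6.nsmul 554)).add (u7.nsmul 1235)).add (u9.nsmul
    623)).add (s3.nsmul 24)).add (s6.nsmul 12894)).add (s7.nsmul 1279)))).add ((H.nk n).mul
    ((((((u6.nsmul 67).add (u7.nsmul 4416)).add (s3.nsmul 51)).add (s6.nsmul 2954)).add
    (s7.nsmul 6108)).add (s9.nsmul 4601)))).add ((H.nP n).mul ((((u6.nsmul 1067).add (u7.nsmul
    16573)).add (s6.nsmul 4278)).add (s7.nsmul 8148)))).add ((((H.nf n).mul (H.ng n)).mul
    (H.ng n)).nsmul 7446)).add ((((H.nf n).mul (H.ng n)).mul (H.nl n)).nsmul 446531)).add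
    ((((H.nf n).mul (H.ng n)).mul (H.nm n)).nsmul 1343523)).add ((((H.nf n).mul (H.ng n)).mul
    (H.nk n)).nsmul 326757)).add ((((H.nf n).mul (H.ng n)).mul (H.nP n)).nsmul 14751)).add
    ((((H.nf n).mul (H.nl n)).mul (H.nl n)).nsmul 27348)).add ((((H.nf n).mul (H.nl n)).mul
    (H.nm n)).nsmul 14477)).add ((((H.nf n).mul (H.nl n)).mul (H.nk n)).nsmul 258476)).add
    ((((H.nf n).mul (H.nl n)).mul (H.nP n)).nsmul 15133)).add ((((H.nf n).mul (H.nm n)).mul
    (H.nm n)).nsmul 292466)).add ((((H.nf n).mul (H.nm n)).mul (H.nk n)).nsmul 817101)).add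
    ((((H.nf n).mul (H.nm n)).mul (H.nP n)).nsmul 14376)).add ((((H.nf n).mul (H.nk n)).mul
    (H.nk n)).nsmul 7415)).add ((((H.nf n).mul (H.nk n)).mul (H.nP n)).nsmul 17033)).add
    ((((H.nf n).mul (H.nP n)).mul (H.nP n)).nsmul 2478)).add ((((H.ng n).mul (H.ng n)).mul
    (H.ng n)).nsmul 50720)).add ((((H.ng n).mul (H.ng n)).mul (H.nl n)).nsmul 522672)).add
    ((((H.ng n).mul (H.ng n)).mul (H.nm n)).nsmul 212352)).add ((((H.ng n).mul (H.ng n)).mul
    (H.nk n)).nsmul 47434)).add ((((H.ng n).mul (H.ng n)).mul (H.nP n)).nsmul 14507)).add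
    ((((H.ng n).mul (H.nl n)).mul (H.nl n)).nsmul 407583)).add ((((H.ng n).mul (H.nl n)).mul
    (H.nm n)).nsmul 130148)).add ((((H.ng n).mul (H.nl n)).mul (H.nk n)).nsmul 22961)).add
    ((((H.ng n).mul (H.nl n)).mul (H.nP n)).nsmul 22213)).add ((((H.ng n).mul (H.nm n)).mul
    (H.nm n)).nsmul 14926)).add ((((H.ng n).mul (H.nm n)).mul (H.nk n)).nsmul 23032)).add
    ((((H.ng n).mul (H.nm n)).mul (H.nP n)).nsmul 22273)).add ((((H.ng n).mul (H.nk n)).mul
    (H.nk n)).nsmul 6619)).add ((((H.ng n).mul (H.nk n)).mul (H.nP n)).nsmul 14813)).add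
    ((((H.ng n).mul (H.nP n)).mul (H.nP n)).nsmul 3117)).add ((((H.nl n).mul (H.nl n)).mul
    (H.nl n)).nsmul 775167)).add ((((H.nl n).mul (H.nl n)).mul (H.nm n)).nsmul 14764)).add
    ((((H.nl n).mul (H.nl n)).mul (H.nk n)).nsmul 15567)).add ((((H.nl n).mul (H.nl n)).mul
    (H.nP n)).nsmul 14396)).add ((((H.nl n).mul (H.nm n)).mul (H.nm n)).nsmul 174392)).add
    ((((H.nl n).mul (H.nm n)).mul (H.nk n)).nsmul 23746)).add ((((H.nl n).mul (H.nm n)).mul
    (H.nP n)).nsmul 20525)).add ((((H.nl n).mul (H.nk n)).mul (H.nk n)).nsmul 7113)).add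
    ((((H.nl n).mul (H.nk n)).mul (H.nP n)).nsmul 15317)).add ((((H.nl n).mul (H.nP n)).mul
    (H.nP n)).nsmul 2683)).add ((((H.nm n).mul (H.nm n)).mul (H.nm n)).nsmul 7503)).add
    ((((H.nm n).mul (H.nm n)).mul (H.nk n)).nsmul 16474)).add ((((H.nm n).mul (H.nm n)).mul
    (H.nP n)).nsmul 12819)).add ((((H.nm n).mul (H.nk n)).mul (H.nk n)).nsmul 63233)).add
    ((((H.nm n).mul (H.nk n)).mul (H.nP n)).nsmul 15653)).add ((((H.nm n).mul (H.nP n)).mul
    (H.nP n)).nsmul 1511)).add ((((H.nk n).mul (H.nk n)).mul (H.nk n)).nsmul 331238)).add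
    ((((H.nk n).mul (H.nk n)).mul (H.nP n)).nsmul 1389)).add ((((H.nk n).mul (H.nP n)).mul
    (H.nP n)).nsmul 685926))

end Frz
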