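import Pool.Agent.Frz.Forms

set_option autoImplicit false

namespace Frz

open PowerSeries

set_option maxRecDepth 100000 in
theorem step_cq8 {f g l m k P B : PowerSeries ℝ} (H : Lts f g l m k P) (hB : B = k + P)
    (n : ℕ)
    (u3 : TN n (cq3 f g l m B)) (u4 : TN n (cq4 f g l m B)) (u6 : TN n (cq6 f g l m B)) (u8 :
    TN n (cq8 f g l m B)) (u9 : TN n (cq9 f g l m B)) (s3 : TN n (cq3 g l m k P)) (s8 : TN n
    (cq8 g l m k P)) (s9 : TN n (cq9 g l m k P)) :
    TN n (10000 • derivative ℝ (cq8 f g l m B)) := by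
  have dB : derivative ℝ B = B * P := by
    rw [hB]
    exact H.dB
  have e : 10000 • derivative ℝ (cq8 f g l m B) =
      g * (8217 • cq8 f g l m B + 725 • cq9 f g l m B) + l * (4166 • cq8 f g l m B + 904 • cq9
      f g l m B + 72 • cq3 g l m k P + 609 • cq8 g l m k P + 200 • cq9 g l m k P) + m * (144 •
      cq4 f g l m B + 14119 • cq8 f g l m B + 1758 • cq9 f g l m B + 1846 • cq8 g l m k P +
      244 • cq9 g l m k P) + k * (242 • cq3 f g l m B + 18067 • cq8 f g l m B + 1643 • cq9 f g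
      l m B + 1104 • cq8 g l m k P + 219 • cq9 g l m k P) + P * (318 • cq3 f g l m B + 50 •
      cq6 f g l m B + 18043 • cq8 f g l m B + 2159 • cq9 f g l m B + 334 • cq9 g l m k P) +
      460853 • (f * g * g) + 4169851 • (f * g * l) + 1016384 • (f * g * m) + 52047 • (f * g *
      k) + 13499 • (f * g * P) + 1981218 • (f * l * l) + 13475 • (f * l * m) + 697329 • (f * l
      * k) + 589671 • (f * l * P) + 6769 • (f * m * m) + 13482 • (f * m * k) + 13374 • (f * m
      * P) + 55826 • (f * k * k) + 57574 • (f * k * P) + 1748 • (f * P * P) + 766331 • (g * g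
      * g) + 2505436 • (g * g * l) + 64742 • (g * g * m) + 34058 • (g * g * k) + 13746 • (g *
      g * P) + 2362650 • (g * l * l) + 19147 • (g * l * m) + 139652 • (g * l * k) + 19328 • (g
      * l * P) + 13247 • (g * m * m) + 19756 • (g * m * k) + 95920 • (g * m * P) + 17809 • (g
      * k * k) + 12895 • (g * k * P) + 1733 • (g * P * P) + 921563 • (l * l * l) + 449159 • (l
      * l * m) + 341430 • (l * l * k) + 13878 • (l * l * P) + 536006 • (l * m * m) + 20478 •
      (l * m * k) + 19667 • (l * m * P) + 7737 • (l * k * k) + 13940 • (l * k * P) + 1657 • (l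
      * P * P) + 189872 • (m * m * m) + 58323 • (m * m * k) + 14166 • (m * m * P) + 22583 • (m
      * k * k) + 13685 • (m * k * P) + 2418 • (m * P * P) := by
    simp only [cq3, cq4, cq6, cq8, cq9, map_add, map_sub, map_nsmul, Derivation.leibniz, smul_eq_mul, H.df, H.dg,
      H.dl, H.dm, dB]
    subst hB
    ring
  rw [e]
  exact
    ((((((((((((((((((((((((((((((((((((((((((((((((((((H.ng n).mul ((u8.nsmul 8217).add
    (u9.nsmul 725))).add ((H.nl n).mul (((((u8.nsmul 4166).add (u9.nsmul 904)).add (s3.nsmul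
    72)).add (s8.nsmul 609)).add (s9.nsmul 200)))).add ((H.nm n).mul (((((u4.nsmul 144).add
    (u8.nsmul 14119)).add (u9.nsmul 1758)).add (s8.nsmul 1846)).add (s9.nsmul 244)))).add
    ((H.nk n).mul (((((u3.nsmul 242).add (u8.nsmul 18067)).add (u9.nsmul 1643)).add (s8.nsmul
    1104)).add (s9.nsmul 219)))).add ((H.nP n).mul (((((u3.nsmul 318).add (u6.nsmul 50)).add
    (u8.nsmul 18043)).add (u9.nsmul 2159)).add (s9.nsmul 334)))).add ((((H.nf n).mul (H.ng
    n)).mul (H.ng n)).nsmul 460853)).add ((((H.nf n).mul (H.ng n)).mul (H.nl n)).nsmul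
    4169851)).add ((((H.nf n).mul (H.ng n)).mul (H.nm n)).nsmul 1016384)).add ((((H.nf n).mul
    (H.ng n)).mul (H.nk n)).nsmul 52047)).add ((((H.nf n).mul (H.ng n)).mul (H.nP n)).nsmul
    13499)).add ((((H.nf n).mul (H.nl n)).mul (H.nl n)).nsmul 1981218)).add ((((H.nf n).mul
    (H.nl n)).mul (H.nm n)).nsmul 13475)).add ((((H.nf n).mul (H.nl n)).mul (H.nk n)).nsmul
    697329)).add ((((H.nf n).mul (H.nl n)).mul (H.nP n)).nsmul 589671)).add ((((H.nf n).mul
    (H.nm n)).mul (H.nm n)).nsmul 6769)).add ((((H.nf n).mul (H.nm n)).mul (H.nk n)).nsmul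
    13482)).add ((((H.nf n).mul (H.nm n)).mul (H.nP n)).nsmul 13374)).add ((((H.nf n).mul
    (H.nk n)).mul (H.nk n)).nsmul 55826)).add ((((H.nf n).mul (H.nk n)).mul (H.nP n)).nsmul
    57574)).add ((((H.nf n).mul (H.nP n)).mul (H.nP n)).nsmul 1748)).add ((((H.ng n).mul (H.ng
    n)).mul (H.ng n)).nsmul 766331)).add ((((H.ng n).mul (H.ng n)).mul (H.nl n)).nsmul
    2505436)).add ((((H.ng n).mul (H.ng n)).mul (H.nm n)).nsmul 64742)).add ((((H.ng n).mul
    (H.ng n)).mul (H.nk n)).nsmul 34058)).add ((((H.ng n).mul (H.ng n)).mul (H.nP n)).nsmul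
    13746)).add ((((H.ng n).mul (H.nl n)).mul (H.nl n)).nsmul 2362650)).add ((((H.ng n).mul
    (H.nl n)).mul (H.nm n)).nsmul 19147)).add ((((H.ng n).mul (H.nl n)).mul (H.nk n)).nsmul
    139652)).add ((((H.ng n).mul (H.nl n)).mul (H.nP n)).nsmul 19328)).add ((((H.ng n).mul
    (H.nm n)).mul (H.nm n)).nsmul 13247)).add ((((H.ng n).mul (H.nm n)).mul (H.nk n)).nsmul
    19756)).add ((((H.ng n).mul (H.nm n)).mul (H.nP n)).nsmul 95920)).add ((((H.ng n).mul
    (H.nk n)).mul (H.nk n)).nsmul 17809)).add ((((H.ng n).mul (H.nk n)).mul (H.nP n)).nsmul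
    12895)).add ((((H.ng n).mul (H.nP n)).mul (H.nP n)).nsmul 1733)).add ((((H.nl n).mul (H.nl
    n)).mul (H.nl n)).nsmul 921563)).add ((((H.nl n).mul (H.nl n)).mul (H.nm n)).nsmul
    449159)).add ((((H.nl n).mul (H.nl n)).mul (H.nk n)).nsmul 341430)).add ((((H.nl n).mul
    (H.nl n)).mul (H.nP n)).nsmul 13878)).add ((((H.nl n).mul (H.nm n)).mul (H.nm n)).nsmul
    536006)).add ((((H.nl n).mul (H.nm n)).mul (H.nk n)).nsmul 20478)).add ((((H.nl n).mul
    (H.nm n)).mul (H.nP n)).nsmul 19667)).add ((((H.nl n).mul (H.nk n)).mul (H.nk n)).nsmul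
    7737)).add ((((H.nl n).mul (H.nk n)).mul (H.nP n)).nsmul 13940)).add ((((H.nl n).mul (H.nP
    n)).mul (H.nP n)).nsmul 1657)).add ((((H.nm n).mul (H.nm n)).mul (H.nm n)).nsmul
    189872)).add ((((H.nm n).mul (H.nm n)).mul (H.nk n)).nsmul 58323)).add ((((H.nm n).mul
    (H.nm n)).mul (H.nP n)).nsmul 14166)).add ((((H.nm n).mul (H.nk n)).mul (H.nk n)).nsmul
    22583)).add ((((H.nm n).mul (H.nk n)).mul (H.nP n)).nsmul 13685)).add ((((H.nm n).mul
    (H.nP n)).mul (H.nP n)).nsmul 2418))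

end Frz
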