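import Pool.Agent.Frz.Forms

set_option autoImplicit false

namespace Frz

open PowerSeries

set_option maxRecDepth 100000 in
theorem step_cq9 {f g l m k P B : PowerSeries ℝ} (H : Lts f g l m k P) (hB : B = k + P)
    (n : ℕ)
    (u3 : TN n (cq3 f g l m B)) (u5 : TN n (cq5 f g l m B)) (u7 : TN n (cq7 f g l m B)) (u8 :
    TN n (cq8 f g l m B)) (u9 : TN n (cq9 f g l m B)) (s5 : TN n (cq5 g l m k P)) (s6 : TN n
    (cq6 g l m k P)) (s8 : TN n (cq8 g l m k P)) (s9 : TN n (cq9 g l m k P)) :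
    TN n (10000 • derivative ℝ (cq9 f g l m B)) := by
  have dB : derivative ℝ B = B * P := by
    rw [hB]
    exact H.dB
  have e : 10000 • derivative ℝ (cq9 f g l m B) =
      f * (836 • cq5 g l m k P + 5206 • cq8 g l m k P + 684 • cq9 g l m k P) + g * (3369 • cq3
      f g l m B + 1338 • cq5 f g l m B + 241 • cq7 f g l m B + 910 • cq8 f g l m B + 592 • cq9
      f g l m B + 14 • cq5 g l m k P) + l * (1934 • cq5 f g l m B + 4105 • cq9 f g l m B + 248
      • cq6 g l m k P + 8309 • cq8 g l m k P + 9855 • cq9 g l m k P) + m * (5715 • cq3 f g l m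
      B + 8548 • cq9 f g l m B + 1270 • cq9 g l m k P) + k * (1865 • cq3 f g l m B + 1442 •
      cq8 f g l m B + 9168 • cq9 f g l m B + 21465 • cq8 g l m k P + 4617 • cq9 g l m k P) + P
      * (3969 • cq3 f g l m B + 26 • cq7 f g l m B + 19980 • cq9 f g l m B + 53 • cq8 g l m k
      P + 6349 • cq9 g l m k P) + 183167 • (f * g * g) + 693245 • (f * g * l) + 1451762 • (f *
      g * m) + 16524 • (f * g * k) + 16696 • (f * g * P) + 7936 • (f * l * l) + 280886 • (f *
      l * m) + 979657 • (f * l * k) + 16885 • (f * l * P) + 7363 • (f * m * m) + 15670 • (f *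
      m * k) + 210938 • (f * m * P) + 8175 • (f * k * k) + 53174 • (f * k * P) + 2363 • (f * P
      * P) + 238680 • (g * g * g) + 620944 • (g * g * l) + 16482 • (g * g * m) + 122399 • (g *
      g * k) + 16591 • (g * g * P) + 15371 • (g * l * l) + 23175 • (g * l * m) + 504630 • (g *
      l * k) + 24383 • (g * l * P) + 16311 • (g * m * m) + 24941 • (g * m * k) + 174619 • (g *
      m * P) + 8502 • (g * k * k) + 16339 • (g * k * P) + 1967 • (g * P * P) + 8234 • (l * l *
      l) + 925880 • (l * l * m) + 1554354 • (l * l * k) + 16492 • (l * l * P) + 15737 • (l * m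
      * m) + 8227735 • (l * m * k) + 23785 • (l * m * P) + 587857 • (l * k * k) + 16792 • (l *
      k * P) + 2583 • (l * P * P) + 1184380 • (m * m * m) + 2859890 • (m * m * k) + 16352 • (m
      * m * P) + 59624 • (m * k * k) + 16230 • (m * k * P) + 2630 • (m * P * P) := by
    simp only [cq3, cq5, cq6, cq7, cq8, cq9, map_add, map_sub, map_nsmul, Derivation.leibniz, smul_eq_mul, H.df, H.dg,
      H.dl, H.dm, dB]
    subst hB
    ring
  rw [e]
  exact
    (((((((((((((((((((((((((((((((((((((((((((((((((((((H.nf n).mul (((s5.nsmul 836).add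
    (s8.nsmul 5206)).add (s9.nsmul 684))).add ((H.ng n).mul ((((((u3.nsmul 3369).add (u5.nsmul
    1338)).add (u7.nsmul 241)).add (u8.nsmul 910)).add (u9.nsmul 592)).add (s5.nsmul
    14)))).add ((H.nl n).mul (((((u5.nsmul 1934).add (u9.nsmul 4105)).add (s6.nsmul 248)).add
    (s8.nsmul 8309)).add (s9.nsmul 9855)))).add ((H.nm n).mul (((u3.nsmul 5715).add (u9.nsmul
    8548)).add (s9.nsmul 1270)))).add ((H.nk n).mul (((((u3.nsmul 1865).add (u8.nsmul
    1442)).add (u9.nsmul 9168)).add (s8.nsmul 21465)).add (s9.nsmul 4617)))).add ((H.nP n).mul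
    (((((u3.nsmul 3969).add (u7.nsmul 26)).add (u9.nsmul 19980)).add (s8.nsmul 53)).add
    (s9.nsmul 6349)))).add ((((H.nf n).mul (H.ng n)).mul (H.ng n)).nsmul 183167)).add ((((H.nf
    n).mul (H.ng n)).mul (H.nl n)).nsmul 693245)).add ((((H.nf n).mul (H.ng n)).mul (H.nm
    n)).nsmul 1451762)).add ((((H.nf n).mul (H.ng n)).mul (H.nk n)).nsmul 16524)).add ((((H.nf
    n).mul (H.ng n)).mul (H.nP n)).nsmul 16696)).add ((((H.nf n).mul (H.nl n)).mul (H.nl
    n)).nsmul 7936)).add ((((H.nf n).mul (H.nl n)).mul (H.nm n)).nsmul 280886)).add ((((H.nf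
    n).mul (H.nl n)).mul (H.nk n)).nsmul 979657)).add ((((H.nf n).mul (H.nl n)).mul (H.nP
    n)).nsmul 16885)).add ((((H.nf n).mul (H.nm n)).mul (H.nm n)).nsmul 7363)).add ((((H.nf
    n).mul (H.nm n)).mul (H.nk n)).nsmul 15670)).add ((((H.nf n).mul (H.nm n)).mul (H.nP
    n)).nsmul 210938)).add ((((H.nf n).mul (H.nk n)).mul (H.nk n)).nsmul 8175)).add ((((H.nf
    n).mul (H.nk n)).mul (H.nP n)).nsmul 53174)).add ((((H.nf n).mul (H.nP n)).mul (H.nP
    n)).nsmul 2363)).add ((((H.ng n).mul (H.ng n)).mul (H.ng n)).nsmul 238680)).add ((((H.ng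
    n).mul (H.ng n)).mul (H.nl n)).nsmul 620944)).add ((((H.ng n).mul (H.ng n)).mul (H.nm
    n)).nsmul 16482)).add ((((H.ng n).mul (H.ng n)).mul (H.nk n)).nsmul 122399)).add ((((H.ng
    n).mul (H.ng n)).mul (H.nP n)).nsmul 16591)).add ((((H.ng n).mul (H.nl n)).mul (H.nl
    n)).nsmul 15371)).add ((((H.ng n).mul (H.nl n)).mul (H.nm n)).nsmul 23175)).add ((((H.ng
    n).mul (H.nl n)).mul (H.nk n)).nsmul 504630)).add ((((H.ng n).mul (H.nl n)).mul (H.nP
    n)).nsmul 24383)).add ((((H.ng n).mul (H.nm n)).mul (H.nm n)).nsmul 16311)).add ((((H.ng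
    n).mul (H.nm n)).mul (H.nk n)).nsmul 24941)).add ((((H.ng n).mul (H.nm n)).mul (H.nP
    n)).nsmul 174619)).add ((((H.ng n).mul (H.nk n)).mul (H.nk n)).nsmul 8502)).add ((((H.ng
    n).mul (H.nk n)).mul (H.nP n)).nsmul 16339)).add ((((H.ng n).mul (H.nP n)).mul (H.nP
    n)).nsmul 1967)).add ((((H.nl n).mul (H.nl n)).mul (H.nl n)).nsmul 8234)).add ((((H.nl
    n).mul (H.nl n)).mul (H.nm n)).nsmul 925880)).add ((((H.nl n).mul (H.nl n)).mul (H.nk
    n)).nsmul 1554354)).add ((((H.nl n).mul (H.nl n)).mul (H.nP n)).nsmul 16492)).add ((((H.nl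
    n).mul (H.nm n)).mul (H.nm n)).nsmul 15737)).add ((((H.nl n).mul (H.nm n)).mul (H.nk
    n)).nsmul 8227735)).add ((((H.nl n).mul (H.nm n)).mul (H.nP n)).nsmul 23785)).add ((((H.nl
    n).mul (H.nk n)).mul (H.nk n)).nsmul 587857)).add ((((H.nl n).mul (H.nk n)).mul (H.nP
    n)).nsmul 16792)).add ((((H.nl n).mul (H.nP n)).mul (H.nP n)).nsmul 2583)).add ((((H.nm
    n).mul (H.nm n)).mul (H.nm n)).nsmul 1184380)).add ((((H.nm n).mul (H.nm n)).mul (H.nk
    n)).nsmul 2859890)).add ((((H.nm n).mul (H.nm n)).mul (H.nP n)).nsmul 16352)).add ((((H.nm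
    n).mul (H.nk n)).mul (H.nk n)).nsmul 59624)).add ((((H.nm n).mul (H.nk n)).mul (H.nP
    n)).nsmul 16230)).add ((((H.nm n).mul (H.nP n)).mul (H.nP n)).nsmul 2630))

end Frz
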