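import Pool.Agent.Frz.Forms

set_option autoImplicit false

namespace Frz

open PowerSeries

set_option maxRecDepth 100000 in
theorem step_cR1 {f g l m k P B : PowerSeries ℝ} (H : Lts f g l m k P) (hB : B = k + P)
    (n : ℕ)
    (u1 : TN n (cR1 f g l m B)) (u2 : TN n (cLam f g l m B)) (u4 : TN n (cq4 f g l m B)) (u5 :
    TN n (cq5 f g l m B)) (u6 : TN n (cq6 f g l m B)) (u7 : TN n (cq7 f g l m B)) (u8 : TN n
    (cq8 f g l m B)) (u9 : TN n (cq9 f g l m B)) (s6 : TN n (cq6 g l m k P)) (s7 : TN n (cq7 g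
    l m k P)) (s8 : TN n (cq8 g l m k P)) :
    TN n (10000 • derivative ℝ (cR1 f g l m B)) := by
  have dB : derivative ℝ B = B * P := by
    rw [hB]
    exact H.dB
  have e : 10000 • derivative ℝ (cR1 f g l m B) =
      f * (2422 • cq8 g l m k P) + g * (760 • cq5 f g l m B + 12 • cq7 f g l m B + 158 • cq7 g
      l m k P + 104 • cq8 g l m k P) + l * (3496 • cq4 f g l m B + 130 • cq6 g l m k P + 16 •
      cq7 g l m k P) + m * (11438 • cR1 f g l m B + 763 • cLam f g l m B + 596 • cq4 f g l m B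
      + 194 • cq6 f g l m B + 412 • cq7 f g l m B + 326 • cq8 f g l m B) + k * (14428 • cR1 f
      g l m B + 38 • cq6 f g l m B + 94 • cq7 f g l m B + 180 • cq8 f g l m B + 948 • cq9 f g
      l m B) + P * (14743 • cR1 f g l m B + 1604 • cq6 f g l m B + 76 • cq8 f g l m B + 74 •
      cq7 g l m k P) + 1375396 • (f * g * g) + 1763834 • (f * g * l) + 298567 • (f * g * m) +
      24416 • (f * g * k) + 10360 • (f * g * P) + 155418 • (f * l * l) + 59387 • (f * l * m) +
      46386 • (f * l * k) + 10058 • (f * l * P) + 5010 • (f * m * m) + 10278 • (f * m * k) +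
      9953 • (f * m * P) + 8644 • (f * k * k) + 10123 • (f * k * P) + 1479 • (f * P * P) +
      1376084 • (g * g * g) + 54978 • (g * g * l) + 10209 • (g * g * m) + 10712 • (g * g * k)
      + 10987 • (g * g * P) + 10394 • (g * l * l) + 14677 • (g * l * m) + 14612 • (g * l * k)
      + 15272 • (g * l * P) + 9765 • (g * m * m) + 15323 • (g * m * k) + 15332 • (g * m * P) +
      4872 • (g * k * k) + 44705 • (g * k * P) + 1779 • (g * P * P) + 29908 • (l * l * l) +
      10928 • (l * l * m) + 9306 • (l * l * k) + 10207 • (l * l * P) + 190714 • (l * m * m) +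
      1671576 • (l * m * k) + 1071557 • (l * m * P) + 385178 • (l * k * k) + 307923 • (l * k *
      P) + 583 • (l * P * P) + 479036 • (m * m * m) + 2485236 • (m * m * k) + 1703100 • (m * m
      * P) + 2335706 • (m * k * k) + 3609624 • (m * k * P) + 1436422 • (m * P * P) + 540000 •
      (k * k * k) + 972330 • (k * k * P) + 458748 • (k * P * P) := by
    simp only [cLam, cR1, cq4, cq5, cq6, cq7, cq8, cq9, map_add, map_sub, map_nsmul, Derivation.leibniz, smul_eq_mul, H.df, H.dg,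
      H.dl, H.dm, dB]
    subst hB
    ring
  rw [e]
  exact
    ((((((((((((((((((((((((((((((((((((((((((((((((((((((((H.nf n).mul (s8.nsmul 2422)).add
    ((H.ng n).mul ((((u5.nsmul 760).add (u7.nsmul 12)).add (s7.nsmul 158)).add (s8.nsmul
    104)))).add ((H.nl n).mul (((u4.nsmul 3496).add (s6.nsmul 130)).add (s7.nsmul 16)))).add
    ((H.nm n).mul ((((((u1.nsmul 11438).add (u2.nsmul 763)).add (u4.nsmul 596)).add (u6.nsmul
    194)).add (u7.nsmul 412)).add (u8.nsmul 326)))).add ((H.nk n).mul (((((u1.nsmul 14428).add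
    (u6.nsmul 38)).add (u7.nsmul 94)).add (u8.nsmul 180)).add (u9.nsmul 948)))).add ((H.nP
    n).mul ((((u1.nsmul 14743).add (u6.nsmul 1604)).add (u8.nsmul 76)).add (s7.nsmul
    74)))).add ((((H.nf n).mul (H.ng n)).mul (H.ng n)).nsmul 1375396)).add ((((H.nf n).mul
    (H.ng n)).mul (H.nl n)).nsmul 1763834)).add ((((H.nf n).mul (H.ng n)).mul (H.nm n)).nsmul
    298567)).add ((((H.nf n).mul (H.ng n)).mul (H.nk n)).nsmul 24416)).add ((((H.nf n).mul
    (H.ng n)).mul (H.nP n)).nsmul 10360)).add ((((H.nf n).mul (H.nl n)).mul (H.nl n)).nsmul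
    155418)).add ((((H.nf n).mul (H.nl n)).mul (H.nm n)).nsmul 59387)).add ((((H.nf n).mul
    (H.nl n)).mul (H.nk n)).nsmul 46386)).add ((((H.nf n).mul (H.nl n)).mul (H.nP n)).nsmul
    10058)).add ((((H.nf n).mul (H.nm n)).mul (H.nm n)).nsmul 5010)).add ((((H.nf n).mul (H.nm
    n)).mul (H.nk n)).nsmul 10278)).add ((((H.nf n).mul (H.nm n)).mul (H.nP n)).nsmul
    9953)).add ((((H.nf n).mul (H.nk n)).mul (H.nk n)).nsmul 8644)).add ((((H.nf n).mul (H.nk
    n)).mul (H.nP n)).nsmul 10123)).add ((((H.nf n).mul (H.nP n)).mul (H.nP n)).nsmul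
    1479)).add ((((H.ng n).mul (H.ng n)).mul (H.ng n)).nsmul 1376084)).add ((((H.ng n).mul
    (H.ng n)).mul (H.nl n)).nsmul 54978)).add ((((H.ng n).mul (H.ng n)).mul (H.nm n)).nsmul
    10209)).add ((((H.ng n).mul (H.ng n)).mul (H.nk n)).nsmul 10712)).add ((((H.ng n).mul
    (H.ng n)).mul (H.nP n)).nsmul 10987)).add ((((H.ng n).mul (H.nl n)).mul (H.nl n)).nsmul
    10394)).add ((((H.ng n).mul (H.nl n)).mul (H.nm n)).nsmul 14677)).add ((((H.ng n).mul
    (H.nl n)).mul (H.nk n)).nsmul 14612)).add ((((H.ng n).mul (H.nl n)).mul (H.nP n)).nsmul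
    15272)).add ((((H.ng n).mul (H.nm n)).mul (H.nm n)).nsmul 9765)).add ((((H.ng n).mul (H.nm
    n)).mul (H.nk n)).nsmul 15323)).add ((((H.ng n).mul (H.nm n)).mul (H.nP n)).nsmul
    15332)).add ((((H.ng n).mul (H.nk n)).mul (H.nk n)).nsmul 4872)).add ((((H.ng n).mul (H.nk
    n)).mul (H.nP n)).nsmul 44705)).add ((((H.ng n).mul (H.nP n)).mul (H.nP n)).nsmul
    1779)).add ((((H.nl n).mul (H.nl n)).mul (H.nl n)).nsmul 29908)).add ((((H.nl n).mul (H.nl
    n)).mul (H.nm n)).nsmul 10928)).add ((((H.nl n).mul (H.nl n)).mul (H.nk n)).nsmul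
    9306)).add ((((H.nl n).mul (H.nl n)).mul (H.nP n)).nsmul 10207)).add ((((H.nl n).mul (H.nm
    n)).mul (H.nm n)).nsmul 190714)).add ((((H.nl n).mul (H.nm n)).mul (H.nk n)).nsmul
    1671576)).add ((((H.nl n).mul (H.nm n)).mul (H.nP n)).nsmul 1071557)).add ((((H.nl n).mul
    (H.nk n)).mul (H.nk n)).nsmul 385178)).add ((((H.nl n).mul (H.nk n)).mul (H.nP n)).nsmul
    307923)).add ((((H.nl n).mul (H.nP n)).mul (H.nP n)).nsmul 583)).add ((((H.nm n).mul (H.nm
    n)).mul (H.nm n)).nsmul 479036)).add ((((H.nm n).mul (H.nm n)).mul (H.nk n)).nsmul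
    2485236)).add ((((H.nm n).mul (H.nm n)).mul (H.nP n)).nsmul 1703100)).add ((((H.nm n).mul
    (H.nk n)).mul (H.nk n)).nsmul 2335706)).add ((((H.nm n).mul (H.nk n)).mul (H.nP n)).nsmul
    3609624)).add ((((H.nm n).mul (H.nP n)).mul (H.nP n)).nsmul 1436422)).add ((((H.nk n).mul
    (H.nk n)).mul (H.nk n)).nsmul 540000)).add ((((H.nk n).mul (H.nk n)).mul (H.nP n)).nsmul
    972330)).add ((((H.nk n).mul (H.nP n)).mul (H.nP n)).nsmul 458748))

end Frz
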