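import Pool.Agent.Frz.Forms

set_option autoImplicit false

namespace Frz

open PowerSeries

set_option maxRecDepth 100000 in
theorem step_cR2 {f g l m k P B : PowerSeries ℝ} (H : Lts f g l m k P) (hB : B = k + P)
    (n : ℕ)
    (u11 : TN n (cT f g l m B)) (s11 : TN n (cT g l m k P)) :
    TN n (1 • derivative ℝ (cR2 f g l m B)) := by
  have dB : derivative ℝ B = B * P := by
    rw [hB]
    exact H.dB
  have e : 1 • derivative ℝ (cR2 f g l m B) =
      g * (6 • cT g l m k P) + l * (2 • cT g l m k P) + m * (22 • cT f g l m B + 8 • cT g l m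
      k P) + k * (22 • cT f g l m B + 8 • cT g l m k P) + P * (22 • cT f g l m B + 8 • cT g l
      m k P) + 107 • (f * g * g) + 160 • (f * g * l) + 28 • (f * g * m) + 28 • (f * g * k) +
      28 • (f * g * P) + 53 • (f * l * l) + 55 • (f * l * m) + 55 • (f * l * k) + 55 • (f * l
      * P) + 2 • (f * m * m) + 4 • (f * m * k) + 4 • (f * m * P) + 2 • (f * k * k) + 4 • (f *
      k * P) + 2 • (f * P * P) + 107 • (g * g * g) + 123 • (g * g * l) + 13 • (g * g * m) + 13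
      • (g * g * k) + 13 • (g * g * P) + 45 • (g * l * l) + 7 • (g * l * m) + 7 • (g * l * k)
      + 7 • (g * l * P) + 4 • (g * m * m) + 8 • (g * m * k) + 8 • (g * m * P) + 4 • (g * k *
      k) + 8 • (g * k * P) + 4 • (g * P * P) + 37 • (l * l * l) + 34 • (l * l * m) + 34 • (l *
      l * k) + 34 • (l * l * P) + 21 • (l * m * m) + 42 • (l * m * k) + 42 • (l * m * P) + 21
      • (l * k * k) + 42 • (l * k * P) + 21 • (l * P * P) := by
    simp only [cR2, cT, map_add, map_sub, map_nsmul, Derivation.leibniz, smul_eq_mul, H.df, H.dg,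
      H.dl, H.dm, dB]
    subst hB
    ring
  rw [e]
  exact
    ((((((((((((((((((((((((((((((((((((((((((((((H.ng n).mul (s11.nsmul 6)).add ((H.nl n).mul
    (s11.nsmul 2))).add ((H.nm n).mul ((u11.nsmul 22).add (s11.nsmul 8)))).add ((H.nk n).mul
    ((u11.nsmul 22).add (s11.nsmul 8)))).add ((H.nP n).mul ((u11.nsmul 22).add (s11.nsmul
    8)))).add ((((H.nf n).mul (H.ng n)).mul (H.ng n)).nsmul 107)).add ((((H.nf n).mul (H.ng
    n)).mul (H.nl n)).nsmul 160)).add ((((H.nf n).mul (H.ng n)).mul (H.nm n)).nsmul 28)).add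
    ((((H.nf n).mul (H.ng n)).mul (H.nk n)).nsmul 28)).add ((((H.nf n).mul (H.ng n)).mul (H.nP
    n)).nsmul 28)).add ((((H.nf n).mul (H.nl n)).mul (H.nl n)).nsmul 53)).add ((((H.nf n).mul
    (H.nl n)).mul (H.nm n)).nsmul 55)).add ((((H.nf n).mul (H.nl n)).mul (H.nk n)).nsmul
    55)).add ((((H.nf n).mul (H.nl n)).mul (H.nP n)).nsmul 55)).add ((((H.nf n).mul (H.nm
    n)).mul (H.nm n)).nsmul 2)).add ((((H.nf n).mul (H.nm n)).mul (H.nk n)).nsmul 4)).add
    ((((H.nf n).mul (H.nm n)).mul (H.nP n)).nsmul 4)).add ((((H.nf n).mul (H.nk n)).mul (H.nk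
    n)).nsmul 2)).add ((((H.nf n).mul (H.nk n)).mul (H.nP n)).nsmul 4)).add ((((H.nf n).mul
    (H.nP n)).mul (H.nP n)).nsmul 2)).add ((((H.ng n).mul (H.ng n)).mul (H.ng n)).nsmul
    107)).add ((((H.ng n).mul (H.ng n)).mul (H.nl n)).nsmul 123)).add ((((H.ng n).mul (H.ng
    n)).mul (H.nm n)).nsmul 13)).add ((((H.ng n).mul (H.ng n)).mul (H.nk n)).nsmul 13)).add
    ((((H.ng n).mul (H.ng n)).mul (H.nP n)).nsmul 13)).add ((((H.ng n).mul (H.nl n)).mul (H.nl
    n)).nsmul 45)).add ((((H.ng n).mul (H.nl n)).mul (H.nm n)).nsmul 7)).add ((((H.ng n).mul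
    (H.nl n)).mul (H.nk n)).nsmul 7)).add ((((H.ng n).mul (H.nl n)).mul (H.nP n)).nsmul
    7)).add ((((H.ng n).mul (H.nm n)).mul (H.nm n)).nsmul 4)).add ((((H.ng n).mul (H.nm
    n)).mul (H.nk n)).nsmul 8)).add ((((H.ng n).mul (H.nm n)).mul (H.nP n)).nsmul 8)).add
    ((((H.ng n).mul (H.nk n)).mul (H.nk n)).nsmul 4)).add ((((H.ng n).mul (H.nk n)).mul (H.nP
    n)).nsmul 8)).add ((((H.ng n).mul (H.nP n)).mul (H.nP n)).nsmul 4)).add ((((H.nl n).mul
    (H.nl n)).mul (H.nl n)).nsmul 37)).add ((((H.nl n).mul (H.nl n)).mul (H.nm n)).nsmul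
    34)).add ((((H.nl n).mul (H.nl n)).mul (H.nk n)).nsmul 34)).add ((((H.nl n).mul (H.nl
    n)).mul (H.nP n)).nsmul 34)).add ((((H.nl n).mul (H.nm n)).mul (H.nm n)).nsmul 21)).add
    ((((H.nl n).mul (H.nm n)).mul (H.nk n)).nsmul 42)).add ((((H.nl n).mul (H.nm n)).mul (H.nP
    n)).nsmul 42)).add ((((H.nl n).mul (H.nk n)).mul (H.nk n)).nsmul 21)).add ((((H.nl n).mul
    (H.nk n)).mul (H.nP n)).nsmul 42)).add ((((H.nl n).mul (H.nP n)).mul (H.nP n)).nsmul 21))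

end Frz
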