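import Pool.Agent.Frz.Forms

set_option autoImplicit false

namespace Frz

open PowerSeries

set_option maxRecDepth 100000 in
theorem step_cT {f g l m k P B : PowerSeries ℝ} (H : Lts f g l m k P) (hB : B = k + P)
    (n : ℕ)
    (u11 : TN n (cT f g l m B)) (s11 : TN n (cT g l m k P)) :
    TN n (100 • derivative ℝ (cT f g l m B)) := by
  have dB : derivative ℝ B = B * P := by
    rw [hB]
    exact H.dB
  have e : 100 • derivative ℝ (cT f g l m B) =
      f * (34 • cT g l m k P) + g * (73 • cT f g l m B + 45 • cT g l m k P) + l * (37 • cT f g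
      l m B) + m * (200 • cT f g l m B + 100 • cT g l m k P) + k * (200 • cT f g l m B + 100 •
      cT g l m k P) + P * (200 • cT f g l m B + 100 • cT g l m k P) + 162 • (f * g * g) + 639
      • (f * g * l) + 35 • (f * g * m) + 35 • (f * g * k) + 35 • (f * g * P) + 13 • (f * l *
      l) + 149 • (f * l * m) + 149 • (f * l * k) + 149 • (f * l * P) + 16 • (g * g * g) + 842
      • (g * g * l) + 33 • (g * g * m) + 33 • (g * g * k) + 33 • (g * g * P) + 992 • (g * l *
      l) + 72 • (g * l * m) + 72 • (g * l * k) + 72 • (g * l * P) + 400 • (l * l * l) := by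
    simp only [cT, map_add, map_sub, map_nsmul, Derivation.leibniz, smul_eq_mul, H.df, H.dg,
      H.dl, H.dm, dB]
    subst hB
    ring
  rw [e]
  exact
    ((((((((((((((((((((((((((H.nf n).mul (s11.nsmul 34)).add ((H.ng n).mul ((u11.nsmul
    73).add (s11.nsmul 45)))).add ((H.nl n).mul (u11.nsmul 37))).add ((H.nm n).mul ((u11.nsmul
    200).add (s11.nsmul 100)))).add ((H.nk n).mul ((u11.nsmul 200).add (s11.nsmul 100)))).add
    ((H.nP n).mul ((u11.nsmul 200).add (s11.nsmul 100)))).add ((((H.nf n).mul (H.ng n)).mul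
    (H.ng n)).nsmul 162)).add ((((H.nf n).mul (H.ng n)).mul (H.nl n)).nsmul 639)).add ((((H.nf
    n).mul (H.ng n)).mul (H.nm n)).nsmul 35)).add ((((H.nf n).mul (H.ng n)).mul (H.nk
    n)).nsmul 35)).add ((((H.nf n).mul (H.ng n)).mul (H.nP n)).nsmul 35)).add ((((H.nf n).mul
    (H.nl n)).mul (H.nl n)).nsmul 13)).add ((((H.nf n).mul (H.nl n)).mul (H.nm n)).nsmul
    149)).add ((((H.nf n).mul (H.nl n)).mul (H.nk n)).nsmul 149)).add ((((H.nf n).mul (H.nl
    n)).mul (H.nP n)).nsmul 149)).add ((((H.ng n).mul (H.ng n)).mul (H.ng n)).nsmul 16)).add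
    ((((H.ng n).mul (H.ng n)).mul (H.nl n)).nsmul 842)).add ((((H.ng n).mul (H.ng n)).mul
    (H.nm n)).nsmul 33)).add ((((H.ng n).mul (H.ng n)).mul (H.nk n)).nsmul 33)).add ((((H.ng
    n).mul (H.ng n)).mul (H.nP n)).nsmul 33)).add ((((H.ng n).mul (H.nl n)).mul (H.nl
    n)).nsmul 992)).add ((((H.ng n).mul (H.nl n)).mul (H.nm n)).nsmul 72)).add ((((H.ng n).mul
    (H.nl n)).mul (H.nk n)).nsmul 72)).add ((((H.ng n).mul (H.nl n)).mul (H.nP n)).nsmul
    72)).add ((((H.nl n).mul (H.nl n)).mul (H.nl n)).nsmul 400))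

end Frz
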