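import Pool.Agent.Frz.StepR0
import Pool.Agent.Frz.StepR1
import Pool.Agent.Frz.StepLam
import Pool.Agent.Frz.StepQ3
import Pool.Agent.Frz.StepQ4
import Pool.Agent.Frz.StepQ5
import Pool.Agent.Frz.StepQ6
import Pool.Agent.Frz.StepQ7
import Pool.Agent.Frz.StepQ8
import Pool.Agent.Frz.StepQ9
import Pool.Agent.Frz.StepR2
import Pool.Agent.Frz.StepT

set_option autoImplicit false

/-!
# MP_66bb51_pr: all forms of the family have nonnegative coefficients
-/

namespace Frz

open PowerSeries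

/-- the forms of the family -/
noncomputable def famV : Fin 12 → PowerSeries ℝ → PowerSeries ℝ → PowerSeries ℝ → PowerSeries ℝ →
    PowerSeries ℝ → PowerSeries ℝ := ![cR0, cR1, cLam, cq3, cq4, cq5, cq6, cq7, cq8, cq9, cR2, cT]

/-- the first level at which the form is nonnegative -/
def famH : Fin 12 → ℕ := ![2, 2, 0, 0, 0, 0, 0, 0, 0, 0, 0, 0]

/-- the form number `i` at level `h` -/
noncomputable def famQ (A : ℕ → PowerSeries ℝ) (i : Fin 12) (h : ℕ) : PowerSeries ℝ :=
  famV i (A (h + 4) - A (h + 3)) (A (h + 3) - A (h + 2)) (A (h + 2) - A (h + 1)) (A (h + 1) - A h)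
    (A h)

variable {A : ℕ → PowerSeries ℝ}

theorem base_cR0 (hA : Lev A) (h : ℕ) (hh : 2 ≤ h) :
    0 ≤ coeff 0 (cR0 (A (h + 4) - A (h + 3)) (A (h + 3) - A (h + 2)) (A (h + 2) - A (h + 1))
      (A (h + 1) - A h) (A h)) := by
  have c0 := fun k => hA.coeff_zero k
  simp only [coeff_zero_eq_constantCoeff_apply] at c0 ⊢
  rcases h with _ | _ | _ | _ | h
  · first
    | omega
    | (simp only [cR0, map_add, map_sub, map_nsmul, map_mul, c0]; norm_num)
  · first
    | omega
    | (simp only [cR0, map_add, map_sub, map_nsmul, map_mul, c0]; norm_num)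
  · simp only [cR0, map_add, map_sub, map_nsmul, map_mul, c0]
    norm_num
  · simp only [cR0, map_add, map_sub, map_nsmul, map_mul, c0]
    norm_num
  · simp only [cR0, map_add, map_sub, map_nsmul, map_mul, c0]
    norm_num

theorem base_cR1 (hA : Lev A) (h : ℕ) (hh : 2 ≤ h) :
    0 ≤ coeff 0 (cR1 (A (h + 4) - A (h + 3)) (A (h + 3) - A (h + 2)) (A (h + 2) - A (h + 1))
      (A (h + 1) - A h) (A h)) := by
  have c0 := fun k => hA.coeff_zero k
  simp only [coeff_zero_eq_constantCoeff_apply] at c0 ⊢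
  rcases h with _ | _ | _ | _ | h
  · first
    | omega
    | (simp only [cR1, map_add, map_sub, map_nsmul, map_mul, c0]; norm_num)
  · first
    | omega
    | (simp only [cR1, map_add, map_sub, map_nsmul, map_mul, c0]; norm_num)
  · simp only [cR1, map_add, map_sub, map_nsmul, map_mul, c0]
    norm_num
  · simp only [cR1, map_add, map_sub, map_nsmul, map_mul, c0]
    norm_num
  · simp only [cR1, map_add, map_sub, map_nsmul, map_mul, c0]
    norm_num

theorem base_cLam (hA : Lev A) (h : ℕ) (hh : 0 ≤ h) :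
    0 ≤ coeff 0 (cLam (A (h + 4) - A (h + 3)) (A (h + 3) - A (h + 2)) (A (h + 2) - A (h + 1))
      (A (h + 1) - A h) (A h)) := by
  have c0 := fun k => hA.coeff_zero k
  simp only [coeff_zero_eq_constantCoeff_apply] at c0 ⊢
  rcases h with _ | _ | _ | _ | h
  · first
    | omega
    | (simp only [cLam, map_add, map_sub, map_nsmul, map_mul, c0]; norm_num)
  · first
    | omega
    | (simp only [cLam, map_add, map_sub, map_nsmul, map_mul, c0]; norm_num)
  · simp only [cLam, map_add, map_sub, map_nsmul, map_mul, c0]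
    norm_num
  · simp only [cLam, map_add, map_sub, map_nsmul, map_mul, c0]
    norm_num
  · simp only [cLam, map_add, map_sub, map_nsmul, map_mul, c0]
    norm_num

theorem base_cq3 (hA : Lev A) (h : ℕ) (hh : 0 ≤ h) :
    0 ≤ coeff 0 (cq3 (A (h + 4) - A (h + 3)) (A (h + 3) - A (h + 2)) (A (h + 2) - A (h + 1))
      (A (h + 1) - A h) (A h)) := by
  have c0 := fun k => hA.coeff_zero k
  simp only [coeff_zero_eq_constantCoeff_apply] at c0 ⊢
  rcases h with _ | _ | _ | _ | h
  · first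
    | omega
    | (simp only [cq3, map_add, map_sub, map_nsmul, map_mul, c0]; norm_num)
  · first
    | omega
    | (simp only [cq3, map_add, map_sub, map_nsmul, map_mul, c0]; norm_num)
  · simp only [cq3, map_add, map_sub, map_nsmul, map_mul, c0]
    norm_num
  · simp only [cq3, map_add, map_sub, map_nsmul, map_mul, c0]
    norm_num
  · simp only [cq3, map_add, map_sub, map_nsmul, map_mul, c0]
    norm_num

theorem base_cq4 (hA : Lev A) (h : ℕ) (hh : 0 ≤ h) :
    0 ≤ coeff 0 (cq4 (A (h + 4) - A (h + 3)) (A (h + 3) - A (h + 2)) (A (h + 2) - A (h + 1))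
      (A (h + 1) - A h) (A h)) := by
  have c0 := fun k => hA.coeff_zero k
  simp only [coeff_zero_eq_constantCoeff_apply] at c0 ⊢
  rcases h with _ | _ | _ | _ | h
  · first
    | omega
    | (simp only [cq4, map_add, map_sub, map_nsmul, map_mul, c0]; norm_num)
  · first
    | omega
    | (simp only [cq4, map_add, map_sub, map_nsmul, map_mul, c0]; norm_num)
  · simp only [cq4, map_add, map_sub, map_nsmul, map_mul, c0]
    norm_num
  · simp only [cq4, map_add, map_sub, map_nsmul, map_mul, c0]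
    norm_num
  · simp only [cq4, map_add, map_sub, map_nsmul, map_mul, c0]
    norm_num

theorem base_cq5 (hA : Lev A) (h : ℕ) (hh : 0 ≤ h) :
    0 ≤ coeff 0 (cq5 (A (h + 4) - A (h + 3)) (A (h + 3) - A (h + 2)) (A (h + 2) - A (h + 1))
      (A (h + 1) - A h) (A h)) := by
  have c0 := fun k => hA.coeff_zero k
  simp only [coeff_zero_eq_constantCoeff_apply] at c0 ⊢
  rcases h with _ | _ | _ | _ | h
  · first
    | omega
    | (simp only [cq5, map_add, map_sub, map_nsmul, map_mul, c0]; norm_num)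
  · first
    | omega
    | (simp only [cq5, map_add, map_sub, map_nsmul, map_mul, c0]; norm_num)
  · simp only [cq5, map_add, map_sub, map_nsmul, map_mul, c0]
    norm_num
  · simp only [cq5, map_add, map_sub, map_nsmul, map_mul, c0]
    norm_num
  · simp only [cq5, map_add, map_sub, map_nsmul, map_mul, c0]
    norm_num

theorem base_cq6 (hA : Lev A) (h : ℕ) (hh : 0 ≤ h) :
    0 ≤ coeff 0 (cq6 (A (h + 4) - A (h + 3)) (A (h + 3) - A (h + 2)) (A (h + 2) - A (h + 1))
      (A (h + 1) - A h) (A h)) := by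
  have c0 := fun k => hA.coeff_zero k
  simp only [coeff_zero_eq_constantCoeff_apply] at c0 ⊢
  rcases h with _ | _ | _ | _ | h
  · first
    | omega
    | (simp only [cq6, map_add, map_sub, map_nsmul, map_mul, c0]; norm_num)
  · first
    | omega
    | (simp only [cq6, map_add, map_sub, map_nsmul, map_mul, c0]; norm_num)
  · simp only [cq6, map_add, map_sub, map_nsmul, map_mul, c0]
    norm_num
  · simp only [cq6, map_add, map_sub, map_nsmul, map_mul, c0]
    norm_num
  · simp only [cq6, map_add, map_sub, map_nsmul, map_mul, c0]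
    norm_num

theorem base_cq7 (hA : Lev A) (h : ℕ) (hh : 0 ≤ h) :
    0 ≤ coeff 0 (cq7 (A (h + 4) - A (h + 3)) (A (h + 3) - A (h + 2)) (A (h + 2) - A (h + 1))
      (A (h + 1) - A h) (A h)) := by
  have c0 := fun k => hA.coeff_zero k
  simp only [coeff_zero_eq_constantCoeff_apply] at c0 ⊢
  rcases h with _ | _ | _ | _ | h
  · first
    | omega
    | (simp only [cq7, map_add, map_sub, map_nsmul, map_mul, c0]; norm_num)
  · first
    | omega
    | (simp only [cq7, map_add, map_sub, map_nsmul, map_mul, c0]; norm_num)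
  · simp only [cq7, map_add, map_sub, map_nsmul, map_mul, c0]
    norm_num
  · simp only [cq7, map_add, map_sub, map_nsmul, map_mul, c0]
    norm_num
  · simp only [cq7, map_add, map_sub, map_nsmul, map_mul, c0]
    norm_num

theorem base_cq8 (hA : Lev A) (h : ℕ) (hh : 0 ≤ h) :
    0 ≤ coeff 0 (cq8 (A (h + 4) - A (h + 3)) (A (h + 3) - A (h + 2)) (A (h + 2) - A (h + 1))
      (A (h + 1) - A h) (A h)) := by
  have c0 := fun k => hA.coeff_zero k
  simp only [coeff_zero_eq_constantCoeff_apply] at c0 ⊢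
  rcases h with _ | _ | _ | _ | h
  · first
    | omega
    | (simp only [cq8, map_add, map_sub, map_nsmul, map_mul, c0]; norm_num)
  · first
    | omega
    | (simp only [cq8, map_add, map_sub, map_nsmul, map_mul, c0]; norm_num)
  · simp only [cq8, map_add, map_sub, map_nsmul, map_mul, c0]
    norm_num
  · simp only [cq8, map_add, map_sub, map_nsmul, map_mul, c0]
    norm_num
  · simp only [cq8, map_add, map_sub, map_nsmul, map_mul, c0]
    norm_num

theorem base_cq9 (hA : Lev A) (h : ℕ) (hh : 0 ≤ h) :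
    0 ≤ coeff 0 (cq9 (A (h + 4) - A (h + 3)) (A (h + 3) - A (h + 2)) (A (h + 2) - A (h + 1))
      (A (h + 1) - A h) (A h)) := by
  have c0 := fun k => hA.coeff_zero k
  simp only [coeff_zero_eq_constantCoeff_apply] at c0 ⊢
  rcases h with _ | _ | _ | _ | h
  · first
    | omega
    | (simp only [cq9, map_add, map_sub, map_nsmul, map_mul, c0]; norm_num)
  · first
    | omega
    | (simp only [cq9, map_add, map_sub, map_nsmul, map_mul, c0]; norm_num)
  · simp only [cq9, map_add, map_sub, map_nsmul, map_mul, c0]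
    norm_num
  · simp only [cq9, map_add, map_sub, map_nsmul, map_mul, c0]
    norm_num
  · simp only [cq9, map_add, map_sub, map_nsmul, map_mul, c0]
    norm_num

theorem base_cR2 (hA : Lev A) (h : ℕ) (hh : 0 ≤ h) :
    0 ≤ coeff 0 (cR2 (A (h + 4) - A (h + 3)) (A (h + 3) - A (h + 2)) (A (h + 2) - A (h + 1))
      (A (h + 1) - A h) (A h)) := by
  have c0 := fun k => hA.coeff_zero k
  simp only [coeff_zero_eq_constantCoeff_apply] at c0 ⊢
  rcases h with _ | _ | _ | _ | h
  · first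
    | omega
    | (simp only [cR2, map_add, map_sub, map_nsmul, map_mul, c0]; norm_num)
  · first
    | omega
    | (simp only [cR2, map_add, map_sub, map_nsmul, map_mul, c0]; norm_num)
  · simp only [cR2, map_add, map_sub, map_nsmul, map_mul, c0]
    norm_num
  · simp only [cR2, map_add, map_sub, map_nsmul, map_mul, c0]
    norm_num
  · simp only [cR2, map_add, map_sub, map_nsmul, map_mul, c0]
    norm_num

theorem base_cT (hA : Lev A) (h : ℕ) (hh : 0 ≤ h) :
    0 ≤ coeff 0 (cT (A (h + 4) - A (h + 3)) (A (h + 3) - A (h + 2)) (A (h + 2) - A (h + 1))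
      (A (h + 1) - A h) (A h)) := by
  have c0 := fun k => hA.coeff_zero k
  simp only [coeff_zero_eq_constantCoeff_apply] at c0 ⊢
  rcases h with _ | _ | _ | _ | h
  · first
    | omega
    | (simp only [cT, map_add, map_sub, map_nsmul, map_mul, c0]; norm_num)
  · first
    | omega
    | (simp only [cT, map_add, map_sub, map_nsmul, map_mul, c0]; norm_num)
  · simp only [cT, map_add, map_sub, map_nsmul, map_mul, c0]
    norm_num
  · simp only [cT, map_add, map_sub, map_nsmul, map_mul, c0]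
    norm_num
  · simp only [cT, map_add, map_sub, map_nsmul, map_mul, c0]
    norm_num

theorem zero_cLam (hA : Lev A) :
    cLam (A (0 + 4) - A (0 + 3)) (A (0 + 3) - A (0 + 2)) (A (0 + 2) - A (0 + 1))
      (A (0 + 1) - A 0) (A 0) = 0 := by
  have z3 := hA.zero (0 + 3) (by norm_num)
  have z2 := hA.zero (0 + 2) (by norm_num)
  have z1 := hA.zero (0 + 1) (by norm_num)
  have z0 := hA.zero 0 (by norm_num)
  rw [z3, z2, z1, z0]
  simp [cLam]

theorem zero_cq3 (hA : Lev A) :
    cq3 (A (0 + 4) - A (0 + 3)) (A (0 + 3) - A (0 + 2)) (A (0 + 2) - A (0 + 1))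
      (A (0 + 1) - A 0) (A 0) = 0 := by
  have z3 := hA.zero (0 + 3) (by norm_num)
  have z2 := hA.zero (0 + 2) (by norm_num)
  have z1 := hA.zero (0 + 1) (by norm_num)
  have z0 := hA.zero 0 (by norm_num)
  rw [z3, z2, z1, z0]
  simp [cq3]

theorem zero_cq4 (hA : Lev A) :
    cq4 (A (0 + 4) - A (0 + 3)) (A (0 + 3) - A (0 + 2)) (A (0 + 2) - A (0 + 1))
      (A (0 + 1) - A 0) (A 0) = 0 := by
  have z3 := hA.zero (0 + 3) (by norm_num)
  have z2 := hA.zero (0 + 2) (by norm_num)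
  have z1 := hA.zero (0 + 1) (by norm_num)
  have z0 := hA.zero 0 (by norm_num)
  rw [z3, z2, z1, z0]
  simp [cq4]

theorem zero_cq5 (hA : Lev A) :
    cq5 (A (0 + 4) - A (0 + 3)) (A (0 + 3) - A (0 + 2)) (A (0 + 2) - A (0 + 1))
      (A (0 + 1) - A 0) (A 0) = 0 := by
  have z3 := hA.zero (0 + 3) (by norm_num)
  have z2 := hA.zero (0 + 2) (by norm_num)
  have z1 := hA.zero (0 + 1) (by norm_num)
  have z0 := hA.zero 0 (by norm_num)
  rw [z3, z2, z1, z0]
  simp [cq5]

theorem zero_cq6 (hA : Lev A) :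
    cq6 (A (0 + 4) - A (0 + 3)) (A (0 + 3) - A (0 + 2)) (A (0 + 2) - A (0 + 1))
      (A (0 + 1) - A 0) (A 0) = 0 := by
  have z3 := hA.zero (0 + 3) (by norm_num)
  have z2 := hA.zero (0 + 2) (by norm_num)
  have z1 := hA.zero (0 + 1) (by norm_num)
  have z0 := hA.zero 0 (by norm_num)
  rw [z3, z2, z1, z0]
  simp [cq6]

theorem zero_cq7 (hA : Lev A) :
    cq7 (A (0 + 4) - A (0 + 3)) (A (0 + 3) - A (0 + 2)) (A (0 + 2) - A (0 + 1))
      (A (0 + 1) - A 0) (A 0) = 0 := by
  have z3 := hA.zero (0 + 3) (by norm_num)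
  have z2 := hA.zero (0 + 2) (by norm_num)
  have z1 := hA.zero (0 + 1) (by norm_num)
  have z0 := hA.zero 0 (by norm_num)
  rw [z3, z2, z1, z0]
  simp [cq7]

theorem zero_cq8 (hA : Lev A) :
    cq8 (A (0 + 4) - A (0 + 3)) (A (0 + 3) - A (0 + 2)) (A (0 + 2) - A (0 + 1))
      (A (0 + 1) - A 0) (A 0) = 0 := by
  have z3 := hA.zero (0 + 3) (by norm_num)
  have z2 := hA.zero (0 + 2) (by norm_num)
  have z1 := hA.zero (0 + 1) (by norm_num)
  have z0 := hA.zero 0 (by norm_num)
  rw [z3, z2, z1, z0]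
  simp [cq8]

theorem zero_cq9 (hA : Lev A) :
    cq9 (A (0 + 4) - A (0 + 3)) (A (0 + 3) - A (0 + 2)) (A (0 + 2) - A (0 + 1))
      (A (0 + 1) - A 0) (A 0) = 0 := by
  have z3 := hA.zero (0 + 3) (by norm_num)
  have z2 := hA.zero (0 + 2) (by norm_num)
  have z1 := hA.zero (0 + 1) (by norm_num)
  have z0 := hA.zero 0 (by norm_num)
  rw [z3, z2, z1, z0]
  simp [cq9]

theorem zero_cR2 (hA : Lev A) :
    cR2 (A (0 + 4) - A (0 + 3)) (A (0 + 3) - A (0 + 2)) (A (0 + 2) - A (0 + 1))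
      (A (0 + 1) - A 0) (A 0) = 0 := by
  have z3 := hA.zero (0 + 3) (by norm_num)
  have z2 := hA.zero (0 + 2) (by norm_num)
  have z1 := hA.zero (0 + 1) (by norm_num)
  have z0 := hA.zero 0 (by norm_num)
  rw [z3, z2, z1, z0]
  simp [cR2]

theorem zero_cT (hA : Lev A) :
    cT (A (0 + 4) - A (0 + 3)) (A (0 + 3) - A (0 + 2)) (A (0 + 2) - A (0 + 1))
      (A (0 + 1) - A 0) (A 0) = 0 := by
  have z3 := hA.zero (0 + 3) (by norm_num)
  have z2 := hA.zero (0 + 2) (by norm_num)
  have z1 := hA.zero (0 + 1) (by norm_num)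
  have z0 := hA.zero 0 (by norm_num)
  rw [z3, z2, z1, z0]
  simp [cT]

/-- all forms of the family are nonnegative -/
theorem fam_nonneg (hA : Lev A) : ∀ (i : Fin 12) (h : ℕ), famH i ≤ h → ∀ n,
    0 ≤ coeff n (famQ A i h) := by
  refine closure (famQ A) famH ?_ ?_
  · intro i h hi
    fin_cases i
    · exact base_cR0 hA h hi
    · exact base_cR1 hA h hi
    · exact base_cLam hA h hi
    · exact base_cq3 hA h hi
    · exact base_cq4 hA h hi
    · exact base_cq5 hA h hi
    · exact base_cq6 hA h hi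
    · exact base_cq7 hA h hi
    · exact base_cq8 hA h hi
    · exact base_cq9 hA h hi
    · exact base_cR2 hA h hi
    · exact base_cT hA h hi
  · intro i h hi n ih
    rcases h with _ | h
    · refine ⟨1, one_pos, ?_⟩
      rw [one_nsmul]
      fin_cases i
      · exact absurd hi (by decide)
      · exact absurd hi (by decide)
      · have e : famQ A 2 0 = 0 := zero_cLam hA
        have e2 : derivative ℝ (famQ A 2 0) = 0 := by rw [e, map_zero]
        exact (congrArg (TN n) e2).mpr TN.zero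
      · have e : famQ A 3 0 = 0 := zero_cq3 hA
        have e2 : derivative ℝ (famQ A 3 0) = 0 := by rw [e, map_zero]
        exact (congrArg (TN n) e2).mpr TN.zero
      · have e : famQ A 4 0 = 0 := zero_cq4 hA
        have e2 : derivative ℝ (famQ A 4 0) = 0 := by rw [e, map_zero]
        exact (congrArg (TN n) e2).mpr TN.zero
      · have e : famQ A 5 0 = 0 := zero_cq5 hA
        have e2 : derivative ℝ (famQ A 5 0) = 0 := by rw [e, map_zero]
        exact (congrArg (TN n) e2).mpr TN.zero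
      · have e : famQ A 6 0 = 0 := zero_cq6 hA
        have e2 : derivative ℝ (famQ A 6 0) = 0 := by rw [e, map_zero]
        exact (congrArg (TN n) e2).mpr TN.zero
      · have e : famQ A 7 0 = 0 := zero_cq7 hA
        have e2 : derivative ℝ (famQ A 7 0) = 0 := by rw [e, map_zero]
        exact (congrArg (TN n) e2).mpr TN.zero
      · have e : famQ A 8 0 = 0 := zero_cq8 hA
        have e2 : derivative ℝ (famQ A 8 0) = 0 := by rw [e, map_zero]
        exact (congrArg (TN n) e2).mpr TN.zero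
      · have e : famQ A 9 0 = 0 := zero_cq9 hA
        have e2 : derivative ℝ (famQ A 9 0) = 0 := by rw [e, map_zero]
        exact (congrArg (TN n) e2).mpr TN.zero
      · have e : famQ A 10 0 = 0 := zero_cR2 hA
        have e2 : derivative ℝ (famQ A 10 0) = 0 := by rw [e, map_zero]
        exact (congrArg (TN n) e2).mpr TN.zero
      · have e : famQ A 11 0 = 0 := zero_cT hA
        have e2 : derivative ℝ (famQ A 11 0) = 0 := by rw [e, map_zero]
        exact (congrArg (TN n) e2).mpr TN.zero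
    · have hB : A (h + 1) = (A (h + 1) - A h) + A h := by ring
      have H := hA.lts h
      fin_cases i
      · exact ⟨1, by norm_num, step_cR0 H hB n  ⟩
      · exact ⟨10000, by norm_num, step_cR1 H hB n (ih 1 (h + 1) hi) (ih 2 (h + 1) (Nat.zero_le _)) (ih 4 (h + 1) (Nat.zero_le _)) (ih 5 (h + 1) (Nat.zero_le _)) (ih 6 (h + 1) (Nat.zero_le _)) (ih 7 (h + 1) (Nat.zero_le _)) (ih 8 (h + 1) (Nat.zero_le _)) (ih 9 (h + 1) (Nat.zero_le _)) (ih 6 h (Nat.zero_le _)) (ih 7 h (Nat.zero_le _)) (ih 8 h (Nat.zero_le _))⟩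
      · exact ⟨5000, by norm_num, step_cLam H hB n (ih 2 (h + 1) (Nat.zero_le _)) (ih 3 (h + 1) (Nat.zero_le _)) (ih 4 (h + 1) (Nat.zero_le _)) (ih 5 (h + 1) (Nat.zero_le _)) (ih 6 (h + 1) (Nat.zero_le _)) (ih 7 (h + 1) (Nat.zero_le _)) (ih 8 (h + 1) (Nat.zero_le _)) (ih 9 (h + 1) (Nat.zero_le _)) (ih 3 h (Nat.zero_le _)) (ih 4 h (Nat.zero_le _)) (ih 5 h (Nat.zero_le _)) (ih 7 h (Nat.zero_le _)) (ih 8 h (Nat.zero_le _))⟩
      · exact ⟨10000, by norm_num, step_cq3 H hB n (ih 3 (h + 1) (Nat.zero_le _)) (ih 6 (h + 1) (Nat.zero_le _)) (ih 7 (h + 1) (Nat.zero_le _)) (ih 8 (h + 1) (Nat.zero_le _)) (ih 9 (h + 1) (Nat.zero_le _)) (ih 3 h (Nat.zero_le _)) (ih 6 h (Nat.zero_le _)) (ih 7 h (Nat.zero_le _)) (ih 8 h (Nat.zero_le _)) (ih 9 h (Nat.zero_le _))⟩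
      · exact ⟨20000, by norm_num, step_cq4 H hB n (ih 2 (h + 1) (Nat.zero_le _)) (ih 3 (h + 1) (Nat.zero_le _)) (ih 4 (h + 1) (Nat.zero_le _)) (ih 5 (h + 1) (Nat.zero_le _)) (ih 6 (h + 1) (Nat.zero_le _)) (ih 7 (h + 1) (Nat.zero_le _)) (ih 8 (h + 1) (Nat.zero_le _)) (ih 9 (h + 1) (Nat.zero_le _)) (ih 3 h (Nat.zero_le _)) (ih 4 h (Nat.zero_le _)) (ih 5 h (Nat.zero_le _)) (ih 6 h (Nat.zero_le _)) (ih 7 h (Nat.zero_le _)) (ih 8 h (Nat.zero_le _)) (ih 9 h (Nat.zero_le _))⟩
      · exact ⟨10000, by norm_num, step_cq5 H hB n (ih 3 (h + 1) (Nat.zero_le _)) (ih 4 (h + 1) (Nat.zero_le _)) (ih 5 (h + 1) (Nat.zero_le _)) (ih 7 (h + 1) (Nat.zero_le _)) (ih 8 (h + 1) (Nat.zero_le _)) (ih 9 (h + 1) (Nat.zero_le _)) (ih 3 h (Nat.zero_le _)) (ih 4 h (Nat.zero_le _)) (ih 5 h (Nat.zero_le _)) (ih 6 h (Nat.zero_le _)) (ih 8 h (Nat.zero_le _)) (ih 9 h (Nat.zero_le _))⟩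
      · exact ⟨10000, by norm_num, step_cq6 H hB n (ih 3 (h + 1) (Nat.zero_le _)) (ih 4 (h + 1) (Nat.zero_le _)) (ih 5 (h + 1) (Nat.zero_le _)) (ih 6 (h + 1) (Nat.zero_le _)) (ih 7 (h + 1) (Nat.zero_le _)) (ih 8 (h + 1) (Nat.zero_le _)) (ih 9 (h + 1) (Nat.zero_le _)) (ih 3 h (Nat.zero_le _)) (ih 5 h (Nat.zero_le _)) (ih 6 h (Nat.zero_le _)) (ih 7 h (Nat.zero_le _)) (ih 8 h (Nat.zero_le _)) (ih 9 h (Nat.zero_le _))⟩
      · exact ⟨10000, by norm_num, step_cq7 H hB n (ih 3 (h + 1) (Nat.zero_le _)) (ih 5 (h + 1) (Nat.zero_le _)) (ih 6 (h + 1) (Nat.zero_le _)) (ih 7 (h + 1) (Nat.zero_le _)) (ih 8 (h + 1) (Nat.zero_le _)) (ih 9 (h + 1) (Nat.zero_le _)) (ih 3 h (Nat.zero_le _)) (ih 6 h (Nat.zero_le _)) (ih 7 h (Nat.zero_le _)) (ih 8 h (Nat.zero_le _)) (ih 9 h (Nat.zero_le _))⟩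
      · exact ⟨10000, by norm_num, step_cq8 H hB n (ih 3 (h + 1) (Nat.zero_le _)) (ih 4 (h + 1) (Nat.zero_le _)) (ih 6 (h + 1) (Nat.zero_le _)) (ih 8 (h + 1) (Nat.zero_le _)) (ih 9 (h + 1) (Nat.zero_le _)) (ih 3 h (Nat.zero_le _)) (ih 8 h (Nat.zero_le _)) (ih 9 h (Nat.zero_le _))⟩
      · exact ⟨10000, by norm_num, step_cq9 H hB n (ih 3 (h + 1) (Nat.zero_le _)) (ih 5 (h + 1) (Nat.zero_le _)) (ih 7 (h + 1) (Nat.zero_le _)) (ih 8 (h + 1) (Nat.zero_le _)) (ih 9 (h + 1) (Nat.zero_le _)) (ih 5 h (Nat.zero_le _)) (ih 6 h (Nat.zero_le _)) (ih 8 h (Nat.zero_le _)) (ih 9 h (Nat.zero_le _))⟩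
      · exact ⟨1, by norm_num, step_cR2 H hB n (ih 11 (h + 1) (Nat.zero_le _)) (ih 11 h (Nat.zero_le _))⟩
      · exact ⟨100, by norm_num, step_cT H hB n (ih 11 (h + 1) (Nat.zero_le _)) (ih 11 h (Nat.zero_le _))⟩

end Frz
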