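import Pool.Agent.Frz.Forms

set_option autoImplicit false

namespace Frz

open PowerSeries

set_option maxRecDepth 100000 in
theorem step_cR0 {f g l m k P B : PowerSeries ℝ} (H : Lts f g l m k P) (hB : B = k + P)
    (n : ℕ)
 :
    TN n (1 • derivative ℝ (cR0 f g l m B)) := by
  have dB : derivative ℝ B = B * P := by
    rw [hB]
    exact H.dB
  have e : 1 • derivative ℝ (cR0 f g l m B) =
      85 • (f * g * g) + 255 • (f * g * l) + 255 • (f * g * m) + 255 • (f * g * k) + 255 • (f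
      * g * P) + 170 • (f * l * l) + 340 • (f * l * m) + 340 • (f * l * k) + 340 • (f * l * P)
      + 170 • (f * m * m) + 340 • (f * m * k) + 340 • (f * m * P) + 170 • (f * k * k) + 340 •
      (f * k * P) + 170 • (f * P * P) + 85 • (g * g * g) + 32 • (g * g * l) + 32 • (g * g * m)
      + 32 • (g * g * k) + 32 • (g * g * P) + 10 • (g * l * l) + 167 • (g * l * m) + 167 • (g
      * l * k) + 167 • (g * l * P) + 157 • (g * m * m) + 260 • (g * m * k) + 260 • (g * m * P)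
      + 103 • (g * k * k) + 206 • (g * k * P) + 103 • (g * P * P) + 63 • (l * l * l) + 336 •
      (l * l * m) + 336 • (l * l * k) + 336 • (l * l * P) + 697 • (l * m * m) + 1554 • (l * m
      * k) + 1554 • (l * m * P) + 857 • (l * k * k) + 1714 • (l * k * P) + 857 • (l * P * P) +
      424 • (m * m * m) + 1432 • (m * m * k) + 1432 • (m * m * P) + 1700 • (m * k * k) + 3508
      • (m * k * P) + 1808 • (m * P * P) + 692 • (k * k * k) + 2184 • (k * k * P) + 2292 • (k
      * P * P) + 800 • (P * P * P) := by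
    simp only [cR0, map_add, map_sub, map_nsmul, Derivation.leibniz, smul_eq_mul, H.df, H.dg,
      H.dl, H.dm, dB]
    subst hB
    ring
  rw [e]
  exact
    (((((((((((((((((((((((((((((((((((((((((((((((((((((H.nf n).mul (H.ng n)).mul (H.ng
    n)).nsmul 85).add ((((H.nf n).mul (H.ng n)).mul (H.nl n)).nsmul 255)).add ((((H.nf n).mul
    (H.ng n)).mul (H.nm n)).nsmul 255)).add ((((H.nf n).mul (H.ng n)).mul (H.nk n)).nsmul
    255)).add ((((H.nf n).mul (H.ng n)).mul (H.nP n)).nsmul 255)).add ((((H.nf n).mul (H.nl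
    n)).mul (H.nl n)).nsmul 170)).add ((((H.nf n).mul (H.nl n)).mul (H.nm n)).nsmul 340)).add
    ((((H.nf n).mul (H.nl n)).mul (H.nk n)).nsmul 340)).add ((((H.nf n).mul (H.nl n)).mul
    (H.nP n)).nsmul 340)).add ((((H.nf n).mul (H.nm n)).mul (H.nm n)).nsmul 170)).add ((((H.nf
    n).mul (H.nm n)).mul (H.nk n)).nsmul 340)).add ((((H.nf n).mul (H.nm n)).mul (H.nP
    n)).nsmul 340)).add ((((H.nf n).mul (H.nk n)).mul (H.nk n)).nsmul 170)).add ((((H.nf
    n).mul (H.nk n)).mul (H.nP n)).nsmul 340)).add ((((H.nf n).mul (H.nP n)).mul (H.nP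
    n)).nsmul 170)).add ((((H.ng n).mul (H.ng n)).mul (H.ng n)).nsmul 85)).add ((((H.ng n).mul
    (H.ng n)).mul (H.nl n)).nsmul 32)).add ((((H.ng n).mul (H.ng n)).mul (H.nm n)).nsmul
    32)).add ((((H.ng n).mul (H.ng n)).mul (H.nk n)).nsmul 32)).add ((((H.ng n).mul (H.ng
    n)).mul (H.nP n)).nsmul 32)).add ((((H.ng n).mul (H.nl n)).mul (H.nl n)).nsmul 10)).add
    ((((H.ng n).mul (H.nl n)).mul (H.nm n)).nsmul 167)).add ((((H.ng n).mul (H.nl n)).mul
    (H.nk n)).nsmul 167)).add ((((H.ng n).mul (H.nl n)).mul (H.nP n)).nsmul 167)).add ((((H.ng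
    n).mul (H.nm n)).mul (H.nm n)).nsmul 157)).add ((((H.ng n).mul (H.nm n)).mul (H.nk
    n)).nsmul 260)).add ((((H.ng n).mul (H.nm n)).mul (H.nP n)).nsmul 260)).add ((((H.ng
    n).mul (H.nk n)).mul (H.nk n)).nsmul 103)).add ((((H.ng n).mul (H.nk n)).mul (H.nP
    n)).nsmul 206)).add ((((H.ng n).mul (H.nP n)).mul (H.nP n)).nsmul 103)).add ((((H.nl
    n).mul (H.nl n)).mul (H.nl n)).nsmul 63)).add ((((H.nl n).mul (H.nl n)).mul (H.nm
    n)).nsmul 336)).add ((((H.nl n).mul (H.nl n)).mul (H.nk n)).nsmul 336)).add ((((H.nl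
    n).mul (H.nl n)).mul (H.nP n)).nsmul 336)).add ((((H.nl n).mul (H.nm n)).mul (H.nm
    n)).nsmul 697)).add ((((H.nl n).mul (H.nm n)).mul (H.nk n)).nsmul 1554)).add ((((H.nl
    n).mul (H.nm n)).mul (H.nP n)).nsmul 1554)).add ((((H.nl n).mul (H.nk n)).mul (H.nk
    n)).nsmul 857)).add ((((H.nl n).mul (H.nk n)).mul (H.nP n)).nsmul 1714)).add ((((H.nl
    n).mul (H.nP n)).mul (H.nP n)).nsmul 857)).add ((((H.nm n).mul (H.nm n)).mul (H.nm
    n)).nsmul 424)).add ((((H.nm n).mul (H.nm n)).mul (H.nk n)).nsmul 1432)).add ((((H.nm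
    n).mul (H.nm n)).mul (H.nP n)).nsmul 1432)).add ((((H.nm n).mul (H.nk n)).mul (H.nk
    n)).nsmul 1700)).add ((((H.nm n).mul (H.nk n)).mul (H.nP n)).nsmul 3508)).add ((((H.nm
    n).mul (H.nP n)).mul (H.nP n)).nsmul 1808)).add ((((H.nk n).mul (H.nk n)).mul (H.nk
    n)).nsmul 692)).add ((((H.nk n).mul (H.nk n)).mul (H.nP n)).nsmul 2184)).add ((((H.nk
    n).mul (H.nP n)).mul (H.nP n)).nsmul 2292)).add ((((H.nP n).mul (H.nP n)).mul (H.nP
    n)).nsmul 800))

end Frz
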