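import Pool.Agent.Frz.Main

set_option autoImplicit false

/-!
# MP_66bb51_pr: the inequalities for `R0`, `R1`, `R2`, `Lam`
-/

namespace Frz

open PowerSeries

variable {A : ℕ → PowerSeries ℝ}

private theorem cst (a : ℕ) (N : ℕ) (x : ℝ) (h : (N : ℝ) * x = a) :
    (N : PowerSeries ℝ) * C x = (a : PowerSeries ℝ) := by
  rw [← map_natCast (C : ℝ →+* PowerSeries ℝ) N, ← map_mul, h, map_natCast]

private theorem cstn (a : ℕ) (N : ℕ) (x : ℝ) (h : (N : ℝ) * x = -a) :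
    (N : PowerSeries ℝ) * C x = -(a : PowerSeries ℝ) := by
  rw [← map_natCast (C : ℝ →+* PowerSeries ℝ) N, ← map_mul, h, map_neg, map_natCast]

private theorem fin {p q : PowerSeries ℝ} {a b : ℕ} (ha : 0 < a) (e : (a : PowerSeries ℝ) * p = b * q)
    (n : ℕ) (hq : 0 ≤ coeff n q) : 0 ≤ coeff n p := by
  have h := congrArg (coeff n) e
  rw [← map_natCast (C : ℝ →+* PowerSeries ℝ) a, ← map_natCast (C : ℝ →+* PowerSeries ℝ) b,
    coeff_C_mul, coeff_C_mul] at h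
  have h2 : 0 ≤ (a : ℝ) * coeff n p := by
    rw [h]
    positivity
  have ha' : (0 : ℝ) < a := by exact_mod_cast ha
  exact nonneg_of_mul_nonneg_right h2 ha'

private theorem fin2 {p q r : PowerSeries ℝ} {a b c : ℕ} (ha : 0 < a)
    (e : (a : PowerSeries ℝ) * p = b * q + c * r)
    (n : ℕ) (hq : 0 ≤ coeff n q) (hr : 0 ≤ coeff n r) : 0 ≤ coeff n p := by
  have h := congrArg (coeff n) e
  rw [map_add, ← map_natCast (C : ℝ →+* PowerSeries ℝ) a,
    ← map_natCast (C : ℝ →+* PowerSeries ℝ) b, ← map_natCast (C : ℝ →+* PowerSeries ℝ) c,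
    coeff_C_mul, coeff_C_mul, coeff_C_mul] at h
  have h2 : 0 ≤ (a : ℝ) * coeff n p := by
    rw [h]
    positivity
  have ha' : (0 : ℝ) < a := by exact_mod_cast ha
  exact nonneg_of_mul_nonneg_right h2 ha'

theorem eq_R0 (F G L M K : PowerSeries ℝ) :
    ((200 : ℕ) : PowerSeries ℝ) * R0 (63 / 40) (161 / 200) (27 / 100) F G L M K =
      ((1 : ℕ) : PowerSeries ℝ) * cR0 (F - G) (G - L) (L - M) (M - K) K := by
  have h_al := cst 315 200 ((63 / 40) : ℝ) (by norm_num)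
  have h_be := cst 161 200 ((161 / 200) : ℝ) (by norm_num)
  have h_ga := cst 54 200 ((27 / 100) : ℝ) (by norm_num)
  have h2 : (C 2 : PowerSeries ℝ) = 2 := map_ofNat C 2
  push_cast at *
  simp only [R0, cR0, h2]
  linear_combination (-(G * ((F - G) + 2 * (G - L)))) * h_al + ((G * (G - L) - 2 * (L * ((G - L) + (L - M))))) * h_be + ((G * (L - M) - 2 * (M * ((L - M) + (M - K))))) * h_ga

theorem R0_nonneg (hA : Lev A) (h : ℕ) (hh : 2 ≤ h) (n : ℕ) :
    0 ≤ coeff n (R0 (63 / 40) (161 / 200) (27 / 100) (A (h + 4)) (A (h + 3)) (A (h + 2))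
      (A (h + 1)) (A h)) :=
  fin (by norm_num) (eq_R0 (A (h + 4)) (A (h + 3)) (A (h + 2)) (A (h + 1)) (A h)) n
    (fam_nonneg hA 0 h hh n)

theorem eq_R1 (F G L M K : PowerSeries ℝ) :
    ((200 : ℕ) : PowerSeries ℝ) * R1 (63 / 40) (161 / 200) (27 / 100) F G L M K =
      ((1 : ℕ) : PowerSeries ℝ) * cR1 (F - G) (G - L) (L - M) (M - K) K := by
  have h_al := cst 315 200 ((63 / 40) : ℝ) (by norm_num)
  have h_be := cst 161 200 ((161 / 200) : ℝ) (by norm_num)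
  have h_ga := cst 54 200 ((27 / 100) : ℝ) (by norm_num)
  have h2 : (C 2 : PowerSeries ℝ) = 2 := map_ofNat C 2
  push_cast at *
  simp only [R1, cR1, h2]
  linear_combination ((F * (G - L))) * h_al + (((F * (L - M)) - (G * ((F - G) + 2 * (G - L))))) * h_be + ((F * (M - K))) * h_ga

theorem R1_nonneg (hA : Lev A) (h : ℕ) (hh : 2 ≤ h) (n : ℕ) :
    0 ≤ coeff n (R1 (63 / 40) (161 / 200) (27 / 100) (A (h + 4)) (A (h + 3)) (A (h + 2))
      (A (h + 1)) (A h)) :=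
  fin (by norm_num) (eq_R1 (A (h + 4)) (A (h + 3)) (A (h + 2)) (A (h + 1)) (A h)) n
    (fam_nonneg hA 1 h hh n)

theorem eq_R2 (F G L M K : PowerSeries ℝ) :
    ((200 : ℕ) : PowerSeries ℝ) * R2 (161 / 200) (27 / 100) F G L =
      ((1 : ℕ) : PowerSeries ℝ) * cR2 (F - G) (G - L) (L - M) (M - K) K := by
  have h_be := cst 161 200 ((161 / 200) : ℝ) (by norm_num)
  have h_ga := cst 54 200 ((27 / 100) : ℝ) (by norm_num)
  have h2 : (C 2 : PowerSeries ℝ) = 2 := map_ofNat C 2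
  push_cast at *
  simp only [R2, cR2, h2]
  linear_combination ((F * (G - L))) * h_be + (-(G * ((F - G) + 2 * (G - L)))) * h_ga

theorem R2_nonneg (hA : Lev A) (h : ℕ) (hh : 0 ≤ h) (n : ℕ) :
    0 ≤ coeff n (R2 (161 / 200) (27 / 100) (A (h + 4)) (A (h + 3))
      (A (h + 2))) :=
  fin (by norm_num) (eq_R2 (A (h + 4)) (A (h + 3)) (A (h + 2)) (A (h + 1)) (A h)) n
    (fam_nonneg hA 10 h hh n)

theorem eq_Lam (F G L M K : PowerSeries ℝ) :
    ((200 : ℕ) : PowerSeries ℝ) * Lam (63 / 40) (161 / 200) (27 / 100) (51 / 50) (23 / 40) F G L M K =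
      ((1 : ℕ) : PowerSeries ℝ) * cLam (F - G) (G - L) (L - M) (M - K) K +
        ((115 : ℕ) : PowerSeries ℝ) * ((F - G) * (L - M)) := by
  have h_a1 := cstn 93 200 (((63 / 40) - 2 * (51 / 50)) : ℝ) (by norm_num)
  have h_a2 := cst 92 200 ((2 * ((161 / 200) - (23 / 40))) : ℝ) (by norm_num)
  have h_a3 := cst 204 200 ((51 / 50) : ℝ) (by norm_num)
  have h_a4 := cst 230 200 ((2 * (23 / 40)) : ℝ) (by norm_num)
  have h_a5 := cst 108 200 ((2 * (27 / 100)) : ℝ) (by norm_num)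
  have h_a6 := cst 178 200 ((2 * ((51 / 50) - (23 / 40))) : ℝ) (by norm_num)
  have h2 : (C 2 : PowerSeries ℝ) = 2 := map_ofNat C 2
  push_cast at *
  simp only [Lam, cLam, h2]
  linear_combination ((F * (G - L))) * h_a1 + ((F * (L - M))) * h_a2 + (((F - M) * (G - L))) * h_a3 + (((F - G) * (L - M))) * h_a4 + ((F * (M - K))) * h_a5 + (-(L * (F - G))) * h_a6

theorem Lam_nonneg (hA : Lev A) (h : ℕ) (n : ℕ) :
    0 ≤ coeff n (Lam (63 / 40) (161 / 200) (27 / 100) (51 / 50) (23 / 40) (A (h + 4)) (A (h + 3)) (A (h + 2))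
      (A (h + 1)) (A h)) := by
  have h1 := fam_nonneg hA 2 h (Nat.zero_le _) n
  have h2 : 0 ≤ coeff n ((A (h + 4) - A (h + 3)) * (A (h + 2) - A (h + 1))) :=
    (TN.mul (fun m _ => hA.diff_nonneg (h + 3) m) (fun m _ => hA.diff_nonneg (h + 1) m) :
      TN n _) n le_rfl
  have e := eq_Lam (A (h + 4)) (A (h + 3)) (A (h + 2)) (A (h + 1)) (A h)
  exact fin2 (by norm_num) e n h1 h2

end Frz
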