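import Mathlib

/-!
# MP_66bb51_pr: symmetric convex weights against tent inequalities
-/

namespace Frz

open Finset

theorem sum_sym_even (M : ℕ) (u : ℕ → ℝ) (hu : ∀ i, i ≤ 2 * M → u i = u (2 * M - i)) :
    ∑ i ∈ range (2 * M + 1), u i = 2 * ∑ i ∈ range M, u i + u M := by
  have e : 2 * M + 1 = M + (1 + M) := by ring
  have h : ∑ x ∈ range M, u (M + (1 + x)) = ∑ i ∈ range M, u i := by
    rw [← Finset.sum_range_reflect]
    apply Finset.sum_congr rfl
    intro x hx
    rw [Finset.mem_range] at hx
    rw [hu x (by omega)]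
    congr 1
    omega
  rw [e, Finset.sum_range_add, Finset.sum_range_add, h, Finset.sum_range_one, Nat.add_zero]
  ring

theorem sum_sym_odd (M : ℕ) (u : ℕ → ℝ) (hu : ∀ i, i ≤ 2 * M + 1 → u i = u (2 * M + 1 - i)) :
    ∑ i ∈ range (2 * M + 1 + 1), u i = 2 * ∑ i ∈ range (M + 1), u i := by
  have e : 2 * M + 1 + 1 = (M + 1) + (M + 1) := by ring
  have h : ∑ x ∈ range (M + 1), u (M + 1 + x) = ∑ i ∈ range (M + 1), u i := by
    rw [← Finset.sum_range_reflect]
    apply Finset.sum_congr rfl
    intro x hx
    rw [Finset.mem_range] at hx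
    rw [hu x (by omega)]
    congr 1
    omega
  rw [e, Finset.sum_range_add, h]
  ring

/-- the core: no division, induction on the length -/
theorem tent_core (m : ℕ) (T d : ℕ → ℝ)
    (hT : ∀ P : ℕ, 1 ≤ P → 2 * P ≤ m → ∑ k ∈ range P, ((m : ℝ) - 2 * k) * T k
      ≤ (P : ℝ) * ((m : ℝ) - P + 1) * T P)
    (hd : ∀ i : ℕ, 2 * (i + 1) < m → ((m : ℝ) - 2 * i) * d (i + 1) ≤ ((m : ℝ) - 2 * (i + 1)) * d i)
    (P : ℕ) (hP : 2 * P ≤ m + 1) :
    ((P : ℝ) * ((m : ℝ) - P + 1)) * ∑ i ∈ range P, d i * T i
      ≤ (∑ k ∈ range P, ((m : ℝ) - 2 * k) * T k) * ∑ i ∈ range P, d i := by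
  -- Prop B
  have hB : ∀ P : ℕ, 2 * P < m → ((P : ℝ) * ((m : ℝ) - P + 1)) * d P
      ≤ ((m : ℝ) - 2 * P) * ∑ i ∈ range P, d i := by
    intro P
    induction P with
    | zero => intro _; simp
    | succ P ih =>
      intro hP
      have h1 := ih (by omega)
      have h2 := hd P hP
      have a0 : (0 : ℝ) < (m : ℝ) - 2 * P := by
        have : ((2 * P : ℕ) : ℝ) < (m : ℝ) := by exact_mod_cast (by omega : 2 * P < m)
        push_cast at this; linarith
      have a1 : (0 : ℝ) < (m : ℝ) - 2 * (P + 1) := by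
        have : ((2 * (P + 1) : ℕ) : ℝ) < (m : ℝ) := by exact_mod_cast hP
        push_cast at this; linarith
      have c0 : (0 : ℝ) ≤ (P : ℝ) * ((m : ℝ) - P + 1) := by
        have : (0 : ℝ) ≤ (P : ℝ) := by positivity
        apply mul_nonneg this
        linarith
      rw [Finset.sum_range_succ]
      have h3 := mul_le_mul_of_nonneg_left h1 a1.le
      have h4 := mul_le_mul_of_nonneg_left h2 c0
      have h5 : ((m : ℝ) - 2 * P) * (((P : ℝ) * ((m : ℝ) - P + 1)) * d (P + 1))
          ≤ ((m : ℝ) - 2 * P) * (((m : ℝ) - 2 * (P + 1)) * ∑ i ∈ range P, d i) := by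
        linarith
      have h6 := le_of_mul_le_mul_left h5 a0
      push_cast
      linarith
  induction P with
  | zero => simp
  | succ P ih =>
    have h1 := ih (by omega)
    rcases Nat.eq_zero_or_pos P with hP0 | hP0
    · subst hP0
      simp
      apply le_of_eq
      ring
    · have hPm : 2 * P ≤ m := by omega
      have h2 := hT P hP0 hPm
      have hb := hB P (by omega)
      have hP1 : (1 : ℝ) ≤ (P : ℝ) := by exact_mod_cast hP0
      have a0 : (0 : ℝ) < (m : ℝ) - 2 * P := by
        have : ((2 * P : ℕ) : ℝ) < (m : ℝ) := by exact_mod_cast (by omega : 2 * P < m)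
        push_cast at this; linarith
      have c0 : (0 : ℝ) < (P : ℝ) * ((m : ℝ) - P + 1) := by
        apply mul_pos (by linarith)
        linarith
      rw [Finset.sum_range_succ, Finset.sum_range_succ, Finset.sum_range_succ]
      generalize (∑ i ∈ range P, d i * T i) = X at *
      generalize (∑ k ∈ range P, ((m : ℝ) - 2 * k) * T k) = S at *
      generalize (∑ i ∈ range P, d i) = D at *
      push_cast
      have h3 : 0 ≤ (((P : ℝ) * ((m : ℝ) - P + 1)) * T P - S)
          * (((m : ℝ) - 2 * P) * D - ((P : ℝ) * ((m : ℝ) - P + 1)) * d P) :=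
        mul_nonneg (by linarith) (by linarith)
      have h4 : 0 ≤ (((P : ℝ) * ((m : ℝ) - P + 1)) + ((m : ℝ) - 2 * P))
          * (S * D - ((P : ℝ) * ((m : ℝ) - P + 1)) * X) :=
        mul_nonneg (by linarith) (by linarith)
      have h5 : ((P : ℝ) * ((m : ℝ) - P + 1)) * ((((P : ℝ) + 1) * ((m : ℝ) - (P + 1) + 1)) * (X + d P * T P))
          ≤ ((P : ℝ) * ((m : ℝ) - P + 1)) * ((S + ((m : ℝ) - 2 * P) * T P) * (D + d P)) := by
        linear_combination h3 + h4
      exact le_of_mul_le_mul_left h5 c0

/-- symmetric convex weights -/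
theorem convex_tent (m : ℕ) (T w : ℕ → ℝ)
    (hTs : ∀ i, i ≤ m → T i = T (m - i))
    (hT : ∀ P : ℕ, 1 ≤ P → 2 * P ≤ m → ∑ k ∈ range P, ((m : ℝ) - 2 * k) * T k
      ≤ (P : ℝ) * ((m : ℝ) - P + 1) * T P)
    (hws : ∀ i, i ≤ m → w i = w (m - i))
    (hwc : ∀ i, 1 ≤ i → i + 1 ≤ m → 2 * w i ≤ w (i - 1) + w (i + 1)) :
    ((m : ℝ) + 1) * ∑ i ∈ range (m + 1), w i * T i
      ≤ (∑ i ∈ range (m + 1), w i) * ∑ i ∈ range (m + 1), T i := by
  -- the mean
  set wb : ℝ := (∑ i ∈ range (m + 1), w i) / ((m : ℝ) + 1) with hwb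
  have hm1 : (0 : ℝ) < (m : ℝ) + 1 := by positivity
  have hsum : ((m : ℝ) + 1) * wb = ∑ i ∈ range (m + 1), w i := by
    rw [hwb]; field_simp
  set d : ℕ → ℝ := fun i => w i - wb with hddef
  have hds : ∀ i, i ≤ m → d i = d (m - i) := by
    intro i hi
    simp only [hddef, hws i hi]
  have hdc : ∀ i, 1 ≤ i → i + 1 ≤ m → 2 * d i ≤ d (i - 1) + d (i + 1) := by
    intro i h1 h2
    have := hwc i h1 h2
    simp only [hddef]
    linarith
  have hdsum : ∑ i ∈ range (m + 1), d i = 0 := by
    simp only [hddef, Finset.sum_sub_distrib, Finset.sum_const, Finset.card_range, nsmul_eq_mul]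
    push_cast
    linarith
  -- reduction
  suffices h : ∑ i ∈ range (m + 1), d i * T i ≤ 0 by
    have e : ∑ i ∈ range (m + 1), w i * T i
        = ∑ i ∈ range (m + 1), d i * T i + wb * ∑ i ∈ range (m + 1), T i := by
      rw [Finset.mul_sum, ← Finset.sum_add_distrib]
      apply Finset.sum_congr rfl
      intro i _
      simp only [hddef]
      ring
    rw [e, ← hsum]
    nlinarith
  -- slopes are nonincreasing
  have hslope : ∀ i j : ℕ, i ≤ j → j + 1 ≤ m → d j - d (j + 1) ≤ d i - d (i + 1) := by
    intro i j hij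
    induction j, hij using Nat.le_induction with
    | base => intro _; exact le_rfl
    | succ j hij ih =>
      intro hj
      have h1 := ih (by omega)
      have h2 := hdc (j + 1) (by omega) (by omega)
      simp only [Nat.add_sub_cancel] at h2
      linarith
  -- slopes are nonnegative on the left half
  have hpos : ∀ i : ℕ, 2 * i + 1 ≤ m → 0 ≤ d i - d (i + 1) := by
    intro i hi
    have h1 := hslope i (m - (i + 1)) (by omega) (by omega)
    have h2 := hds (i + 1) (by omega)
    have h3 := hds i (by omega)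
    have e : m - (i + 1) + 1 = m - i := by omega
    rw [e, ← h2, ← h3] at h1
    linarith
  -- values on the left half above a later one
  have hval : ∀ i j : ℕ, i ≤ j → 2 * j ≤ m → d i ≤ d j + ((j : ℝ) - i) * (d i - d (i + 1)) := by
    intro i j hij
    induction j, hij using Nat.le_induction with
    | base => intro _; simp
    | succ j hij ih =>
      intro hj
      have h1 := ih (by omega)
      have h2 := hslope i j hij (by omega)
      push_cast
      linarith
  have hanti : ∀ i j : ℕ, i ≤ j → 2 * j ≤ m → d j ≤ d i := by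
    intro i j hij
    induction j, hij using Nat.le_induction with
    | base => intro _; exact le_rfl
    | succ j hij ih =>
      intro hj
      have h1 := ih (by omega)
      have h2 := hpos j (by omega)
      linarith
  rcases Nat.even_or_odd' m with ⟨M, hM | hM⟩
  · -- m = 2 M
    subst hM
    have hmid : d M ≤ 0 := by
      by_contra hcon
      rw [not_le] at hcon
      have h1 : 0 < ∑ i ∈ range (2 * M + 1), d i := by
        apply Finset.sum_pos
        · intro i hi
          rw [Finset.mem_range] at hi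
          by_cases hiM : i ≤ M
          · exact lt_of_lt_of_le hcon (hanti i M hiM (by omega))
          · rw [hds i (by omega)]
            exact lt_of_lt_of_le hcon (hanti (2 * M - i) M (by omega) (by omega))
        · exact ⟨0, by simp⟩
      rw [hdsum] at h1
      exact lt_irrefl _ h1
    have hcore := tent_core (2 * M) T d hT (by
      intro i hi
      have h1 := hval i M (by omega) (by omega)
      have h2 := hpos i (by omega)
      push_cast
      have hMi : (0 : ℝ) ≤ (M : ℝ) - i := by
        have : (i : ℝ) ≤ (M : ℝ) := by exact_mod_cast (by omega : i ≤ M)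
        linarith
      linarith) M (by omega)
    have hs1 := sum_sym_even M (fun i => d i * T i) (by
      intro i hi
      show d i * T i = d (2 * M - i) * T (2 * M - i)
      rw [← hds i hi, ← hTs i hi])
    have hs2 := sum_sym_even M d hds
    rw [hdsum] at hs2
    rw [hs1]
    rcases Nat.eq_zero_or_pos M with hM0 | hM0
    · subst hM0
      have : d 0 = 0 := by simpa using hs2.symm
      simp [this]
    · have hT' := hT M hM0 (by omega)
      have c0 : (0 : ℝ) < (M : ℝ) * (((2 * M : ℕ) : ℝ) - M + 1) := by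
        have : (1 : ℝ) ≤ (M : ℝ) := by exact_mod_cast hM0
        push_cast
        nlinarith
      generalize (∑ i ∈ range M, d i * T i) = X at *
      generalize (∑ k ∈ range M, (((2 * M : ℕ) : ℝ) - 2 * k) * T k) = S at *
      generalize (∑ i ∈ range M, d i) = D at *
      have hD : D = - d M / 2 := by linarith
      subst hD
      have h5 : ((M : ℝ) * (((2 * M : ℕ) : ℝ) - M + 1)) * (2 * X + d M * T M)
          ≤ ((M : ℝ) * (((2 * M : ℕ) : ℝ) - M + 1)) * 0 := by
        have h6 : 0 ≤ (-d M) * ((M : ℝ) * (((2 * M : ℕ) : ℝ) - M + 1) * T M - S) :=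
          mul_nonneg (by linarith) (by linarith)
        linear_combination 2 * hcore + h6
      exact le_of_mul_le_mul_left h5 c0
  · -- m = 2 M + 1
    subst hM
    have hmid : d M ≤ 0 := by
      by_contra hcon
      rw [not_le] at hcon
      have h1 : 0 < ∑ i ∈ range (2 * M + 1 + 1), d i := by
        apply Finset.sum_pos
        · intro i hi
          rw [Finset.mem_range] at hi
          by_cases hiM : i ≤ M
          · exact lt_of_lt_of_le hcon (hanti i M hiM (by omega))
          · rw [hds i (by omega)]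
            exact lt_of_lt_of_le hcon (hanti (2 * M + 1 - i) M (by omega) (by omega))
        · exact ⟨0, by simp⟩
      rw [hdsum] at h1
      exact lt_irrefl _ h1
    have hcore := tent_core (2 * M + 1) T d hT (by
      intro i hi
      have h1 := hval i M (by omega) (by omega)
      have h2 := hpos i (by omega)
      push_cast
      linarith) (M + 1) (by omega)
    have hs1 := sum_sym_odd M (fun i => d i * T i) (by
      intro i hi
      show d i * T i = d (2 * M + 1 - i) * T (2 * M + 1 - i)
      rw [← hds i hi, ← hTs i hi])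
    have hs2 := sum_sym_odd M d hds
    rw [hdsum] at hs2
    have hD : ∑ i ∈ range (M + 1), d i = 0 := by linarith
    rw [hD, mul_zero] at hcore
    rw [hs1]
    have c0 : (0 : ℝ) < ((M + 1 : ℕ) : ℝ) * (((2 * M + 1 : ℕ) : ℝ) - ((M + 1 : ℕ) : ℝ) + 1) := by
      push_cast
      have : (0 : ℝ) ≤ (M : ℝ) := by positivity
      nlinarith
    have h5 : ((M + 1 : ℕ) : ℝ) * (((2 * M + 1 : ℕ) : ℝ) - ((M + 1 : ℕ) : ℝ) + 1)
        * ∑ i ∈ range (M + 1), d i * T i
        ≤ ((M + 1 : ℕ) : ℝ) * (((2 * M + 1 : ℕ) : ℝ) - ((M + 1 : ℕ) : ℝ) + 1) * 0 := by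
      rw [mul_zero]; exact hcore
    have h6 := le_of_mul_le_mul_left h5 c0
    linarith

end Frz
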