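import Pool.Agent.Frz.ChkSpec
import Pool.Agent.Frz.Tent
import Pool.Agent.Frz.Targ
import Pool.Agent.Frz.Comb.Targets

/-!
# MP_66bb51_pr: assembly of the analytic side
-/

namespace Frz

open Finset

/-- `Yf F m P = P (m - P + 1) F_P F_{m-P} - Σ_{k<P} (m - 2 k) F_k F_{m-k}` -/
def Yf (F : ℕ → ℝ) (m P : ℕ) : ℝ :=
  (P : ℝ) * ((m : ℝ) - P + 1) * (F P * F (m - P))
    - ∑ k ∈ range P, ((m : ℝ) - 2 * k) * (F k * F (m - k))

variable {A : ℕ → PowerSeries ℝ}

theorem Yf_eq_W (hA : Lev A) (k m P : ℕ) (hP : 2 * P ≤ m) :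
    Yf (sq (A (k + 1))) m P = W (sq (A (k + 1))) (sq (A k)) P (m - P) := by
  rw [W_eq (hA.rec_cv k) P (m - P) (by omega)]
  unfold Yf
  have e : P + (m - P) = m := by omega
  have e2 : (P : ℝ) + ((m - P : ℕ) : ℝ) = (m : ℝ) := by
    rw [← Nat.cast_add, e]
  have e3 : ((m - P : ℕ) : ℝ) = (m : ℝ) - P := by linarith
  rw [e, e2, e3]
  ring

theorem Yf_nonneg (hA : Lev A) (k m P : ℕ) (hP : 2 * P ≤ m) : 0 ≤ Yf (sq (A k)) m P := by
  cases k with
  | zero =>
    unfold Yf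
    simp only [hA.sq_zero (by norm_num : 0 < 4)]
    simp
  | succ k =>
    rw [Yf_eq_W hA k m P hP]
    exact W_nonneg hA k P (m - P)

theorem sum_ident (m P : ℕ) : ∑ k ∈ range P, ((m : ℝ) - 2 * k) = (P : ℝ) * ((m : ℝ) - P + 1) := by
  induction P with
  | zero => simp
  | succ P ih =>
    rw [Finset.sum_range_succ, ih]
    push_cast
    ring

theorem Yf_top (hA : Lev A) (k m P : ℕ) (hk : m + 4 ≤ k) (hP : P ≤ m) : Yf (sq (A k)) m P = 0 := by
  unfold Yf
  rw [hA.eq_one k P (by omega), hA.eq_one k (m - P) (by omega)]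
  rw [Finset.sum_congr rfl (g := fun k : ℕ => (m : ℝ) - 2 * k)]
  · rw [sum_ident]; ring
  · intro i hi
    rw [Finset.mem_range] at hi
    rw [hA.eq_one k i (by omega), hA.eq_one k (m - i) (by omega)]
    ring

/-- the sum of the mixed products over the levels -/
noncomputable def TT (A : ℕ → PowerSeries ℝ) (m c M i : ℕ) : ℝ :=
  ∑ h ∈ Ico c M, (sq (A (h + 4)) i * sq (A (h + 3)) (m - i)
    + sq (A (h + 4)) (m - i) * sq (A (h + 3)) i)

/-- the tent inequality from the star inequality -/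
theorem tent_TT (hA : Lev A)
    (hstar : ∀ P Q : ℕ, 1 ≤ P → P ≤ Q → ∀ c N : ℕ, P + Q ≤ N →
      0 ≤ ∑ t ∈ Ico c N, Ex (sq (A (t + 5))) (sq (A (t + 4))) P Q)
    (m c M : ℕ) (hM : m + 1 ≤ M) (P : ℕ) (hP1 : 1 ≤ P) (hP : 2 * P ≤ m) :
    ∑ k ∈ range P, ((m : ℝ) - 2 * k) * TT A m c M k
      ≤ (P : ℝ) * ((m : ℝ) - P + 1) * TT A m c M P := by
  rcases Nat.lt_or_ge M c with hcM | hcM
  · unfold TT
    rw [Finset.Ico_eq_empty (by omega)]
    simp
  -- one level
  have lev : ∀ h : ℕ, (P : ℝ) * ((m : ℝ) - P + 1) * (sq (A (h + 4)) P * sq (A (h + 3)) (m - P)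
      + sq (A (h + 4)) (m - P) * sq (A (h + 3)) P)
      - ∑ k ∈ range P, ((m : ℝ) - 2 * k) * (sq (A (h + 4)) k * sq (A (h + 3)) (m - k)
        + sq (A (h + 4)) (m - k) * sq (A (h + 3)) k)
      = Ex (sq (A (h + 4))) (sq (A (h + 3))) P (m - P)
        + (∑ k ∈ range P, ((m : ℝ) - 2 * k) * ((sq (A (h + 4)) k - sq (A (h + 3)) k)
          * (sq (A (h + 4)) (m - k) - sq (A (h + 3)) (m - k))))
        + (Yf (sq (A (h + 3))) m P - Yf (sq (A (h + 4))) m P) := by
    intro h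
    unfold Ex
    have e := Yf_eq_W hA (h + 3) m P hP
    have e3 : ((m - P : ℕ) : ℝ) = (m : ℝ) - P := by
      rw [Nat.cast_sub (by omega)]
    have e4 : h + 3 + 1 = h + 4 := by ring
    rw [e4] at e
    rw [← e, e3]
    unfold Yf
    have e5 : ∑ k ∈ range P, ((m : ℝ) - 2 * k) * (sq (A (h + 4)) k * sq (A (h + 3)) (m - k)
        + sq (A (h + 4)) (m - k) * sq (A (h + 3)) k)
        = (∑ k ∈ range P, ((m : ℝ) - 2 * k) * (sq (A (h + 4)) k * sq (A (h + 4)) (m - k)))
          + (∑ k ∈ range P, ((m : ℝ) - 2 * k) * (sq (A (h + 3)) k * sq (A (h + 3)) (m - k)))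
          - ∑ k ∈ range P, ((m : ℝ) - 2 * k) * ((sq (A (h + 4)) k - sq (A (h + 3)) k)
          * (sq (A (h + 4)) (m - k) - sq (A (h + 3)) (m - k))) := by
      rw [← Finset.sum_add_distrib, ← Finset.sum_sub_distrib]
      apply Finset.sum_congr rfl
      intro k _
      ring
    rw [e5]
    ring
  -- sum over the levels
  have tot : (P : ℝ) * ((m : ℝ) - P + 1) * TT A m c M P
      - ∑ k ∈ range P, ((m : ℝ) - 2 * k) * TT A m c M k
      = (∑ h ∈ Ico c M, Ex (sq (A (h + 4))) (sq (A (h + 3))) P (m - P))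
        + (∑ h ∈ Ico c M, ∑ k ∈ range P, ((m : ℝ) - 2 * k) * ((sq (A (h + 4)) k - sq (A (h + 3)) k)
          * (sq (A (h + 4)) (m - k) - sq (A (h + 3)) (m - k))))
        + ∑ h ∈ Ico c M, (Yf (sq (A (h + 3))) m P - Yf (sq (A (h + 4))) m P) := by
    rw [← Finset.sum_add_distrib, ← Finset.sum_add_distrib]
    rw [← Finset.sum_congr rfl fun h _ => lev h]
    rw [Finset.sum_sub_distrib]
    unfold TT
    rw [Finset.mul_sum]
    congr 1
    rw [Finset.sum_comm]
    apply Finset.sum_congr rfl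
    intro k _
    rw [Finset.mul_sum]
  -- the telescoping part
  have tel : ∑ h ∈ Ico c M, (Yf (sq (A (h + 3))) m P - Yf (sq (A (h + 4))) m P)
      = Yf (sq (A (c + 3))) m P := by
    rw [Finset.sum_Ico_eq_sum_range]
    have h3 := Finset.sum_range_sub' (fun i => Yf (sq (A (c + i + 3))) m P) (M - c)
    have e : c + (M - c) = M := by omega
    rw [e, Nat.add_zero, Yf_top hA (M + 3) m P (by omega) (by omega), sub_zero] at h3
    rw [← h3]
    apply Finset.sum_congr rfl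
    intro i _
    rfl
  have p1 : 0 ≤ ∑ h ∈ Ico c M, ∑ k ∈ range P, ((m : ℝ) - 2 * k)
      * ((sq (A (h + 4)) k - sq (A (h + 3)) k)
        * (sq (A (h + 4)) (m - k) - sq (A (h + 3)) (m - k))) := by
    apply Finset.sum_nonneg
    intro h _
    apply Finset.sum_nonneg
    intro k hk
    rw [Finset.mem_range] at hk
    have h1 : (0 : ℝ) ≤ (m : ℝ) - 2 * k := by
      have : ((2 * k : ℕ) : ℝ) ≤ (m : ℝ) := by exact_mod_cast (by omega : 2 * k ≤ m)
      push_cast at this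
      linarith
    exact mul_nonneg h1 (mul_nonneg (sub_nonneg.mpr (hA.mono (h + 3) k))
      (sub_nonneg.mpr (hA.mono (h + 3) (m - k))))
  have p2 : 0 ≤ Yf (sq (A (c + 3))) m P := Yf_nonneg hA (c + 3) m P hP
  -- the star part
  have shift : ∀ c', 1 ≤ c' → 0 ≤ ∑ h ∈ Ico c' M, Ex (sq (A (h + 4))) (sq (A (h + 3))) P (m - P) := by
    intro c' hc'
    obtain ⟨d, rfl⟩ : ∃ d, c' = d + 1 := ⟨c' - 1, by omega⟩
    have h1 := hstar P (m - P) hP1 (by omega) d (M - 1) (by omega)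
    have e : M = (M - 1) + 1 := by omega
    rw [e, ← Finset.sum_Ico_add' (fun h => Ex (sq (A (h + 4))) (sq (A (h + 3))) P (m - P)) d (M - 1) 1]
    exact h1
  have p3 : 0 ≤ ∑ h ∈ Ico c M, Ex (sq (A (h + 4))) (sq (A (h + 3))) P (m - P) := by
    rcases Nat.eq_zero_or_pos c with hc0 | hc0
    · subst hc0
      rw [Finset.sum_eq_sum_Ico_succ_bot (by omega : 0 < M)]
      apply add_nonneg _ (shift 1 le_rfl)
      have z : Ex (sq (A 4)) (sq (A 3)) P (m - P) = 0 := by
        unfold Ex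
        rw [hA.lev4 P (by omega), hA.sq_zero (by norm_num : 3 < 4)]
        have h1 : W (sq (A 4)) (sq (A 3)) P (m - P) = 0 := by
          unfold W
          apply Finset.sum_eq_zero
          intro x _
          apply Finset.sum_eq_zero
          intro y _
          rw [J_low hA 3 (by norm_num)]
          ring
        rw [h1]
        ring
      exact le_of_eq z.symm
    · exact shift c hc0
  rw [tel] at tot
  linarith

/-- the analytic side for a family of level series -/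
theorem analytic (hA : Lev A)
    (hstar : ∀ P Q : ℕ, 1 ≤ P → P ≤ Q → ∀ c N : ℕ, P + Q ≤ N →
      0 ≤ ∑ t ∈ Ico c N, Ex (sq (A (t + 5))) (sq (A (t + 4))) P Q)
    (m c M : ℕ) (w : ℕ → ℝ) (hM : m + 1 ≤ M) (hws : ∀ i ≤ m, w i = w (m - i))
    (hwc : ∀ i, 1 ≤ i → i + 1 ≤ m → 2 * w i ≤ w (i - 1) + w (i + 1)) :
    ((m : ℝ) + 1) * ∑ i ∈ range (m + 1), w i * TT A m c M i
      ≤ (∑ i ∈ range (m + 1), w i) * ∑ i ∈ range (m + 1), TT A m c M i := by
  apply convex_tent m (TT A m c M) w _ _ hws hwc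
  · intro i hi
    unfold TT
    apply Finset.sum_congr rfl
    intro h _
    have e : m - (m - i) = i := by omega
    rw [e]
    ring
  · intro P hP1 hP
    exact tent_TT hA hstar m c M hM P hP1 hP

end Frz
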