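import Mathlib

/-!
# MP_66bb51_pr: tables of the integers `N_h(n) = n! F_n(h)` and the finite check

The functions are written with the recursors, because they are evaluated by the kernel.
-/

namespace Frz

/-- `acc + Σ_i c_i a_i b_i` -/
noncomputable def dot3 (cs : List ℕ) : List ℕ → List ℕ → ℕ → ℕ :=
  List.rec (motive := fun _ => List ℕ → List ℕ → ℕ → ℕ) (fun _ _ acc => acc)
    (fun c _ ih as bs acc => List.rec (motive := fun _ => ℕ) acc
      (fun a as _ => List.rec (motive := fun _ => ℕ) acc
        (fun b bs _ => ih as bs (Nat.add acc (Nat.mul c (Nat.mul a b)))) bs) as) cs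

/-- `[p + c_0, c_0 + c_1, …, c_{n-1} + c_n, c_n]` -/
noncomputable def addS (l : List ℕ) : ℕ → List ℕ :=
  List.rec (motive := fun _ => ℕ → List ℕ) (fun p => [p]) (fun c _ ih p => Nat.add p c :: ih c) l

/-- next row of the Pascal triangle -/
noncomputable def nextP (l : List ℕ) : List ℕ := addS l 0

/-- `k` steps of the recursion for one level; the row is accumulated in reverse order -/
noncomputable def rowAux (k : ℕ) : List ℕ → List ℕ → List ℕ → List ℕ :=
  Nat.rec (motive := fun _ => List ℕ → List ℕ → List ℕ → List ℕ) (fun _ racc _ => racc)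
    (fun _ ih c racc G => ih (nextP c) (dot3 c racc G 0 :: racc) G) k

/-- the next level, entries `0, …, H` -/
noncomputable def nextRow (H : ℕ) (G : List ℕ) : List ℕ := (rowAux H [1] [1] G).reverse

/-- the levels `0, …, k`, in reverse order -/
noncomputable def rows (H : ℕ) (k : ℕ) : List (List ℕ) :=
  Nat.rec (motive := fun _ => List (List ℕ)) [1 :: List.replicate H 0]
   (fun _ r => List.rec (motive := fun _ => List (List ℕ)) []
      (fun G rest _ => nextRow H G :: G :: rest) r) k

/-- one level, one `m`: update of the accumulated pairs, `k = P` -/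
noncomputable def upd (m : ℕ) (acc : List (ℕ × ℕ)) :
    ℕ → ℕ → List ℕ → List ℕ → List ℕ → List ℕ → List ℕ → List (ℕ × ℕ) :=
  List.rec (motive := fun _ => ℕ → ℕ → List ℕ → List ℕ → List ℕ → List ℕ → List ℕ → List (ℕ × ℕ))
    (fun _ _ _ _ _ _ _ => [])
    (fun pn _ ih k S cs as ar bs br =>
      List.rec (motive := fun _ => List (ℕ × ℕ)) [] (fun c cs _ =>
        List.rec (motive := fun _ => List (ℕ × ℕ)) [] (fun a as _ =>
          List.rec (motive := fun _ => List (ℕ × ℕ)) [] (fun a' ar _ =>
            List.rec (motive := fun _ => List (ℕ × ℕ)) [] (fun b bs _ =>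
              List.rec (motive := fun _ => List (ℕ × ℕ)) [] (fun b' br _ =>
                (fun q t =>
                (Nat.add pn.1 (Nat.mul q (Nat.mul 2 t)),
                  Nat.add pn.2 (Nat.add (Nat.mul q (Nat.mul c (Nat.mul b b'))) (Nat.mul 2 S)))
                  :: ih (Nat.succ k) (Nat.add S (Nat.mul (Nat.sub m (Nat.mul 2 k)) t)) cs as ar bs br)
                (Nat.mul k (Nat.succ (Nat.sub m k))) (Nat.mul c (Nat.mul a a')))
                br) bs) ar) as) cs) acc

/-- the check of one list of pairs -/
noncomputable def okAll (l : List (ℕ × ℕ)) : Bool :=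
  List.rec (motive := fun _ => Bool) true (fun pn _ ih => (Nat.ble pn.2 pn.1).and ih) l

/-- all `m` from `m` downwards -/
noncomputable def updL (F f : List ℕ) (accs : List (List (ℕ × ℕ))) :
    ℕ → List (List ℕ) → List ℕ → List ℕ → List (List (ℕ × ℕ)) :=
  List.rec (motive := fun _ => ℕ → List (List ℕ) → List ℕ → List ℕ → List (List (ℕ × ℕ)))
    (fun _ _ _ _ => [])
    (fun acc _ ih m pas Fr fr =>
      List.rec (motive := fun _ => List (List (ℕ × ℕ))) [] (fun cs pas _ =>
        upd m acc 0 0 cs F Fr f fr :: ih (Nat.sub m 1) pas Fr.tail fr.tail) pas) accs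

/-- the check of all lists -/
noncomputable def okL (l : List (List (ℕ × ℕ))) : Bool :=
  List.rec (motive := fun _ => Bool) true (fun a _ ih => (okAll a).and ih) l

/-- all levels, in decreasing order; the last one only serves as lower neighbour -/
noncomputable def run (H : ℕ) (pas : List (List ℕ)) (rws : List (List ℕ)) :
    List (List (ℕ × ℕ)) → Bool :=
  List.rec (motive := fun _ => List (List (ℕ × ℕ)) → Bool) (fun _ => true)
    (fun F rest ih accs => List.rec (motive := fun _ => Bool) true
      (fun G _ _ =>
        (fun f => (fun accs' => (okL accs').and (ih accs'))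
          (updL F f accs H pas F.reverse f.reverse)) (List.zipWith Nat.sub F G)) rest) rws

/-- Pascal rows `n, n-1, …, 0` -/
noncomputable def pasL (n : ℕ) : List (List ℕ) :=
  Nat.rec (motive := fun _ => List (List ℕ)) [[1]]
   (fun _ r => List.rec (motive := fun _ => List (List ℕ)) []
      (fun c l _ => nextP c :: c :: l) r) n

/-- initial accumulators for `m = n, …, 0` -/
noncomputable def accs0 (n : ℕ) : List (List (ℕ × ℕ)) :=
  Nat.rec (motive := fun _ => List (List (ℕ × ℕ))) [[(0, 0)]]
   (fun n r => List.replicate ((n + 1) / 2 + 1) (0, 0) :: r) n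

/-- the finite check for all `m ≤ H` and the levels `1, …, K` -/
noncomputable def chk (H K : ℕ) : Bool := run H (pasL H) (rows H K) (accs0 H)

end Frz
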