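import Pool.Agent.Frz.Tab

/-!
# MP_66bb51_pr: specification of the table functions
-/

namespace Frz

open Finset

theorem dot3_nil (as bs : List ℕ) (acc : ℕ) : dot3 [] as bs acc = acc := rfl

theorem dot3_cons (c a b : ℕ) (cs as bs : List ℕ) (acc : ℕ) :
    dot3 (c :: cs) (a :: as) (b :: bs) acc = dot3 cs as bs (acc + c * (a * b)) := rfl

theorem dot3_spec : ∀ (cs as bs : List ℕ) (acc : ℕ), cs.length ≤ as.length → cs.length ≤ bs.length →
    dot3 cs as bs acc = acc + ∑ i ∈ range cs.length, cs.getD i 0 * (as.getD i 0 * bs.getD i 0)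
  | [], _, _, acc, _, _ => by simp [dot3_nil]
  | c :: cs, [], _, _, h, _ => by simp at h
  | c :: cs, _ :: _, [], _, _, h => by simp at h
  | c :: cs, a :: as, b :: bs, acc, h1, h2 => by
    have h1' : cs.length ≤ as.length := by simpa using h1
    have h2' : cs.length ≤ bs.length := by simpa using h2
    rw [dot3_cons, dot3_spec cs as bs _ h1' h2', List.length_cons, Finset.sum_range_succ']
    simp only [List.getD_cons_succ, List.getD_cons_zero]
    ring

theorem addS_nil (p : ℕ) : addS [] p = [p] := rfl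

theorem addS_cons (c : ℕ) (cs : List ℕ) (p : ℕ) : addS (c :: cs) p = (p + c) :: addS cs c := rfl

theorem addS_length : ∀ (l : List ℕ) (p : ℕ), (addS l p).length = l.length + 1
  | [], p => rfl
  | c :: cs, p => by rw [addS_cons, List.length_cons, addS_length cs c, List.length_cons]

theorem addS_getD_zero (l : List ℕ) (p : ℕ) : (addS l p).getD 0 0 = p + l.getD 0 0 := by
  cases l with
  | nil => rfl
  | cons c cs => rfl

theorem addS_getD_succ : ∀ (l : List ℕ) (p i : ℕ),
    (addS l p).getD (i + 1) 0 = l.getD i 0 + l.getD (i + 1) 0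
  | [], p, i => by simp [addS_nil]
  | c :: cs, p, 0 => by
    rw [addS_cons, List.getD_cons_succ, addS_getD_zero, List.getD_cons_zero, List.getD_cons_succ]
  | c :: cs, p, i + 1 => by
    rw [addS_cons, List.getD_cons_succ, addS_getD_succ cs c i, List.getD_cons_succ,
      List.getD_cons_succ]

/-- `cs` is the row `n` of the Pascal triangle -/
def PasP (n : ℕ) (cs : List ℕ) : Prop := cs.length = n + 1 ∧ ∀ i, cs.getD i 0 = n.choose i

theorem PasP_one : PasP 0 [1] := by
  refine ⟨rfl, ?_⟩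
  intro i
  cases i with
  | zero => rfl
  | succ i => simp

theorem PasP_next {n : ℕ} {cs : List ℕ} (h : PasP n cs) : PasP (n + 1) (nextP cs) := by
  refine ⟨?_, ?_⟩
  · unfold nextP
    rw [addS_length, h.1]
  · intro i
    unfold nextP
    cases i with
    | zero => rw [addS_getD_zero, h.2]; simp
    | succ i => rw [addS_getD_succ, h.2, h.2, Nat.choose_succ_succ]

theorem rowAux_zero (c racc G : List ℕ) : rowAux 0 c racc G = racc := rfl

theorem rowAux_succ (k : ℕ) (c racc G : List ℕ) :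
    rowAux (k + 1) c racc G = rowAux k (nextP c) (dot3 c racc G 0 :: racc) G := rfl

/-- `l` lists the numbers `n! F n`, `n ≤ H` -/
def Rep (F : ℕ → ℝ) (H : ℕ) (l : List ℕ) : Prop :=
  l.length = H + 1 ∧ ∀ n, n ≤ H → (l.getD n 0 : ℝ) = (n.factorial : ℝ) * F n

/-- the same in reverse order -/
def RepR (F : ℕ → ℝ) (H : ℕ) (l : List ℕ) : Prop :=
  l.length = H + 1 ∧ ∀ i, i ≤ H → (l.getD i 0 : ℝ) = ((H - i).factorial : ℝ) * F (H - i)

/-- the numerical recursion with binomial coefficients -/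
theorem fact_rec {F G : ℕ → ℝ}
    (hF : ∀ n : ℕ, ((n : ℝ) + 1) * F (n + 1) = ∑ x ∈ range (n + 1), F x * G (n - x)) (n : ℕ) :
    ((n + 1).factorial : ℝ) * F (n + 1)
      = ∑ i ∈ range (n + 1), (n.choose i : ℝ) * ((((n - i).factorial : ℝ) * F (n - i))
        * ((i.factorial : ℝ) * G i)) := by
  rw [Nat.factorial_succ]
  push_cast
  have h : ((n : ℝ) + 1) * (n.factorial : ℝ) * F (n + 1)
      = (n.factorial : ℝ) * (((n : ℝ) + 1) * F (n + 1)) := by ring
  rw [h, hF n, ← Finset.sum_range_reflect, Finset.mul_sum]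
  apply Finset.sum_congr rfl
  intro i hi
  rw [Finset.mem_range] at hi
  have hi' : i ≤ n := by omega
  have e1 : n + 1 - 1 - i = n - i := by omega
  have e2 : n - (n - i) = i := by omega
  rw [e1, e2]
  have h2 := Nat.choose_mul_factorial_mul_factorial hi'
  have h3 : (n.choose i : ℝ) * (i.factorial : ℝ) * ((n - i).factorial : ℝ) = (n.factorial : ℝ) := by
    exact_mod_cast h2
  rw [← h3]
  ring

theorem rowAux_spec {F G : ℕ → ℝ} (H : ℕ) (g : List ℕ) (hg : Rep G H g)
    (hF : ∀ n : ℕ, ((n : ℝ) + 1) * F (n + 1) = ∑ x ∈ range (n + 1), F x * G (n - x)) :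
    ∀ (k n : ℕ) (c racc : List ℕ), n + k = H → PasP n c → RepR F n racc →
      RepR F H (rowAux k c racc g) := by
  intro k
  induction k with
  | zero =>
    intro n c racc hn _ hr
    rw [rowAux_zero]
    rw [Nat.add_zero] at hn
    rw [← hn]
    exact hr
  | succ k ih =>
    intro n c racc hn hc hr
    rw [rowAux_succ]
    apply ih (n + 1) _ _ (by omega) (PasP_next hc)
    refine ⟨?_, ?_⟩
    · rw [List.length_cons, hr.1]
    · intro i hi
      cases i with
      | zero =>
        rw [List.getD_cons_zero, dot3_spec c racc g 0 (by rw [hc.1, hr.1]) (by rw [hc.1, hg.1]; omega),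
          Nat.sub_zero, fact_rec hF n, hc.1]
        push_cast
        rw [zero_add]
        apply Finset.sum_congr rfl
        intro j hj
        rw [Finset.mem_range] at hj
        rw [hr.2 j (by omega), hg.2 j (by omega), hc.2 j]
      | succ i =>
        rw [List.getD_cons_succ, hr.2 i (by omega)]
        have e : n + 1 - (i + 1) = n - i := by omega
        rw [e]

theorem getD_reverse (l : List ℕ) (i : ℕ) (hi : i < l.length) :
    l.reverse.getD i 0 = l.getD (l.length - 1 - i) 0 := by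
  rw [List.getD_eq_getElem _ _ (by rw [List.length_reverse]; exact hi), List.getElem_reverse,
    List.getD_eq_getElem _ _ (by omega)]

theorem Rep_of_RepR {F : ℕ → ℝ} {H : ℕ} {l : List ℕ} (h : RepR F H l) : Rep F H l.reverse := by
  refine ⟨by rw [List.length_reverse, h.1], ?_⟩
  intro n hn
  rw [getD_reverse l n (by rw [h.1]; omega), h.1, h.2 _ (by omega)]
  have e : H - (H + 1 - 1 - n) = n := by omega
  rw [e]

theorem RepR_of_Rep {F : ℕ → ℝ} {H : ℕ} {l : List ℕ} (h : Rep F H l) : RepR F H l.reverse := by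
  refine ⟨by rw [List.length_reverse, h.1], ?_⟩
  intro n hn
  rw [getD_reverse l n (by rw [h.1]; omega), h.1, h.2 _ (by omega)]
  have e : H + 1 - 1 - n = H - n := by omega
  rw [e]

theorem nextRow_spec {F G : ℕ → ℝ} (H : ℕ) (g : List ℕ) (hg : Rep G H g) (hF0 : F 0 = 1)
    (hF : ∀ n : ℕ, ((n : ℝ) + 1) * F (n + 1) = ∑ x ∈ range (n + 1), F x * G (n - x)) :
    Rep F H (nextRow H g) := by
  unfold nextRow
  apply Rep_of_RepR
  apply rowAux_spec H g hg hF H 0 [1] [1] (by omega) PasP_one
  refine ⟨rfl, ?_⟩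
  intro i hi
  have : i = 0 := by omega
  subst this
  simp [hF0]

/-- `l` lists the levels `k, k-1, …, 0` -/
def RepL (F : ℕ → ℕ → ℝ) (H : ℕ) : ℕ → List (List ℕ) → Prop
  | 0, l => ∃ g, l = [g] ∧ Rep (F 0) H g
  | k + 1, l => ∃ g rest, l = g :: rest ∧ Rep (F (k + 1)) H g ∧ RepL F H k rest

theorem rows_zero (H : ℕ) : rows H 0 = [1 :: List.replicate H 0] := rfl

theorem rows_succ (H k : ℕ) (g : List ℕ) (rest : List (List ℕ)) (h : rows H k = g :: rest) :
    rows H (k + 1) = nextRow H g :: g :: rest := by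
  have e : rows H (k + 1) = List.rec (motive := fun _ => List (List ℕ)) []
      (fun G rest _ => nextRow H G :: G :: rest) (rows H k) := rfl
  rw [e, h]

theorem RepL_head {F : ℕ → ℕ → ℝ} {H k : ℕ} {l : List (List ℕ)} (h : RepL F H k l) :
    ∃ g rest, l = g :: rest ∧ Rep (F k) H g := by
  cases k with
  | zero =>
    obtain ⟨g, h1, h2⟩ := h
    exact ⟨g, [], h1, h2⟩
  | succ k =>
    obtain ⟨g, rest, h1, h2, _⟩ := h
    exact ⟨g, rest, h1, h2⟩

theorem rows_spec {F : ℕ → ℕ → ℝ} (H : ℕ) (h0 : F 0 0 = 1) (h0' : ∀ n, n ≠ 0 → F 0 n = 0)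
    (h1 : ∀ k, F (k + 1) 0 = 1)
    (hF : ∀ k n : ℕ, ((n : ℝ) + 1) * F (k + 1) (n + 1) = ∑ x ∈ range (n + 1), F (k + 1) x * F k (n - x))
    (k : ℕ) : RepL F H k (rows H k) := by
  induction k with
  | zero =>
    rw [rows_zero]
    refine ⟨_, rfl, by simp, ?_⟩
    intro n _
    cases n with
    | zero => simp [h0]
    | succ n =>
      rw [List.getD_cons_succ, h0' (n + 1) (by omega)]
      simp
  | succ k ih =>
    obtain ⟨g, rest, e, hg⟩ := RepL_head ih
    rw [rows_succ H k g rest e]
    refine ⟨_, _, rfl, nextRow_spec H g hg (h1 k) (hF k), ?_⟩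
    rw [← e]
    exact ih

end Frz
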