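import Pool.Agent.Frz.TabSpec

/-!
# MP_66bb51_pr: specification of the accumulators
-/

namespace Frz

open Finset

theorem upd_nil (m k S : ℕ) (cs as ar bs br : List ℕ) : upd m [] k S cs as ar bs br = [] := rfl

theorem upd_cons (m : ℕ) (pn : ℕ × ℕ) (acc : List (ℕ × ℕ)) (k S c a a' b b' : ℕ)
    (cs as ar bs br : List ℕ) :
    upd m (pn :: acc) k S (c :: cs) (a :: as) (a' :: ar) (b :: bs) (b' :: br)
      = (pn.1 + (k * (m - k + 1)) * (2 * (c * (a * a'))),
          pn.2 + ((k * (m - k + 1)) * (c * (b * b')) + 2 * S))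
        :: upd m acc (k + 1) (S + (m - 2 * k) * (c * (a * a'))) cs as ar bs br := rfl

theorem upd_spec (m : ℕ) : ∀ (acc : List (ℕ × ℕ)) (k S : ℕ) (cs as ar bs br : List ℕ),
    acc.length ≤ cs.length → acc.length ≤ as.length → acc.length ≤ ar.length →
    acc.length ≤ bs.length → acc.length ≤ br.length →
    (upd m acc k S cs as ar bs br).length = acc.length ∧
    ∀ j, j < acc.length → (upd m acc k S cs as ar bs br).getD j (0, 0)
      = ((acc.getD j (0, 0)).1 + ((k + j) * (m - (k + j) + 1))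
            * (2 * (cs.getD j 0 * (as.getD j 0 * ar.getD j 0))),
          (acc.getD j (0, 0)).2 + (((k + j) * (m - (k + j) + 1))
            * (cs.getD j 0 * (bs.getD j 0 * br.getD j 0))
            + 2 * (S + ∑ i ∈ range j, (m - 2 * (k + i))
              * (cs.getD i 0 * (as.getD i 0 * ar.getD i 0)))))
  | [], k, S, cs, as, ar, bs, br, _, _, _, _, _ => by
    rw [upd_nil]
    refine ⟨rfl, ?_⟩
    intro j hj
    simp at hj
  | pn :: acc, k, S, [], as, ar, bs, br, h1, _, _, _, _ => by simp at h1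
  | pn :: acc, k, S, c :: cs, [], ar, bs, br, _, h2, _, _, _ => by simp at h2
  | pn :: acc, k, S, c :: cs, a :: as, [], bs, br, _, _, h3, _, _ => by simp at h3
  | pn :: acc, k, S, c :: cs, a :: as, a' :: ar, [], br, _, _, _, h4, _ => by simp at h4
  | pn :: acc, k, S, c :: cs, a :: as, a' :: ar, b :: bs, [], _, _, _, _, h5 => by simp at h5
  | pn :: acc, k, S, c :: cs, a :: as, a' :: ar, b :: bs, b' :: br, h1, h2, h3, h4, h5 => by
    rw [List.length_cons, List.length_cons] at h1 h2 h3 h4 h5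
    have ih := upd_spec m acc (k + 1) (S + (m - 2 * k) * (c * (a * a'))) cs as ar bs br
      (by omega) (by omega) (by omega) (by omega) (by omega)
    rw [upd_cons]
    refine ⟨by rw [List.length_cons, List.length_cons, ih.1], ?_⟩
    intro j hj
    cases j with
    | zero =>
      simp only [List.getD_cons_zero, Nat.add_zero, Finset.range_zero, Finset.sum_empty]
    | succ j =>
      rw [List.length_cons] at hj
      rw [List.getD_cons_succ, ih.2 j (by omega), Finset.sum_range_succ']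
      simp only [List.getD_cons_succ, List.getD_cons_zero, Nat.add_zero]
      have e1 : k + 1 + j = k + (j + 1) := by ring
      have e2 : ∀ i, k + 1 + i = k + (i + 1) := fun i => by ring
      rw [e1]
      simp only [e2]
      congr 3
      ring

theorem okAll_nil : okAll [] = true := rfl

theorem okAll_cons (pn : ℕ × ℕ) (l : List (ℕ × ℕ)) :
    okAll (pn :: l) = ((Nat.ble pn.2 pn.1).and (okAll l)) := rfl

theorem okAll_spec : ∀ (l : List (ℕ × ℕ)), okAll l = true → ∀ j, j < l.length →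
    (l.getD j (0, 0)).2 ≤ (l.getD j (0, 0)).1
  | [], _, j, hj => by simp at hj
  | pn :: l, h, j, hj => by
    rw [okAll_cons, Bool.and_eq_true] at h
    cases j with
    | zero =>
      rw [List.getD_cons_zero]
      exact Nat.le_of_ble_eq_true h.1
    | succ j =>
      rw [List.getD_cons_succ]
      exact okAll_spec l h.2 j (by simpa using hj)

theorem okL_cons (a : List (ℕ × ℕ)) (l : List (List (ℕ × ℕ))) :
    okL (a :: l) = ((okAll a).and (okL l)) := rfl

theorem okL_spec : ∀ (l : List (List (ℕ × ℕ))), okL l = true → ∀ j, j < l.length →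
    okAll (l.getD j []) = true
  | [], _, j, hj => by simp at hj
  | a :: l, h, j, hj => by
    rw [okL_cons, Bool.and_eq_true] at h
    cases j with
    | zero => rw [List.getD_cons_zero]; exact h.1
    | succ j =>
      rw [List.getD_cons_succ]
      exact okL_spec l h.2 j (by simpa using hj)

theorem updL_nil (F f : List ℕ) (m : ℕ) (pas : List (List ℕ)) (Fr fr : List ℕ) :
    updL F f [] m pas Fr fr = [] := rfl

theorem updL_cons (F f : List ℕ) (acc : List (ℕ × ℕ)) (accs : List (List (ℕ × ℕ))) (m : ℕ)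
    (cs : List ℕ) (pas : List (List ℕ)) (Fr fr : List ℕ) :
    updL F f (acc :: accs) m (cs :: pas) Fr fr
      = upd m acc 0 0 cs F Fr f fr :: updL F f accs (m - 1) pas Fr.tail fr.tail := rfl

/-- the accumulators: entry `i` belongs to `m = M - i`, its entry `P` is `(X (M - i) P, Y (M - i) P)` -/
def AccR (X Y : ℕ → ℕ → ℕ) : ℕ → List (List (ℕ × ℕ)) → Prop
  | 0, l => ∃ a, l = [a] ∧ a.length = 1 ∧ ∀ P, P ≤ 0 → a.getD P (0, 0) = (X 0 P, Y 0 P)
  | M + 1, l => ∃ a rest, l = a :: rest ∧ a.length = (M + 1) / 2 + 1 ∧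
      (∀ P, P ≤ (M + 1) / 2 → a.getD P (0, 0) = (X (M + 1) P, Y (M + 1) P)) ∧ AccR X Y M rest

theorem AccR_head {X Y : ℕ → ℕ → ℕ} {M : ℕ} {l : List (List (ℕ × ℕ))} (h : AccR X Y M l) :
    ∃ a rest, l = a :: rest ∧ a.length = M / 2 + 1 ∧
      (∀ P, P ≤ M / 2 → a.getD P (0, 0) = (X M P, Y M P)) := by
  cases M with
  | zero =>
    obtain ⟨a, h1, h2, h3⟩ := h
    exact ⟨a, [], h1, h2, h3⟩
  | succ M =>
    obtain ⟨a, rest, h1, h2, h3, _⟩ := h
    exact ⟨a, rest, h1, h2, h3⟩

theorem AccR_ok {X Y : ℕ → ℕ → ℕ} : ∀ {M : ℕ} {l : List (List (ℕ × ℕ))}, AccR X Y M l →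
    okL l = true → ∀ m, m ≤ M → ∀ P, P ≤ m / 2 → Y m P ≤ X m P
  | 0, l, h, hok, m, hm, P, hP => by
    obtain ⟨a, h1, h2, h3⟩ := h
    subst h1
    rw [okL_cons, Bool.and_eq_true] at hok
    have hm0 : m = 0 := by omega
    subst hm0
    have hP0 : P ≤ 0 := by simpa using hP
    have := okAll_spec a hok.1 P (by omega)
    rw [h3 P hP0] at this
    exact this
  | M + 1, l, h, hok, m, hm, P, hP => by
    obtain ⟨a, rest, h1, h2, h3, h4⟩ := h
    subst h1
    rw [okL_cons, Bool.and_eq_true] at hok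
    rcases Nat.lt_or_ge m (M + 1) with hlt | hge
    · exact AccR_ok h4 hok.2 m (by omega) P hP
    · have hm0 : m = M + 1 := by omega
      subst hm0
      have := okAll_spec a hok.1 P (by omega)
      rw [h3 P hP] at this
      exact this

/-- Pascal rows `M, …, 0` -/
def PasR : ℕ → List (List ℕ) → Prop
  | 0, l => ∃ c, l = [c] ∧ PasP 0 c
  | M + 1, l => ∃ c rest, l = c :: rest ∧ PasP (M + 1) c ∧ PasR M rest

theorem PasR_head {M : ℕ} {l : List (List ℕ)} (h : PasR M l) :
    ∃ c rest, l = c :: rest ∧ PasP M c := by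
  cases M with
  | zero =>
    obtain ⟨c, h1, h2⟩ := h
    exact ⟨c, [], h1, h2⟩
  | succ M =>
    obtain ⟨c, rest, h1, h2, _⟩ := h
    exact ⟨c, rest, h1, h2⟩

theorem pasL_spec (n : ℕ) : PasR n (pasL n) := by
  induction n with
  | zero => exact ⟨[1], rfl, PasP_one⟩
  | succ n ih =>
    obtain ⟨c, rest, e, hc⟩ := PasR_head ih
    have e2 : pasL (n + 1) = List.rec (motive := fun _ => List (List ℕ)) []
      (fun c l _ => nextP c :: c :: l) (pasL n) := rfl
    rw [e2, e]
    refine ⟨nextP c, c :: rest, rfl, PasP_next hc, ?_⟩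
    rw [← e]
    exact ih

theorem getD_tail (l : List ℕ) (i : ℕ) : l.tail.getD i 0 = l.getD (i + 1) 0 := by
  cases l with
  | nil => simp
  | cons a l => rw [List.tail_cons, List.getD_cons_succ]

/-- the increment of the first accumulator -/
def incX (a : ℕ → ℕ) (m P : ℕ) : ℕ :=
  (P * (m - P + 1)) * (2 * (m.choose P * (a P * a (m - P))))

/-- the increment of the second accumulator -/
def incY (a b : ℕ → ℕ) (m P : ℕ) : ℕ :=
  (P * (m - P + 1)) * (m.choose P * (b P * b (m - P)))
    + 2 * ∑ i ∈ range P, (m - 2 * i) * (m.choose i * (a i * a (m - i)))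

theorem updL_spec (a b : ℕ → ℕ) (F f : List ℕ) {X Y : ℕ → ℕ → ℕ} : ∀ (M : ℕ)
    (accs : List (List (ℕ × ℕ))) (pas : List (List ℕ)) (Fr fr : List ℕ),
    AccR X Y M accs → PasR M pas → M + 1 ≤ F.length → M + 1 ≤ f.length →
    (∀ i, i ≤ M → F.getD i 0 = a i) → (∀ i, i ≤ M → f.getD i 0 = b i) →
    M + 1 ≤ Fr.length → M + 1 ≤ fr.length →
    (∀ i, i ≤ M → Fr.getD i 0 = a (M - i)) → (∀ i, i ≤ M → fr.getD i 0 = b (M - i)) →
    AccR (fun m P => X m P + incX a m P) (fun m P => Y m P + incY a b m P) M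
      (updL F f accs M pas Fr fr) := by
  -- one entry
  have one : ∀ (M : ℕ) (acc : List (ℕ × ℕ)) (cs Fr fr : List ℕ), acc.length = M / 2 + 1 →
      (∀ P, P ≤ M / 2 → acc.getD P (0, 0) = (X M P, Y M P)) → PasP M cs →
      M + 1 ≤ F.length → M + 1 ≤ f.length →
      (∀ i, i ≤ M → F.getD i 0 = a i) → (∀ i, i ≤ M → f.getD i 0 = b i) →
      M + 1 ≤ Fr.length → M + 1 ≤ fr.length →
      (∀ i, i ≤ M → Fr.getD i 0 = a (M - i)) → (∀ i, i ≤ M → fr.getD i 0 = b (M - i)) →
      (upd M acc 0 0 cs F Fr f fr).length = M / 2 + 1 ∧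
      ∀ P, P ≤ M / 2 → (upd M acc 0 0 cs F Fr f fr).getD P (0, 0)
        = (X M P + incX a M P, Y M P + incY a b M P) := by
    intro M acc cs Fr fr hl hacc hcs h1 h2 h3 h4 h5 h6 h7 h8
    have hs := upd_spec M acc 0 0 cs F Fr f fr (by rw [hl, hcs.1]; omega) (by omega) (by omega)
      (by omega) (by omega)
    refine ⟨by rw [hs.1, hl], ?_⟩
    intro P hP
    rw [hs.2 P (by omega), hacc P hP]
    simp only [Nat.zero_add]
    rw [hcs.2 P, h3 P (by omega), h7 P (by omega), h4 P (by omega), h8 P (by omega)]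
    unfold incX incY
    have e : ∑ i ∈ range P, (M - 2 * i) * (cs.getD i 0 * (F.getD i 0 * Fr.getD i 0))
        = ∑ i ∈ range P, (M - 2 * i) * (M.choose i * (a i * a (M - i))) := by
      apply Finset.sum_congr rfl
      intro i hi
      rw [Finset.mem_range] at hi
      rw [hcs.2 i, h3 i (by omega), h7 i (by omega)]
    rw [e]
  intro M
  induction M with
  | zero =>
    intro accs pas Fr fr hacc hpas h1 h2 h3 h4 h5 h6 h7 h8
    obtain ⟨acc, e1, e2, e3⟩ := hacc
    obtain ⟨cs, e4, e5⟩ := hpas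
    subst e1; subst e4
    rw [updL_cons, updL_nil]
    have := one 0 acc cs Fr fr e2 (by simpa using e3) e5 h1 h2 h3 h4 h5 h6 h7 h8
    refine ⟨_, rfl, this.1, ?_⟩
    intro P hP
    exact this.2 P (by simpa using hP)
  | succ M ih =>
    intro accs pas Fr fr hacc hpas h1 h2 h3 h4 h5 h6 h7 h8
    obtain ⟨acc, accs', e1, e2, e3, e3'⟩ := hacc
    obtain ⟨cs, pas', e4, e5, e6⟩ := hpas
    subst e1; subst e4
    rw [updL_cons]
    have := one (M + 1) acc cs Fr fr e2 e3 e5 h1 h2 h3 h4 h5 h6 h7 h8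
    refine ⟨_, _, rfl, this.1, this.2, ?_⟩
    rw [Nat.add_sub_cancel]
    apply ih accs' pas' Fr.tail fr.tail e3' e6 (by omega) (by omega)
      (fun i hi => h3 i (by omega)) (fun i hi => h4 i (by omega))
      (by rw [List.length_tail]; omega) (by rw [List.length_tail]; omega)
    · intro i hi
      rw [getD_tail, h7 (i + 1) (by omega)]
      congr 1
      omega
    · intro i hi
      rw [getD_tail, h8 (i + 1) (by omega)]
      congr 1
      omega

end Frz
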