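import Pool.Agent.Frz.Basic

/-!
# MP_66bb51_pr: the recursion for `J_{ab} = F_a F_b - F_{a+b+1}` and the identity for `W_{PQ}`
-/

namespace Frz

open PowerSeries Finset

/-- `J F a b = F_a F_b - F_{a+b+1}` -/
def J (F : ℕ → ℝ) (a b : ℕ) : ℝ := F a * F b - F (a + b + 1)

theorem J_comm (F : ℕ → ℝ) (a b : ℕ) : J F a b = J F b a := by
  unfold J
  rw [mul_comm, Nat.add_comm a b]

/-- splitting of the recursion sum of `F_{a+b+1}` -/
theorem rec_split {F G : ℕ → ℝ} (hF : ∀ n : ℕ, (n : ℝ) * F n = cv F G n) (a b : ℕ) :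
    ((a : ℝ) + b + 1) * F (a + b + 1)
      = (∑ y ∈ range a, F y * G (a - 1 - y + b + 1)) + F a * G b
        + ∑ y ∈ range b, F (a + y + 1) * G (b - 1 - y) := by
  have h := hF (a + b + 1)
  have e1 : ((a + b + 1 : ℕ) : ℝ) = (a : ℝ) + b + 1 := by push_cast; ring
  rw [e1] at h
  rw [h]
  unfold cv
  rw [show a + b + 1 = a + (1 + b) by ring, Finset.sum_range_add, Finset.sum_range_add]
  rw [← add_assoc]
  congr 1
  · congr 1
    · apply Finset.sum_congr rfl
      intro x hx
      rw [Finset.mem_range] at hx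
      congr 2
      omega
    · rw [Finset.sum_range_one]
      have e4 : a + (1 + b) - 1 - (a + 0) = b := by omega
      rw [e4, Nat.add_zero]
  · apply Finset.sum_congr rfl
    intro x hx
    rw [Finset.mem_range] at hx
    have e2 : a + (1 + x) = a + x + 1 := by ring
    have e3 : a + (1 + b) - 1 - (a + (1 + x)) = b - 1 - x := by omega
    rw [e3, e2]

theorem Y3 {F G : ℕ → ℝ} (hF : ∀ n : ℕ, (n : ℝ) * F n = cv F G n) (a b : ℕ) :
    ((a : ℝ) + b + 1) * J F a b
      = (∑ y ∈ range b, J F a y * G (b - 1 - y)) + (∑ y ∈ range a, F y * J G (a - 1 - y) b)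
        + ((a : ℝ) + 1) * F a * (F b - G b) := by
  have h1 := rec_split hF a b
  have h2 : (b : ℝ) * F b = ∑ y ∈ range b, F y * G (b - 1 - y) := hF b
  have h3 : (a : ℝ) * F a = ∑ y ∈ range a, F y * G (a - 1 - y) := hF a
  have e1 : ∑ y ∈ range b, J F a y * G (b - 1 - y)
      = F a * (∑ y ∈ range b, F y * G (b - 1 - y)) - ∑ y ∈ range b, F (a + y + 1) * G (b - 1 - y) := by
    rw [Finset.mul_sum, ← Finset.sum_sub_distrib]
    apply Finset.sum_congr rfl
    intro y _
    unfold J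
    ring
  have e2 : ∑ y ∈ range a, F y * J G (a - 1 - y) b
      = G b * (∑ y ∈ range a, F y * G (a - 1 - y)) - ∑ y ∈ range a, F y * G (a - 1 - y + b + 1) := by
    rw [Finset.mul_sum, ← Finset.sum_sub_distrib]
    apply Finset.sum_congr rfl
    intro y _
    unfold J
    ring
  rw [e1, e2, ← h2, ← h3]
  unfold J
  linear_combination (-1 : ℝ) * h1

/-- the mirror form, written with the second index in the `J` of the lower level -/
theorem Y3' {F G : ℕ → ℝ} (hF : ∀ n : ℕ, (n : ℝ) * F n = cv F G n) (a b : ℕ) :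
    ((a : ℝ) + b + 1) * J F a b
      = (∑ x ∈ range a, J F x b * G (a - 1 - x)) + (∑ x ∈ range b, F x * J G a (b - 1 - x))
        + ((b : ℝ) + 1) * F b * (F a - G a) := by
  have h := Y3 hF b a
  rw [J_comm F a b]
  have e0 : (a : ℝ) + b + 1 = (b : ℝ) + a + 1 := by ring
  rw [e0, h]
  congr 2
  · apply Finset.sum_congr rfl
    intro x _
    rw [J_comm]
  · apply Finset.sum_congr rfl
    intro x _
    rw [J_comm G]

/-- `W = Σ_{x<P, y<Q} F_x F_y J^G_{P-1-x, Q-1-y}` -/
def W (F G : ℕ → ℝ) (P Q : ℕ) : ℝ :=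
  ∑ x ∈ range P, ∑ y ∈ range Q, F x * F y * J G (P - 1 - x) (Q - 1 - y)

/-- the identity `W = P (Q + 1) F_P F_Q - Σ_{k<P} (P + Q - 2 k) F_k F_{P+Q-k}` -/
theorem W_eq {F G : ℕ → ℝ} (hF : ∀ n : ℕ, (n : ℝ) * F n = cv F G n) (P Q : ℕ) (hPQ : P ≤ Q) :
    W F G P Q = (P : ℝ) * (Q + 1) * F P * F Q
      - ∑ k ∈ range P, ((P : ℝ) + Q - 2 * k) * (F k * F (P + Q - k)) := by
  -- first part
  have e1 : W F G P Q = ((P : ℝ) * F P) * ((Q : ℝ) * F Q)
      - ∑ x ∈ range P, ∑ y ∈ range Q, F x * F y * G (P + Q - 1 - x - y) := by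
    rw [hF P, hF Q]
    unfold W cv
    rw [Finset.sum_mul_sum, ← Finset.sum_sub_distrib]
    apply Finset.sum_congr rfl
    intro x hx
    rw [← Finset.sum_sub_distrib]
    apply Finset.sum_congr rfl
    intro y hy
    rw [Finset.mem_range] at hx hy
    unfold J
    have e : P - 1 - x + (Q - 1 - y) + 1 = P + Q - 1 - x - y := by omega
    rw [e]
    ring
  -- second part
  have e2 : ∑ x ∈ range P, ∑ y ∈ range Q, F x * F y * G (P + Q - 1 - x - y)
      = (∑ x ∈ range P, ((P : ℝ) + Q - x) * (F x * F (P + Q - x)))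
        - ∑ x ∈ range P, ∑ y ∈ Ico Q (P + Q - x), F x * F y * G (P + Q - 1 - x - y) := by
    rw [← Finset.sum_sub_distrib]
    apply Finset.sum_congr rfl
    intro x hx
    rw [Finset.mem_range] at hx
    have h1 := hF (P + Q - x)
    have e3 : ((P + Q - x : ℕ) : ℝ) = (P : ℝ) + Q - x := by
      rw [Nat.cast_sub (by omega)]; push_cast; ring
    rw [e3] at h1
    have h2 : cv F G (P + Q - x) = ∑ y ∈ range (P + Q - x), F y * G (P + Q - 1 - x - y) := by
      unfold cv
      apply Finset.sum_congr rfl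
      intro y hy
      congr 2
      omega
    rw [h2] at h1
    have h3 : ∑ y ∈ range (P + Q - x), F y * G (P + Q - 1 - x - y)
        = ∑ y ∈ range Q, F y * G (P + Q - 1 - x - y)
          + ∑ y ∈ Ico Q (P + Q - x), F y * G (P + Q - 1 - x - y) := by
      rw [← Finset.sum_range_add_sum_Ico _ (by omega : Q ≤ P + Q - x)]
    have h4 : ∑ y ∈ range Q, F x * F y * G (P + Q - 1 - x - y)
        = F x * ∑ y ∈ range Q, F y * G (P + Q - 1 - x - y) := by
      rw [Finset.mul_sum]
      exact Finset.sum_congr rfl fun y _ => by ring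
    have h5 : ∑ y ∈ Ico Q (P + Q - x), F x * F y * G (P + Q - 1 - x - y)
        = F x * ∑ y ∈ Ico Q (P + Q - x), F y * G (P + Q - 1 - x - y) := by
      rw [Finset.mul_sum]
      exact Finset.sum_congr rfl fun y _ => by ring
    rw [h4, h5]
    linear_combination (-F x) * h1 - F x * h3
  -- exchange
  have e4 : ∑ x ∈ range P, ∑ y ∈ Ico Q (P + Q - x), F x * F y * G (P + Q - 1 - x - y)
      = ∑ y ∈ Ico Q (P + Q), ∑ x ∈ range (P + Q - y), F x * F y * G (P + Q - 1 - x - y) := by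
    apply Finset.sum_comm'
    intro x y
    simp only [Finset.mem_range, Finset.mem_Ico]
    omega
  have e5 : ∑ y ∈ Ico Q (P + Q), ∑ x ∈ range (P + Q - y), F x * F y * G (P + Q - 1 - x - y)
      = ∑ y ∈ Ico Q (P + Q), ((P : ℝ) + Q - y) * (F (P + Q - y) * F y) := by
    apply Finset.sum_congr rfl
    intro y hy
    rw [Finset.mem_Ico] at hy
    have h1 := hF (P + Q - y)
    have e3 : ((P + Q - y : ℕ) : ℝ) = (P : ℝ) + Q - y := by
      rw [Nat.cast_sub (by omega)]; push_cast; ring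
    rw [e3] at h1
    have h2 : ∑ x ∈ range (P + Q - y), F x * F y * G (P + Q - 1 - x - y)
        = F y * cv F G (P + Q - y) := by
      unfold cv
      rw [Finset.mul_sum]
      apply Finset.sum_congr rfl
      intro x hx
      rw [Finset.mem_range] at hx
      have e : P + Q - 1 - x - y = P + Q - y - 1 - x := by omega
      rw [e]
      ring
    rw [h2, ← h1]
    ring
  have e6 : ∑ y ∈ Ico Q (P + Q), ((P : ℝ) + Q - y) * (F (P + Q - y) * F y)
      = ∑ k ∈ range P, ((k : ℝ) + 1) * (F (k + 1) * F (P + Q - (k + 1))) := by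
    rw [Finset.sum_Ico_eq_sum_range]
    have e : P + Q - Q = P := by omega
    rw [e, ← Finset.sum_range_reflect]
    apply Finset.sum_congr rfl
    intro x hx
    rw [Finset.mem_range] at hx
    have e7 : P + Q - (Q + (P - 1 - x)) = x + 1 := by omega
    have e8 : Q + (P - 1 - x) = P + Q - (x + 1) := by omega
    have e9 : (P : ℝ) + Q - ((P + Q - (x + 1) : ℕ) : ℝ) = (x : ℝ) + 1 := by
      rw [Nat.cast_sub (by omega)]; push_cast; ring
    rw [e7, e8, e9]
  have e7 : ∑ k ∈ range P, ((k : ℝ) + 1) * (F (k + 1) * F (P + Q - (k + 1)))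
      = (∑ k ∈ range P, (k : ℝ) * (F k * F (P + Q - k))) + (P : ℝ) * (F P * F Q) := by
    have h1 : ∑ k ∈ range (P + 1), (k : ℝ) * (F k * F (P + Q - k))
        = (∑ k ∈ range P, (k : ℝ) * (F k * F (P + Q - k))) + (P : ℝ) * (F P * F (P + Q - P)) :=
      Finset.sum_range_succ _ _
    have h2 : ∑ k ∈ range (P + 1), (k : ℝ) * (F k * F (P + Q - k))
        = (∑ k ∈ range P, ((k + 1 : ℕ) : ℝ) * (F (k + 1) * F (P + Q - (k + 1))))
          + ((0 : ℕ) : ℝ) * (F 0 * F (P + Q - 0)) :=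
      Finset.sum_range_succ' _ _
    have e : P + Q - P = Q := by omega
    rw [e] at h1
    rw [← h1, h2]
    push_cast
    ring
  rw [e1, e2, e4, e5, e6, e7]
  have e8 : ∑ k ∈ range P, ((P : ℝ) + Q - 2 * k) * (F k * F (P + Q - k))
      = (∑ x ∈ range P, ((P : ℝ) + Q - x) * (F x * F (P + Q - x)))
        - ∑ k ∈ range P, (k : ℝ) * (F k * F (P + Q - k)) := by
    rw [← Finset.sum_sub_distrib]
    exact Finset.sum_congr rfl fun k _ => by ring
  rw [e8]
  ring

end Frz
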